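import Pool.Agent.Lib.MP_104326_lc.KC.A1

/-! KC, module A2: canonical representatives, and `c n = n * t n`.

PROOFS. Write `P + v := P.image (· + v)`. Facts on translates (prove them as small lemmas, they are
used several times): `card (P + v) = card P`; `Conn (P + v)` iff `Conn P` (`adj_add`, map the chains);
`(P + v) + w = P + (v + w)`; `P + 0 = P`; `Translate` is an equivalence relation, therefore
`Quot.mk _ P = Quot.mk _ Q ↔ Translate P Q` (`Equivalence.quot_mk_eq_iff`).

A finite nonempty set `P` has no period: if `P + v = P` then `v = 0` (sum the coordinates: 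
`∑ x ∈ P + v, x = ∑ x ∈ P, x + card P • v`, or take the largest `x.1`, `x.2`).

`lexmin`: every nonempty finite `P` has a cell `m ∈ P` with `LexLe m x` for all `x ∈ P` (for example
`Finset.exists_min_image` applied to `toLex`, or first the least `x.1`, then the least `x.2`). It is
unique as `LexLe` is antisymmetric. `LexLe (a + v) (b + v) ↔ LexLe a b`.

`card_canon`: for `n ≥ 1` every class contains exactly one canonical set: existence by `P + (-m)` with
the least cell `m`; uniqueness: if `P` and `P + v` are canonical then the least cell of `P + v` is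
`0 + v`, and it is `0`, thus `v = 0`. So the map from the canonical sets to `Quot` is bijective.

`c_eq`: the map `(P, v) ↦ P + (-v)` from the pairs of a canonical `P` and a cell `v ∈ P` to the rooted
sets is bijective: surjective: a rooted `Q` with least cell `m` is `(Q + (-m)) + (-(-m))`, with
`v = -m ∈ Q + (-m)` as `0 ∈ Q`. Injective: if `P + (-v) = P' + (-v')` with canonical `P, P'` then the
least cells agree: `-v = -v'`, thus `P = P'`. So `c n = ∑ over canonical P of card P = n * t n`
(`Nat.card_sigma` or `Nat.card_prod`; finiteness from `finite_rooted`: canonical sets are rooted).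

`t_pos`: the row of `n` cells `(0,0), …, (n-1,0)` is an `n`-omino, and `Quot` is finite for `n ≥ 1`
(`card_canon` and finiteness of the canonical sets), so `Nat.card` is positive. For `n = 0` the empty
set is the only `0`-omino. -/

namespace Pool.Agent.Lib.MP_104326_lc

/-- The lexicographic order. -/
def LexLe (a b : ℤ × ℤ) : Prop := a.1 < b.1 ∨ (a.1 = b.1 ∧ a.2 ≤ b.2)

/-- The canonical representatives: the least cell is the origin. -/
def Canon (n : ℕ) (P : Finset (ℤ × ℤ)) : Prop := Rooted n P ∧ ∀ x ∈ P, LexLe (0, 0) x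

theorem card_shift (P : Finset (ℤ × ℤ)) (v : ℤ × ℤ) : (P.image (· + v)).card = P.card :=
  Finset.card_image_of_injective _ (add_left_injective v)

theorem conn_shift {P : Finset (ℤ × ℤ)} (v : ℤ × ℤ) (h : Conn P) : Conn (P.image (· + v)) := by
  intro a ha b hb
  obtain ⟨p, hp, rfl⟩ := Finset.mem_image.1 ha
  obtain ⟨q, hq, rfl⟩ := Finset.mem_image.1 hb
  have := h p hp q hq
  clear hb hq
  induction this with
  | refl => exact Relation.ReflTransGen.refl
  | tail h1 h2 ih => exact ih.tail ⟨Finset.mem_image_of_mem _ h2.1, adj_add.2 h2.2⟩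

theorem shift_shift (P : Finset (ℤ × ℤ)) (v w : ℤ × ℤ) :
    (P.image (· + v)).image (· + w) = P.image (· + (v + w)) := by
  rw [Finset.image_image]
  congr 1
  funext x
  simp [add_assoc]

theorem shift_zero (P : Finset (ℤ × ℤ)) : P.image (· + (0 : ℤ × ℤ)) = P := by
  simp

theorem exists_lexmin {P : Finset (ℤ × ℤ)} (h : P.Nonempty) : ∃ m ∈ P, ∀ x ∈ P, LexLe m x := by
  obtain ⟨m, hm, hmin⟩ := Finset.exists_min_image P (fun x => toLex x) h
  refine ⟨m, hm, fun x hx => ?_⟩
  have := hmin x hx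
  rw [Prod.Lex.toLex_le_toLex] at this
  exact this

private theorem a2_trans_equiv (n : ℕ) : Equivalence (Translate (n := n)) where
  refl P := ⟨0, (shift_zero P.1).symm⟩
  symm := by
    rintro P Q ⟨v, hv⟩
    refine ⟨-v, ?_⟩
    rw [hv, shift_shift, add_neg_cancel, shift_zero]
  trans := by
    rintro P Q R ⟨v, hv⟩ ⟨w, hw⟩
    refine ⟨v + w, ?_⟩
    rw [hw, hv, shift_shift]

private theorem a2_shift_canon {n : ℕ} {P : Finset (ℤ × ℤ)} (hc : P.card = n) (hP : Conn P)
    {m : ℤ × ℤ} (hm : m ∈ P) (hmin : ∀ x ∈ P, LexLe m x) : Canon n (P.image (· + -m)) := by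
  refine ⟨⟨by rw [card_shift, hc], conn_shift _ hP, Finset.mem_image.2 ⟨m, hm, ?_⟩⟩, ?_⟩
  · exact add_neg_cancel m
  · intro x hx
    obtain ⟨p, hp, rfl⟩ := Finset.mem_image.1 hx
    have := hmin p hp
    unfold LexLe at this ⊢
    simp only [Prod.fst_add, Prod.snd_add, Prod.fst_neg, Prod.snd_neg]
    omega

/-- two canonical sets which are translates of rooted positions agree -/
private theorem a2_unique {n : ℕ} {P Q : Finset (ℤ × ℤ)} (hP : Canon n P) (hQ : Canon n Q)
    {v : ℤ × ℤ} (h : Q = P.image (· + v)) : v = 0 := by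
  have h1 : LexLe (0, 0) v := by
    refine hQ.2 v ?_
    rw [h]
    exact Finset.mem_image.2 ⟨(0, 0), hP.1.2.2, by ext <;> simp⟩
  have h2 : (0, 0) ∈ P.image (· + v) := h ▸ hQ.1.2.2
  obtain ⟨p, hp, hpv⟩ := Finset.mem_image.1 h2
  have h3 := hP.2 p hp
  have e1 : p.1 + v.1 = 0 := congrArg Prod.fst hpv
  have e2 : p.2 + v.2 = 0 := congrArg Prod.snd hpv
  unfold LexLe at h1 h3
  simp only at h1 h3
  ext
  · simp only [Prod.fst_zero]; omega
  · simp only [Prod.snd_zero]; omega

private theorem a2_finite (n : ℕ) : Finite {P : Finset (ℤ × ℤ) // Canon n P} := by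
  have h0 : Finite {P : Finset (ℤ × ℤ) // Rooted n P} := finite_rooted n
  exact Finite.of_injective
    (fun P : {P : Finset (ℤ × ℤ) // Canon n P} =>
      (⟨P.1, P.2.1⟩ : {P : Finset (ℤ × ℤ) // Rooted n P}))
    (fun P Q h => Subtype.ext (congrArg (fun R => R.1) h))

theorem card_canon {n : ℕ} (hn : 1 ≤ n) : t n = Nat.card {P : Finset (ℤ × ℤ) // Canon n P} := by
  symm
  unfold t
  refine Nat.card_eq_of_bijective
    (fun P : {P : Finset (ℤ × ℤ) // Canon n P} =>
      Quot.mk (Translate (n := n)) ⟨P.1, P.2.1.1, P.2.1.2.1⟩) ⟨?_, ?_⟩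
  · intro P Q h
    have h1 := ((a2_trans_equiv n).quot_mk_eq_iff _ _).1 h
    obtain ⟨v, hv⟩ := h1
    simp only at hv
    have hv0 := a2_unique P.2 Q.2 hv
    rw [hv0, shift_zero] at hv
    exact Subtype.ext hv.symm
  · intro q
    induction q using Quot.ind with
    | mk P =>
      have hne : P.1.Nonempty := by
        rw [← Finset.card_pos, P.2.1]; omega
      obtain ⟨m, hm, hmin⟩ := exists_lexmin hne
      refine ⟨⟨P.1.image (· + -m), a2_shift_canon P.2.1 P.2.2 hm hmin⟩, Quot.sound ⟨m, ?_⟩⟩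
      simp only
      rw [shift_shift, neg_add_cancel, shift_zero]

theorem c_eq {n : ℕ} (hn : 1 ≤ n) : c n = n * t n := by
  classical
  rw [card_canon hn]
  have hfin := a2_finite n
  have hft : Fintype {P : Finset (ℤ × ℤ) // Canon n P} := Fintype.ofFinite _
  have hb : Nat.card (Σ P : {P : Finset (ℤ × ℤ) // Canon n P}, {v : ℤ × ℤ // v ∈ P.1}) = c n := by
    unfold c
    refine Nat.card_eq_of_bijective
      (fun z : (Σ P : {P : Finset (ℤ × ℤ) // Canon n P}, {v : ℤ × ℤ // v ∈ P.1}) =>
        (⟨z.1.1.image (· + -z.2.1), by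
          refine ⟨by rw [card_shift, z.1.2.1.1], conn_shift _ z.1.2.1.2.1,
            Finset.mem_image.2 ⟨z.2.1, z.2.2, add_neg_cancel z.2.1⟩⟩⟩ :
          {P : Finset (ℤ × ℤ) // Rooted n P})) ⟨?_, ?_⟩
    · rintro ⟨P, v⟩ ⟨Q, w⟩ h
      have h1 : P.1.image (· + -v.1) = Q.1.image (· + -w.1) := congrArg (fun R => R.1) h
      have h2 : Q.1 = P.1.image (· + (-v.1 + w.1)) := by
        rw [← shift_shift, h1, shift_shift, neg_add_cancel, shift_zero]
      have h3 := a2_unique P.2 Q.2 h2
      have h4 : v.1 = w.1 := by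
        have := congrArg (fun x => x + v.1) h3
        simp only [zero_add] at this
        rw [← this]; abel
      have h5 : P = Q := by
        rw [h3, shift_zero] at h2
        exact Subtype.ext h2.symm
      subst h5
      have h6 : v = w := Subtype.ext h4
      rw [h6]
    · rintro ⟨Q, hQ⟩
      obtain ⟨m, hm, hmin⟩ := exists_lexmin (P := Q) ⟨_, hQ.2.2⟩
      have hc := a2_shift_canon hQ.1 hQ.2.1 hm hmin
      refine ⟨⟨⟨Q.image (· + -m), hc⟩, ⟨-m, Finset.mem_image.2 ⟨(0, 0), hQ.2.2, ?_⟩⟩⟩, ?_⟩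
      · ext <;> simp
      · apply Subtype.ext
        simp only
        rw [shift_shift, neg_neg, neg_add_cancel, shift_zero]
  rw [← hb, Nat.card_sigma]
  have hcard : ∀ P : {P : Finset (ℤ × ℤ) // Canon n P}, Nat.card {v : ℤ × ℤ // v ∈ P.1} = n := by
    intro P
    rw [Nat.card_eq_fintype_card, Fintype.card_coe, P.2.1.1]
  rw [Finset.sum_congr rfl (fun P _ => hcard P), Finset.sum_const, Finset.card_univ,
    Nat.card_eq_fintype_card, smul_eq_mul, mul_comm]

private theorem a2_row {n : ℕ} (hn : 1 ≤ n) :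
    Canon n ((Finset.range n).image (fun i : ℕ => ((i : ℤ), (0 : ℤ)))) := by
  classical
  have hmem : ∀ i : ℕ, i < n → ((i : ℤ), (0 : ℤ)) ∈
      (Finset.range n).image (fun i : ℕ => ((i : ℤ), (0 : ℤ))) :=
    fun i hi => Finset.mem_image.2 ⟨i, Finset.mem_range.2 hi, rfl⟩
  have hch : ∀ i : ℕ, i < n → Relation.ReflTransGen (fun x y =>
      y ∈ (Finset.range n).image (fun i : ℕ => ((i : ℤ), (0 : ℤ))) ∧ Adj x y)
      ((0 : ℤ), (0 : ℤ)) ((i : ℤ), (0 : ℤ)) := by
    intro i
    induction i with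
    | zero => intro _; exact Relation.ReflTransGen.refl
    | succ i ih =>
      intro hi
      refine (ih (by omega)).tail ⟨hmem (i + 1) hi, ?_⟩
      unfold Adj
      simp
  have h0 := hmem 0 hn
  refine ⟨⟨?_, ?_, by exact_mod_cast h0⟩, ?_⟩
  · rw [Finset.card_image_of_injective, Finset.card_range]
    intro i j h
    have h' : (i : ℤ) = (j : ℤ) := congrArg Prod.fst h
    exact_mod_cast h'
  · intro a ha b hb
    obtain ⟨i, hi, rfl⟩ := Finset.mem_image.1 ha
    obtain ⟨j, hj, rfl⟩ := Finset.mem_image.1 hb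
    have h1 := hch i (Finset.mem_range.1 hi)
    have h2 := hch j (Finset.mem_range.1 hj)
    have h3 : ∀ x, Relation.ReflTransGen (fun x y =>
        y ∈ (Finset.range n).image (fun i : ℕ => ((i : ℤ), (0 : ℤ))) ∧ Adj x y)
        ((0 : ℤ), (0 : ℤ)) x → x ∈ (Finset.range n).image (fun i : ℕ => ((i : ℤ), (0 : ℤ))) ∧
        Relation.ReflTransGen (fun x y =>
        y ∈ (Finset.range n).image (fun i : ℕ => ((i : ℤ), (0 : ℤ))) ∧ Adj x y)
        x ((0 : ℤ), (0 : ℤ)) := by
      intro x hx
      induction hx with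
      | refl => exact ⟨by exact_mod_cast h0, Relation.ReflTransGen.refl⟩
      | tail g1 g2 ih =>
        exact ⟨g2.1, Relation.ReflTransGen.head ⟨ih.1, adj_comm.1 g2.2⟩ ih.2⟩
    exact (h3 _ h1).2.trans h2
  · intro x hx
    obtain ⟨i, hi, rfl⟩ := Finset.mem_image.1 hx
    unfold LexLe
    simp only
    omega

theorem t_pos (n : ℕ) : 1 ≤ t n := by
  rcases Nat.eq_zero_or_pos n with hn | hn
  · subst hn
    have hsub : Subsingleton (Omino 0) := by
      refine ⟨fun P Q => Subtype.ext ?_⟩
      rw [Finset.card_eq_zero.1 P.2.1, Finset.card_eq_zero.1 Q.2.1]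
    have hne : Nonempty (Omino 0) :=
      ⟨⟨∅, Finset.card_empty, fun a ha => absurd ha (Finset.notMem_empty a)⟩⟩
    have hf : Finite (Omino 0) := Finite.of_subsingleton
    have hq : Finite (Quot (Translate (n := 0))) := Quot.finite _
    have hqn : Nonempty (Quot (Translate (n := 0))) := hne.map (Quot.mk _)
    exact Nat.card_pos
  · rw [card_canon hn]
    have h1 := a2_finite n
    have h2 : Nonempty {P : Finset (ℤ × ℤ) // Canon n P} := ⟨⟨_, a2_row hn⟩⟩
    exact Nat.card_pos

end Pool.Agent.Lib.MP_104326_lc
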