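import Pool.Agent.Lib.MP_104326_lc.KC.A2

/-! KC, module A3: concatenation, `t a * t b ≤ t (a + b)`.

PROOF. By `card_canon` all three numbers count canonical sets. For canonical `P` (size `a ≥ 1`) and
`Q` (size `b ≥ 1`) let `m` be the lexicographically largest cell of `P` (it exists: `exists_lexmin` of
the image under negation, or directly) and `P ∘ Q := P ∪ (Q + (m + (0,1)))`. All cells of `P` are
`≤ m`, all cells of `Q + (m + (0,1))` are `≥ m + (0,1) > m` (lexicographically). So the union is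
disjoint and has `a + b` cells, it is connected (`m ∈ P` and `m + (0,1)`, the image of the origin of
`Q`, are adjacent; a chain inside of `P` or inside of the translate of `Q` is a chain in the union;
chains can be reversed as `Adj` is symmetric), contains the origin, and all its cells are `≥ 0`. So
it is canonical. Injective: if `P ∘ Q = P' ∘ Q'` then `P = P'`: suppose `P ≠ P'`. As the sizes are
equal there are `x ∈ P \ P'` and `x' ∈ P' \ P`. Then `x ∈ Q' + (m' + (0,1))`, so `x > m' ≥ x'`, and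
in the same way `x' > x`, a contradiction. So `P = P'`, `m = m'` (the largest cell is unique) and
`Q + (m + (0,1))` is the difference of the union and `P`, thus `Q = Q'`. Therefore
`t a * t b ≤ t (a + b)` (`Nat.card_prod`, `Nat.card_le_card_of_injective`). -/

namespace Pool.Agent.Lib.MP_104326_lc

theorem a3_rt_symm {P : Finset (ℤ × ℤ)} {a b : ℤ × ℤ} (ha : a ∈ P)
    (h : Relation.ReflTransGen (fun x y => y ∈ P ∧ Adj x y) a b) :
    b ∈ P ∧ Relation.ReflTransGen (fun x y => y ∈ P ∧ Adj x y) b a := by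
  induction h with
  | refl => exact ⟨ha, Relation.ReflTransGen.refl⟩
  | tail h1 h2 ih =>
    exact ⟨h2.1, Relation.ReflTransGen.head ⟨ih.1, adj_comm.1 h2.2⟩ ih.2⟩

theorem a3_rt_mono {P Q : Finset (ℤ × ℤ)} (hPQ : P ⊆ Q) {a b : ℤ × ℤ}
    (h : Relation.ReflTransGen (fun x y => y ∈ P ∧ Adj x y) a b) :
    Relation.ReflTransGen (fun x y => y ∈ Q ∧ Adj x y) a b := by
  induction h with
  | refl => exact Relation.ReflTransGen.refl
  | tail h1 h2 ih => exact ih.tail ⟨hPQ h2.1, h2.2⟩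

theorem a3_conn_of_root {P : Finset (ℤ × ℤ)} {v : ℤ × ℤ} (hv : v ∈ P)
    (h : ∀ w ∈ P, Relation.ReflTransGen (fun x y => y ∈ P ∧ Adj x y) v w) : Conn P := by
  intro a ha b hb
  exact (a3_rt_symm hv (h a ha)).2.trans (h b hb)

theorem a3_lexmax {P : Finset (ℤ × ℤ)} (h : P.Nonempty) : ∃ m ∈ P, ∀ x ∈ P, LexLe x m := by
  classical
  obtain ⟨m, hm, hmin⟩ := exists_lexmin (P := P.image (fun x => -x)) (h.image _)
  obtain ⟨p, hp, rfl⟩ := Finset.mem_image.1 hm
  refine ⟨p, hp, fun x hx => ?_⟩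
  have := hmin (-x) (Finset.mem_image_of_mem _ hx)
  unfold LexLe at this ⊢
  simp only [Prod.fst_neg, Prod.snd_neg] at this
  omega

theorem a3_shift_ge {Q : Finset (ℤ × ℤ)} (hQ : ∀ x ∈ Q, LexLe (0, 0) x) (m : ℤ × ℤ) :
    ∀ y ∈ Q.image (· + (m + (0, 1))), LexLe (m + (0, 1)) y := by
  intro y hy
  obtain ⟨q, hq, rfl⟩ := Finset.mem_image.1 hy
  have := hQ q hq
  unfold LexLe at this ⊢
  simp only [Prod.fst_add, Prod.snd_add] at this ⊢
  omega

theorem a3_absurd {x m : ℤ × ℤ} (h1 : LexLe x m) (h2 : LexLe (m + (0, 1)) x) : False := by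
  unfold LexLe at h1 h2
  simp only [Prod.fst_add, Prod.snd_add] at h1 h2
  omega

theorem a3_disj {P Q : Finset (ℤ × ℤ)} (hQ : ∀ x ∈ Q, LexLe (0, 0) x) {m : ℤ × ℤ}
    (hmax : ∀ x ∈ P, LexLe x m) : Disjoint P (Q.image (· + (m + (0, 1)))) := by
  rw [Finset.disjoint_left]
  intro x hx hx'
  exact a3_absurd (hmax x hx) (a3_shift_ge hQ m x hx')

theorem a3_canon {a b : ℕ} {P Q : Finset (ℤ × ℤ)} (hP : Canon a P) (hQ : Canon b Q) {m : ℤ × ℤ}
    (hm : m ∈ P) (hmax : ∀ x ∈ P, LexLe x m) :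
    Canon (a + b) (P ∪ Q.image (· + (m + (0, 1)))) := by
  classical
  have hsP : P ⊆ P ∪ Q.image (· + (m + (0, 1))) := Finset.subset_union_left
  have hsQ : Q.image (· + (m + (0, 1))) ⊆ P ∪ Q.image (· + (m + (0, 1))) :=
    Finset.subset_union_right
  have hmQ : m + (0, 1) ∈ Q.image (· + (m + (0, 1))) :=
    Finset.mem_image.2 ⟨(0, 0), hQ.1.2.2, by
      ext <;> simp⟩
  have hadj : Adj m (m + (0, 1)) := by
    unfold Adj
    simp
  refine ⟨⟨?_, ?_, hsP hP.1.2.2⟩, ?_⟩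
  · rw [Finset.card_union_of_disjoint (a3_disj hQ.2 hmax), card_shift, hP.1.1, hQ.1.1]
  · refine a3_conn_of_root (hsP hP.1.2.2) ?_
    intro w hw
    rcases Finset.mem_union.1 hw with hw | hw
    · exact a3_rt_mono hsP (hP.1.2.1 _ hP.1.2.2 w hw)
    · have h1 := a3_rt_mono hsP (hP.1.2.1 _ hP.1.2.2 m hm)
      have h2 := a3_rt_mono hsQ (conn_shift (m + (0, 1)) hQ.1.2.1 _ hmQ w hw)
      exact (h1.tail ⟨hsQ hmQ, hadj⟩).trans h2
  · intro x hx
    rcases Finset.mem_union.1 hx with hx | hx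
    · exact hP.2 x hx
    · have h1 := a3_shift_ge hQ.2 m x hx
      have h2 := hP.2 m hm
      unfold LexLe at h1 h2 ⊢
      simp only [Prod.fst_add, Prod.snd_add] at h1 h2 ⊢
      omega

theorem a3_inj {a : ℕ} {P Q P' Q' : Finset (ℤ × ℤ)} (hP : P.card = a) (hP' : P'.card = a)
    (hQ : ∀ x ∈ Q, LexLe (0, 0) x) (hQ' : ∀ x ∈ Q', LexLe (0, 0) x) {m m' : ℤ × ℤ}
    (hmax : ∀ x ∈ P, LexLe x m) (hmax' : ∀ x ∈ P', LexLe x m')
    (h : P ∪ Q.image (· + (m + (0, 1))) = P' ∪ Q'.image (· + (m' + (0, 1)))) : P = P' := by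
  classical
  by_contra hne
  have h1 : ∃ x ∈ P, x ∉ P' := by
    by_contra hc
    push Not at hc
    exact hne (Finset.eq_of_subset_of_card_le hc (by omega))
  have h2 : ∃ x ∈ P', x ∉ P := by
    by_contra hc
    push Not at hc
    exact hne (Finset.eq_of_subset_of_card_le hc (by omega)).symm
  obtain ⟨x, hx, hx'⟩ := h1
  obtain ⟨y, hy, hy'⟩ := h2
  have hxU : x ∈ P' ∪ Q'.image (· + (m' + (0, 1))) := h ▸ Finset.mem_union_left _ hx
  have hyU : y ∈ P ∪ Q.image (· + (m + (0, 1))) := h ▸ Finset.mem_union_left _ hy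
  have hxQ : x ∈ Q'.image (· + (m' + (0, 1))) := (Finset.mem_union.1 hxU).resolve_left hx'
  have hyQ : y ∈ Q.image (· + (m + (0, 1))) := (Finset.mem_union.1 hyU).resolve_left hy'
  have e1 := a3_shift_ge hQ' m' x hxQ
  have e2 := a3_shift_ge hQ m y hyQ
  have e3 := hmax x hx
  have e4 := hmax' y hy
  unfold LexLe at e1 e2 e3 e4
  simp only [Prod.fst_add, Prod.snd_add] at e1 e2 e3 e4
  omega

theorem t_mul_le {a b : ℕ} (ha : 1 ≤ a) (hb : 1 ≤ b) : t a * t b ≤ t (a + b) := by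
  classical
  rw [card_canon ha, card_canon hb, card_canon (by omega : 1 ≤ a + b), ← Nat.card_prod]
  have hM : ∀ P : {P : Finset (ℤ × ℤ) // Canon a P}, ∃ m ∈ P.1, ∀ x ∈ P.1, LexLe x m :=
    fun P => a3_lexmax ⟨_, P.2.1.2.2⟩
  choose M hM1 hM2 using hM
  haveI : Finite {P : Finset (ℤ × ℤ) // Canon (a + b) P} := by
    haveI : Finite {P : Finset (ℤ × ℤ) // Rooted (a + b) P} := finite_rooted (a + b)
    exact Finite.of_injective
      (fun P : {P : Finset (ℤ × ℤ) // Canon (a + b) P} =>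
        (⟨P.1, P.2.1⟩ : {P : Finset (ℤ × ℤ) // Rooted (a + b) P}))
      (fun P Q h => Subtype.ext (congrArg (fun R => R.1) h))
  refine Nat.card_le_card_of_injective
    (fun z : {P : Finset (ℤ × ℤ) // Canon a P} × {P : Finset (ℤ × ℤ) // Canon b P} =>
      (⟨z.1.1 ∪ z.2.1.image (· + (M z.1 + (0, 1))),
        a3_canon z.1.2 z.2.2 (hM1 z.1) (hM2 z.1)⟩ :
        {P : Finset (ℤ × ℤ) // Canon (a + b) P})) ?_
  rintro ⟨P, Q⟩ ⟨P', Q'⟩ h
  have h1 : P.1 ∪ Q.1.image (· + (M P + (0, 1))) = P'.1 ∪ Q'.1.image (· + (M P' + (0, 1))) :=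
    congrArg (fun R => R.1) h
  have hPP : P = P' :=
    Subtype.ext (a3_inj P.2.1.1 P'.2.1.1 Q.2.2 Q'.2.2 (hM2 P) (hM2 P') h1)
  subst hPP
  have d1 := a3_disj Q.2.2 (hM2 P)
  have d2 := a3_disj Q'.2.2 (hM2 P)
  have h2 : Q.1.image (· + (M P + (0, 1))) = Q'.1.image (· + (M P + (0, 1))) := by
    rw [← Finset.union_sdiff_cancel_left d1, h1, Finset.union_sdiff_cancel_left d2]
  have h3 : Q.1 = Q'.1 := Finset.image_injective (add_left_injective _) h2
  have h4 : Q = Q' := Subtype.ext h3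
  rw [h4]

end Pool.Agent.Lib.MP_104326_lc
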