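import Pool.Agent.Lib.PolyTime.BinNat
import Pool.Agent.Lib.PolyTime.Lists

/-! KC, module D0a: basic polynomial time functions on unary numbers and lists.

PROOFS. `PT_div`, `PT_mod`, `PT_getD'`: copy the proofs from `Pool/Agent/Lib/MP_beb3fe_lc/PTMap.lean`
(lines 412-450; do not import that file). `PT_sum`: copy from `Pool/Agent/Lib/Parity/PTB.lean`
(`PT.sum`, with `ptb_sum_le_size`). `PT_sqrt`: `Nat.sqrt n = ((List.range n).filter (fun i =>
decide ((i + 1) * (i + 1) ≤ n))).length` (the `i < n` with `(i + 1) * (i + 1) ≤ n` are exactly the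
`i < Nat.sqrt n`: `Nat.le_sqrt`, `Nat.sqrt_le_self`), `PT.length`, `PT.filter`, `PT.range`, `PT.le`,
`PT.mul`. `PT_size`: `(PT.toBN hf).bnSize`. `PT_mem`: `decide (b ∈ l) = l.any (fun c => decide (c = b))`,
`PT.any`, `PT.eq`. `PT_replicate`: `List.replicate n b = (List.range n).map (fun _ => b)`. `PT_min`:
`if f a ≤ g a then f a else g a` (`PT.ite`, `PT.le`). -/

namespace Pool.Agent.Lib.MP_104326_lc

open Pool.Agent.Lib.PolyTime

variable {α β : Type} [Enc α] [Enc β]

theorem PT_div {f g : α → ℕ} (hf : PT f) (hg : PT g) : PT (fun a => f a / g a) := by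
  have h1 : PT (fun a => ((List.range (f a)).filter
      (fun j => decide ((j + 1) * g a ≤ f a))).length) := by
    refine PT.length (PT.filter (f := fun a => List.range (f a))
      (p := fun a j => decide ((j + 1) * g a ≤ f a)) (PT.range hf) ?_)
    exact PT.le (PT.mul (PT.succ PT.snd) (hg.comp PT.fst)) (hf.comp PT.fst)
  have h2 := PT.ite (c := fun a => g a = 0) (PT.eq hg (PT.const 0)) (PT.const 0) h1
  refine h2.congr (fun a => ?_)
  by_cases hg0 : g a = 0
  · rw [if_pos hg0, hg0, Nat.div_zero]
  · rw [if_neg hg0]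
    have hpos : 0 < g a := Nat.pos_of_ne_zero hg0
    have h3 : ((List.range (f a)).filter (fun j => decide ((j + 1) * g a ≤ f a))).length =
        ((Finset.range (f a)).filter (fun j => (j + 1) * g a ≤ f a)).card := rfl
    have h4 : (Finset.range (f a)).filter (fun j => (j + 1) * g a ≤ f a) =
        Finset.range (f a / g a) := by
      ext j
      rw [Finset.mem_filter, Finset.mem_range, Finset.mem_range, Nat.lt_iff_add_one_le (m := j),
        Nat.lt_iff_add_one_le (m := j), Nat.le_div_iff_mul_le hpos]
      constructor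
      · exact fun h => h.2
      · intro h
        exact ⟨(Nat.le_mul_of_pos_right _ hpos).trans h, h⟩
    rw [h3, h4, Finset.card_range]

theorem PT_mod {f g : α → ℕ} (hf : PT f) (hg : PT g) : PT (fun a => f a % g a) := by
  refine (PT.sub hf (PT.mul hg (PT_div hf hg))).congr (fun a => ?_)
  have := Nat.div_add_mod (f a) (g a)
  omega

private theorem D0a_sum_le_size (l : List ℕ) : 2 * l.sum + 1 ≤ size l := by
  induction l with
  | nil => simp
  | cons a l ih =>
    rw [size_cons, List.sum_cons, size_nat]
    omega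

theorem PT_sum {f : α → List ℕ} (hf : PT f) : PT (fun a => (f a).sum) := by
  obtain ⟨p, hp⟩ := hf.size_le
  have h := PT.foldl_add (f := f) (init := fun _ => 0) (step := fun _ s b => s + b) hf
    (PT.const 0) (PT.add PT.snd.fst' PT.snd.snd') (C := fun n => p.eval n) (PB.poly p) (by
      intro a s b hb
      have h1 := size_mem_lt hb
      have h2 := hp a
      rw [size_nat] at h1
      rw [size_nat, size_nat]
      omega)
  refine h.congr (fun a => ?_)
  rw [← List.sum_eq_foldl]

theorem PT_getD' {f : α → List β} {i : α → ℕ} (hf : PT f) (hi : PT i) (b : β) :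
    PT (fun a => (f a).getD (i a) b) := by
  refine (PT.optCases (f := fun a => (f a)[i a]?) (g := fun _ => b) (h := fun _ c => c)
    (PT.getElem? hi hf) (PT.const b) PT.snd).congr (fun a => ?_)
  rw [List.getD_eq_getElem?_getD]
  cases (f a)[i a]? <;> rfl

theorem PT_sqrt {f : α → ℕ} (hf : PT f) : PT (fun a => Nat.sqrt (f a)) := by
  have h1 : PT (fun a => ((List.range (f a)).filter
      (fun j => decide ((j + 1) * (j + 1) ≤ f a))).length) := by
    refine PT.length (PT.filter (f := fun a => List.range (f a))
      (p := fun a j => decide ((j + 1) * (j + 1) ≤ f a)) (PT.range hf) ?_)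
    exact PT.le (PT.mul (PT.succ PT.snd) (PT.succ PT.snd)) (hf.comp PT.fst)
  refine h1.congr (fun a => ?_)
  have h3 : ((List.range (f a)).filter (fun j => decide ((j + 1) * (j + 1) ≤ f a))).length =
      ((Finset.range (f a)).filter (fun j => (j + 1) * (j + 1) ≤ f a)).card := rfl
  have h4 : (Finset.range (f a)).filter (fun j => (j + 1) * (j + 1) ≤ f a) =
      Finset.range (Nat.sqrt (f a)) := by
    ext j
    rw [Finset.mem_filter, Finset.mem_range, Finset.mem_range, Nat.lt_iff_add_one_le (m := j),
      Nat.lt_iff_add_one_le (m := j), Nat.le_sqrt]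
    constructor
    · exact fun h => h.2
    · intro h
      exact ⟨(Nat.le_mul_self (j + 1)).trans h, h⟩
  rw [h3, h4, Finset.card_range]

theorem PT_size {f : α → ℕ} (hf : PT f) : PT (fun a => Nat.size (f a)) := (PT.toBN hf).bnSize

theorem PT_mem [DecidableEq β] {f : α → β} {g : α → List β} (hf : PT f) (hg : PT g) :
    PT (fun a => decide (f a ∈ g a)) := by
  refine (PT.any (f := g) (p := fun a b => decide (b = f a)) hg
    (PT.eq PT.snd (hf.comp PT.fst))).congr (fun a => ?_)
  rw [Bool.eq_iff_iff, List.any_eq_true, decide_eq_true_iff]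
  constructor
  · rintro ⟨x, hx, h⟩
    rw [decide_eq_true_iff] at h
    exact h ▸ hx
  · intro h
    exact ⟨f a, h, decide_eq_true rfl⟩

theorem PT_replicate {f : α → ℕ} {g : α → β} (hf : PT f) (hg : PT g) :
    PT (fun a => List.replicate (f a) (g a)) := by
  refine (PT.map (f := fun a => List.range (f a)) (g := fun a _ => g a) (PT.range hf)
    (hg.comp PT.fst)).congr (fun a => ?_)
  simp

theorem PT_min {f g : α → ℕ} (hf : PT f) (hg : PT g) : PT (fun a => min (f a) (g a)) := by
  refine (PT.ite (c := fun a => f a ≤ g a) (PT.le hf hg) hf hg).congr (fun a => ?_)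
  by_cases h : f a ≤ g a
  · rw [if_pos h, min_eq_left h]
  · rw [if_neg h, min_eq_right (by omega)]

end Pool.Agent.Lib.MP_104326_lc
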