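import Pool.Agent.Lib.PolyTime.BinNat
import Pool.Agent.Lib.PolyTime.Lists

/-! KC, module D0b: powers, factorials, binomial coefficients in binary.

PROOFS. `PT_bnPow`: `PT.bnFoldl` over `List.range (g a)` with the step `s ↦ ⟨s.val * (f a).val⟩`, start
`⟨1⟩`; after `i` steps the value is `(f a).val ^ i`. Bound for `i ≤ g a` (`l' <+: List.range (g a)` has
length `≤ g a`): `(f a).val < 2 ^ size (f a)` (`lt_two_pow_size`), so the value is `< 2 ^ (size (f a) * i
+ 1)`, and by `size_BN_le_of_lt` the size is `≤ 4 * (size (f a) * i + 1) + 1`, polynomial in `size a` (`hf.size_le`,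
`hg.size_le`). `PT_bnFact`: fold over `List.range (f a)` with `s, i ↦ ⟨s.val * (i + 1)⟩`, value
`i !` after `i` steps, `i ! ≤ i ^ i ≤ (n) ^ n < 2 ^ (n * n + 1)`. `PT_bnChoose`:
`Nat.choose n k = n ! / (k ! * (n - k) !)` for `k ≤ n` (`Nat.choose_eq_factorial_div_factorial`), and `0` for
`n < k` (`PT.ite`, `PT.le`). -/

namespace Pool.Agent.Lib.MP_104326_lc

open Pool.Agent.Lib.PolyTime

variable {α : Type} [Enc α]

theorem PT_bnPow {f : α → BN} {g : α → ℕ} (hf : PT f) (hg : PT g) :
    PT (fun a => (⟨(f a).val ^ (g a)⟩ : BN)) := by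
  obtain ⟨p, hp⟩ := hf.size_le
  obtain ⟨q, hq⟩ := hg.size_le
  have key : ∀ (a : α) (l : List ℕ) (n : ℕ),
      l.foldl (fun (s : BN) _ => (⟨s.val * (f a).val⟩ : BN)) ⟨n⟩ =
      ⟨n * (f a).val ^ l.length⟩ := by
    intro a l
    induction l with
    | nil => intro n; simp
    | cons b l ih =>
      intro n
      rw [List.foldl_cons, ih, List.length_cons]
      exact BN.ext' (by simp only [pow_succ]; ring)
  have h := PT.bnFoldl (f := fun a => List.range (g a)) (init := fun _ => (⟨1⟩ : BN))
    (step := fun a s _ => ⟨s.val * (f a).val⟩) hg.range (PT.const _)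
    (PT.bnMul PT.snd.fst' (hf.comp PT.fst))
    (B := fun n => p.eval n * q.eval n + 1) (((PB.poly p).mul (PB.poly q)).add (PB.const 1)) (by
      intro a l' hl'
      rw [key]
      simp only [one_mul]
      have h1 := hl'.length_le
      rw [List.length_range] at h1
      have h2 := hq a
      rw [size_nat] at h2
      have h3 : (f a).val < 2 ^ p.eval (size a) :=
        (lt_two_pow_size _).trans_le (Nat.pow_le_pow_right (by norm_num) (hp a))
      calc (f a).val ^ l'.length ≤ (2 ^ p.eval (size a)) ^ l'.length :=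
            Nat.pow_le_pow_left h3.le _
        _ = 2 ^ (p.eval (size a) * l'.length) := (pow_mul _ _ _).symm
        _ ≤ 2 ^ (p.eval (size a) * q.eval (size a)) :=
            Nat.pow_le_pow_right (by norm_num) (Nat.mul_le_mul_left _ (by omega))
        _ < 2 ^ (p.eval (size a) * q.eval (size a) + 1) :=
            Nat.pow_lt_pow_right (by norm_num) (Nat.lt_succ_self _))
  refine h.congr (fun a => ?_)
  rw [key, one_mul, List.length_range]

theorem PT_bnFact {f : α → ℕ} (hf : PT f) : PT (fun a => (⟨(f a).factorial⟩ : BN)) := by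
  obtain ⟨p, hp⟩ := hf.size_le
  have key : ∀ m : ℕ, (List.range m).foldl (fun (s : BN) i => (⟨s.val * (i + 1)⟩ : BN)) ⟨1⟩ =
      ⟨m.factorial⟩ := by
    intro m
    induction m with
    | zero => rfl
    | succ m ih =>
      rw [List.range_succ, List.foldl_append, ih, List.foldl_cons, List.foldl_nil]
      exact BN.ext' (by simp only [Nat.factorial_succ]; ring)
  have h := PT.bnFoldl (f := fun a => List.range (f a)) (init := fun _ => (⟨1⟩ : BN))
    (step := fun _ s i => ⟨s.val * (i + 1)⟩) hf.range (PT.const _)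
    ((PT.bnMul PT.snd.fst' (PT.toBN (PT.succ PT.snd.snd'))).congr (fun _ => rfl))
    (B := fun n => p.eval n * p.eval n + 1) (((PB.poly p).mul (PB.poly p)).add (PB.const 1)) (by
      intro a l' hl'
      have h0 : l' = List.range l'.length := by
        have h5 := List.prefix_iff_eq_take.1 hl'
        rw [List.take_range, min_eq_left] at h5
        · exact h5
        · have h1 := hl'.length_le
          rwa [List.length_range] at h1
      have h1 := hl'.length_le
      rw [List.length_range] at h1
      have h2 := hp a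
      rw [size_nat] at h2
      rw [h0, key]
      simp only
      have h3 : l'.length ≤ p.eval (size a) := by omega
      calc (l'.length).factorial ≤ (p.eval (size a)).factorial := Nat.factorial_le h3
        _ ≤ (p.eval (size a)) ^ (p.eval (size a)) := Nat.factorial_le_pow _
        _ ≤ (2 ^ p.eval (size a)) ^ (p.eval (size a)) :=
            Nat.pow_le_pow_left Nat.lt_two_pow_self.le _
        _ = 2 ^ (p.eval (size a) * p.eval (size a)) := (pow_mul _ _ _).symm
        _ < 2 ^ (p.eval (size a) * p.eval (size a) + 1) :=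
            Nat.pow_lt_pow_right (by norm_num) (Nat.lt_succ_self _))
  refine h.congr (fun a => ?_)
  exact key _

theorem PT_bnChoose {f g : α → ℕ} (hf : PT f) (hg : PT g) :
    PT (fun a => (⟨(f a).choose (g a)⟩ : BN)) := by
  have h := PT.ite (c := fun a => g a ≤ f a) (PT.le hg hf)
    (PT.bnDiv (PT_bnFact hf) (PT.bnMul (PT_bnFact hg) (PT_bnFact (PT.sub hf hg))))
    (PT.const (⟨0⟩ : BN))
  refine h.congr (fun a => ?_)
  by_cases hc : g a ≤ f a
  · rw [if_pos hc]
    exact BN.ext' (Nat.choose_eq_factorial_div_factorial hc).symm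
  · rw [if_neg hc]
    exact BN.ext' (Nat.choose_eq_zero_of_lt (not_le.1 hc)).symm

end Pool.Agent.Lib.MP_104326_lc
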