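import Pool.Agent.Lib.MP_104326_lc.KC.A4

/-! KC, module A5: balanced splitting of a connected set.

PROOF. `card_nbrs`: the neighbours of `v` are `v + (1,0)`, `v - (1,0)`, `v + (0,1)`, `v - (0,1)`, so the
filter is a subset of an explicit set of 4 elements; if one of them is missing the number is `≤ 3`
(the filter is contained in that set with `w` erased).

`exists_split`: let `n = P.card ≥ 2`. Claim: for every `m` and every `C ⊆ P` with `C.card ≤ m`,
`C.Nonempty`, `Conn C`, `Conn (P \ C)`, `(P \ C).Nonempty`, `n ≤ 4 * C.card + 1` and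
`∃ v ∈ P \ C, ∃ w ∈ C, Adj v w` there is a set as in the statement. Induction on `m`. If
`n ≤ 4 * (P \ C).card + 1` take `A := C`. Otherwise `4 * (P \ C).card + 1 < n`, so with
`C.card = n - (P \ C).card` one gets `4 * C.card ≥ 3 * n + 2`, in particular `C.card ≥ 2`. The cell
`w ∈ C` has at most 3 neighbours in `C` as its neighbour `v` is not in `C` (`card_nbrs_le_three`). By
`exists_branch` (with `B := C`, `v := w`, `k := 3`) there is `C' ⊆ C` with `w ∉ C'`, nonempty, connected,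
`C \ C'` connected, `C.card ≤ 3 * C'.card + 1`, and `u ∈ C'` with `Adj w u`. Then `C'.card < C.card`
(`w ∈ C \ C'`); `P \ C' = (P \ C) ∪ (C \ C')` is connected, since both parts are and `v ∈ P \ C`,
`w ∈ C \ C'` are adjacent (`conn_union`); it is nonempty; `4 * C'.card + 1 ≥ n` since
`12 * C'.card ≥ 4 * C.card - 4 ≥ 3 * n - 2`, so `12 * C'.card + 3 ≥ 3 * n + 1` (omega). Apply the
induction hypothesis to `C'` with the pair `w ∈ P \ C'`, `u ∈ C'`.
Start: pick `v ∈ P`; `exists_branch` with `B := P`, `k := 4` (`card_nbrs`) gives `C` with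
`n ≤ 4 * C.card + 1`, `v ∈ P \ C`. -/

namespace Pool.Agent.Lib.MP_104326_lc

/-- The four neighbours of a cell. -/
def nb4 (v : ℤ × ℤ) : Finset (ℤ × ℤ) :=
  {(v.1 + 1, v.2), (v.1 - 1, v.2), (v.1, v.2 + 1), (v.1, v.2 - 1)}

theorem adj_iff_nb4 {v u : ℤ × ℤ} : Adj v u ↔ u ∈ nb4 v := by
  obtain ⟨a, b⟩ := v
  obtain ⟨c, d⟩ := u
  simp only [Adj, nb4, Finset.mem_insert, Finset.mem_singleton, Prod.mk.injEq, Int.abs_eq_natAbs]
  omega

theorem card_nb4 (v : ℤ × ℤ) : (nb4 v).card ≤ 4 := Finset.card_le_four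

theorem card_nbrs (B : Finset (ℤ × ℤ)) (v : ℤ × ℤ) : (B.filter fun u => Adj v u).card ≤ 4 := by
  refine (Finset.card_le_card ?_).trans (card_nb4 v)
  intro u hu
  exact adj_iff_nb4.1 (Finset.mem_filter.1 hu).2

theorem card_nbrs_le_three {B : Finset (ℤ × ℤ)} {v w : ℤ × ℤ} (hw : w ∉ B) (h : Adj v w) :
    (B.filter fun u => Adj v u).card ≤ 3 := by
  have h1 : (B.filter fun u => Adj v u) ⊆ (nb4 v).erase w := by
    intro u hu
    have hu' := Finset.mem_filter.1 hu
    refine Finset.mem_erase.2 ⟨?_, adj_iff_nb4.1 hu'.2⟩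
    rintro rfl
    exact hw hu'.1
  have h2 := Finset.card_le_card h1
  rw [Finset.card_erase_of_mem (adj_iff_nb4.1 h)] at h2
  have h3 := card_nb4 v
  omega

theorem conn_union {P Q : Finset (ℤ × ℤ)} {x y : ℤ × ℤ} (hP : Conn P) (hQ : Conn Q) (hx : x ∈ P)
    (hy : y ∈ Q) (hxy : Adj x y) : Conn (P ∪ Q) := by
  have hPm : ∀ a b, Relation.ReflTransGen (fun x y => y ∈ P ∧ Adj x y) a b →
      Relation.ReflTransGen (fun x y => y ∈ P ∪ Q ∧ Adj x y) a b := by
    intro a b h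
    induction h with
    | refl => exact Relation.ReflTransGen.refl
    | tail _ hcd ih => exact ih.tail ⟨Finset.mem_union_left _ hcd.1, hcd.2⟩
  have hQm : ∀ a b, Relation.ReflTransGen (fun x y => y ∈ Q ∧ Adj x y) a b →
      Relation.ReflTransGen (fun x y => y ∈ P ∪ Q ∧ Adj x y) a b := by
    intro a b h
    induction h with
    | refl => exact Relation.ReflTransGen.refl
    | tail _ hcd ih => exact ih.tail ⟨Finset.mem_union_right _ hcd.1, hcd.2⟩
  have hxy' : Relation.ReflTransGen (fun x y => y ∈ P ∪ Q ∧ Adj x y) x y :=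
    Relation.ReflTransGen.single ⟨Finset.mem_union_right _ hy, hxy⟩
  have hyx' : Relation.ReflTransGen (fun x y => y ∈ P ∪ Q ∧ Adj x y) y x :=
    Relation.ReflTransGen.single ⟨Finset.mem_union_left _ hx, adj_comm.1 hxy⟩
  have hto : ∀ a ∈ P ∪ Q, Relation.ReflTransGen (fun x y => y ∈ P ∪ Q ∧ Adj x y) a x := by
    intro a ha
    rcases Finset.mem_union.1 ha with h | h
    · exact hPm _ _ (hP a h x hx)
    · exact (hQm _ _ (hQ a h y hy)).trans hyx'
  have hfrom : ∀ a ∈ P ∪ Q, Relation.ReflTransGen (fun x y => y ∈ P ∪ Q ∧ Adj x y) x a := by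
    intro a ha
    rcases Finset.mem_union.1 ha with h | h
    · exact hPm _ _ (hP x hx a h)
    · exact hxy'.trans (hQm _ _ (hQ y hy a h))
  intro a ha b hb
  exact (hto a ha).trans (hfrom b hb)

theorem exists_split_aux {P : Finset (ℤ × ℤ)} (h2 : 2 ≤ P.card) :
    ∀ m : ℕ, ∀ C ⊆ P, C.card ≤ m → C.Nonempty → Conn C → Conn (P \ C) → (P \ C).Nonempty →
      P.card ≤ 4 * C.card + 1 → (∃ v ∈ P \ C, ∃ w ∈ C, Adj v w) →
      ∃ A ⊆ P, A.Nonempty ∧ (P \ A).Nonempty ∧ Conn A ∧ Conn (P \ A) ∧ P.card ≤ 4 * A.card + 1 ∧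
        P.card ≤ 4 * (P \ A).card + 1 ∧ ∃ x ∈ A, ∃ y ∈ P \ A, Adj x y := by
  intro m
  induction m with
  | zero =>
    intro C _ hCm hCne
    exact absurd (Finset.card_pos.2 hCne) (by omega)
  | succ m ih =>
    intro C hCP hCm hCne hC hPC hPCne hcard hadj
    obtain ⟨v, hv, w, hw, hvw⟩ := hadj
    have hsum : (P \ C).card + C.card = P.card := Finset.card_sdiff_add_card_eq_card hCP
    by_cases hgood : P.card ≤ 4 * (P \ C).card + 1
    · exact ⟨C, hCP, hCne, hPCne, hC, hPC, hcard, hgood, w, hw, v, hv, adj_comm.1 hvw⟩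
    · have hC2 : 2 ≤ C.card := by omega
      have hvC : v ∉ C := (Finset.mem_sdiff.1 hv).2
      have h3 := card_nbrs_le_three (B := C) hvC (adj_comm.1 hvw)
      obtain ⟨D, hDC, hwD, hDne, hD, hCD, hDcard, u, hu, hwu⟩ := exists_branch hC hw hC2 h3
      have hDP : D ⊆ P := hDC.trans hCP
      have hun : P \ D = (P \ C) ∪ (C \ D) := by
        ext z
        simp only [Finset.mem_sdiff, Finset.mem_union]
        constructor
        · rintro ⟨hz, hzD⟩
          by_cases hzC : z ∈ C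
          · exact Or.inr ⟨hzC, hzD⟩
          · exact Or.inl ⟨hz, hzC⟩
        · rintro (⟨hz, hzC⟩ | ⟨hz, hzD⟩)
          · exact ⟨hz, fun h => hzC (hDC h)⟩
          · exact ⟨hCP hz, hzD⟩
      have hwCD : w ∈ C \ D := Finset.mem_sdiff.2 ⟨hw, hwD⟩
      have hPD : Conn (P \ D) := by
        rw [hun]
        exact conn_union hPC hCD hv hwCD hvw
      have hwPD : w ∈ P \ D := Finset.mem_sdiff.2 ⟨hCP hw, hwD⟩
      have hlt : D.card < C.card := by
        apply Finset.card_lt_card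
        refine Finset.ssubset_iff_subset_ne.2 ⟨hDC, ?_⟩
        rintro rfl
        exact hwD hw
      exact ih D hDP (by omega) hDne hD hPD ⟨w, hwPD⟩ (by omega) ⟨w, hwPD, u, hu, hwu⟩

theorem exists_split {P : Finset (ℤ × ℤ)} (hP : Conn P) (h2 : 2 ≤ P.card) :
    ∃ A ⊆ P, A.Nonempty ∧ (P \ A).Nonempty ∧ Conn A ∧ Conn (P \ A) ∧ P.card ≤ 4 * A.card + 1 ∧
      P.card ≤ 4 * (P \ A).card + 1 ∧ ∃ x ∈ A, ∃ y ∈ P \ A, Adj x y := by
  have hne : P.Nonempty := Finset.card_pos.1 (by omega)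
  obtain ⟨v, hv⟩ := hne
  obtain ⟨C, hCP, hvC, hCne, hC, hPC, hcard, u, hu, hvu⟩ := exists_branch hP hv h2 (card_nbrs P v)
  have hvPC : v ∈ P \ C := Finset.mem_sdiff.2 ⟨hv, hvC⟩
  exact exists_split_aux h2 C.card C hCP le_rfl hCne hC hPC ⟨v, hvPC⟩ hcard ⟨v, hvPC, u, hu, hvu⟩

end Pool.Agent.Lib.MP_104326_lc
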