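import Pool.Agent.Lib.MP_104326_lc.KC.A2
import Pool.Agent.Lib.MP_104326_lc.KC.A5

/-! KC, module A6: the recursive upper bound.

PROOF of `c_le_sum` (`n ≥ 2`). Let `I` be the set of the `a ∈ range n` with `1 ≤ a`, `n ≤ 4 * a + 1`,
`n ≤ 4 * (n - a) + 1`. Consider the quadruples `(A, x, e, B)`, where `A` is rooted of size `a ∈ I`,
`x ∈ A`, `e` is one of the four unit vectors `(1,0), (-1,0), (0,1), (0,-1)`, and `B` is rooted of size
`n - a`; their number is `∑ a ∈ I, c a * a * 4 * c (n - a)`. The map `(A, x, e, B) ↦ A ∪ (B + (x + e))`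
hits every rooted `P` of size `n`: take `A ⊆ P` from `exists_split` (`Rooted` gives `Conn P`). If the
origin is in `A`: `A` is rooted of size `a := A.card`, there are `x ∈ A`, `y ∈ P \ A` adjacent, so
`y = x + e` for a unit vector `e` (`adj_iff`), and `B := (P \ A) + (-y)` is rooted of size `n - a`;
`P = A ∪ (B + y)`. If the origin is in `P \ A`, exchange the roles of `A` and `P \ A` (all the
conditions are symmetric). So `c n ≤ ∑ a ∈ I, 4 * a * c a * c (n - a)`. In Lean: e.g. let `T` be the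
sigma type `Σ a : I, ({A // Rooted a A} ...)`, or work with the finset `rootedF a :=
(finite_rooted a).toFinset` of card `c a` and `Finset.card_le_card_of_surjOn`/`card_image_le`,
`Finset.card_biUnion_le`.

PROOF of `t_split`: by `c_eq` (also for `a`, `n - a ≥ 1`) `n * t n ≤ ∑ a ∈ I, 4 * a * (a * t a) *
((n - a) * t (n - a))`, each summand is `≤ 4 * n * n * n * (t a * t (n - a))`, and `I.card ≤ n - 1 < n`.
If all `a ∈ I` had `t n > 4 * n ^ 3 * (t a * t (n - a))` then `n * t n ≤ ∑ a ∈ I, 4 * n^3 * (t a *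
t (n - a)) ≤ (n - 1) * (t n - 1) < n * t n`, a contradiction (for `I` empty the sum is `0`, and
`n * t n > 0`). -/

namespace Pool.Agent.Lib.MP_104326_lc

theorem adj_iff {x y : ℤ × ℤ} :
    Adj x y ↔ y = x + (1, 0) ∨ y = x + (-1, 0) ∨ y = x + (0, 1) ∨ y = x + (0, -1) := by
  obtain ⟨a, b⟩ := x
  obtain ⟨c, d⟩ := y
  simp only [Adj, Prod.mk_add_mk, Prod.mk.injEq, Int.abs_eq_natAbs]
  omega

/-- The rooted sets as a finset. -/
private noncomputable def A6_rf (n : ℕ) : Finset (Finset (ℤ × ℤ)) := (finite_rooted n).toFinset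

private theorem A6_mem {n : ℕ} {P : Finset (ℤ × ℤ)} : P ∈ A6_rf n ↔ Rooted n P := by
  unfold A6_rf
  rw [Set.Finite.mem_toFinset]
  exact Iff.rfl

private theorem A6_card (n : ℕ) : (A6_rf n).card = c n := by
  unfold A6_rf c
  exact (Nat.card_eq_card_finite_toFinset (finite_rooted n)).symm

private def A6_u : Finset (ℤ × ℤ) := {(1, 0), (-1, 0), (0, 1), (0, -1)}

private theorem A6_u_card : A6_u.card ≤ 4 := Finset.card_le_four

private noncomputable def A6_s (n a : ℕ) :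
    Finset ((Σ _ : Finset (ℤ × ℤ), ℤ × ℤ) × (ℤ × ℤ) × Finset (ℤ × ℤ)) :=
  ((A6_rf a).sigma fun A => A) ×ˢ (A6_u ×ˢ A6_rf (n - a))

private noncomputable def A6_f (q : (Σ _ : Finset (ℤ × ℤ), ℤ × ℤ) × (ℤ × ℤ) × Finset (ℤ × ℤ)) :
    Finset (ℤ × ℤ) := q.1.1 ∪ q.2.2.image (· + (q.1.2 + q.2.1))

private theorem A6_s_card (n a : ℕ) : (A6_s n a).card ≤ 4 * a * c a * c (n - a) := by
  unfold A6_s
  rw [Finset.card_product, Finset.card_product, Finset.card_sigma, A6_card]
  have h1 : ∑ A ∈ A6_rf a, A.card = c a * a := by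
    rw [Finset.sum_const_nat (m := a) (fun A hA => (A6_mem.1 hA).1), A6_card]
  rw [h1]
  calc c a * a * (A6_u.card * c (n - a)) ≤ c a * a * (4 * c (n - a)) :=
        Nat.mul_le_mul_left _ (Nat.mul_le_mul_right _ A6_u_card)
    _ = 4 * a * c a * c (n - a) := by ring

private theorem A6_key {n : ℕ} {P A : Finset (ℤ × ℤ)} (hP : P.card = n) (hA : A ⊆ P)
    (h0 : (0, 0) ∈ A) (h1 : Conn A) (h2 : Conn (P \ A)) {x y : ℤ × ℤ} (hx : x ∈ A)
    (hy : y ∈ P \ A) (hxy : Adj x y) : P ∈ (A6_s n A.card).image A6_f := by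
  obtain ⟨e, he, rfl⟩ : ∃ e ∈ A6_u, y = x + e := by
    rcases adj_iff.1 hxy with h | h | h | h
    · exact ⟨_, by simp [A6_u], h⟩
    · exact ⟨_, by simp [A6_u], h⟩
    · exact ⟨_, by simp [A6_u], h⟩
    · exact ⟨_, by simp [A6_u], h⟩
  have hc : (P \ A).card = n - A.card := by
    rw [Finset.card_sdiff_of_subset hA, hP]
  refine Finset.mem_image.2 ⟨(⟨A, x⟩, e, (P \ A).image (· + -(x + e))), ?_, ?_⟩
  · unfold A6_s
    refine Finset.mem_product.2 ⟨Finset.mem_sigma.2 ⟨A6_mem.2 ⟨rfl, h1, h0⟩, hx⟩,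
      Finset.mem_product.2 ⟨he, A6_mem.2 ⟨?_, ?_, ?_⟩⟩⟩
    · rw [card_shift, hc]
    · exact conn_shift _ h2
    · exact Finset.mem_image.2 ⟨x + e, hy, add_neg_cancel (x + e)⟩
  · unfold A6_f
    rw [shift_shift, neg_add_cancel, shift_zero]
    exact Finset.union_sdiff_of_subset hA

theorem c_le_sum {n : ℕ} (hn : 2 ≤ n) :
    c n ≤ ∑ a ∈ (Finset.range n).filter (fun a => 1 ≤ a ∧ n ≤ 4 * a + 1 ∧ n ≤ 4 * (n - a) + 1),
      4 * a * c a * c (n - a) := by
  have hsub : A6_rf n ⊆ ((Finset.range n).filter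
      (fun a => 1 ≤ a ∧ n ≤ 4 * a + 1 ∧ n ≤ 4 * (n - a) + 1)).biUnion
        fun a => (A6_s n a).image A6_f := by
    intro P hP
    obtain ⟨hcard, hconn, h0⟩ := A6_mem.1 hP
    obtain ⟨A, hA, hne, hne', h1, h2, h3, h4, x, hx, y, hy, hxy⟩ :=
      exists_split hconn (by omega : 2 ≤ P.card)
    have hc : (P \ A).card = P.card - A.card := Finset.card_sdiff_of_subset hA
    have hp1 := Finset.card_pos.2 hne
    have hp2 := Finset.card_pos.2 hne'
    have hle := Finset.card_le_card hA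
    by_cases h : (0, 0) ∈ A
    · refine Finset.mem_biUnion.2 ⟨A.card, Finset.mem_filter.2 ⟨Finset.mem_range.2 (by omega),
        by omega, by omega, by omega⟩, A6_key hcard hA h h1 h2 hx hy hxy⟩
    · have hss : P \ (P \ A) = A := Finset.sdiff_sdiff_eq_self hA
      refine Finset.mem_biUnion.2 ⟨(P \ A).card, Finset.mem_filter.2
        ⟨Finset.mem_range.2 (by omega), by omega, by omega, by omega⟩,
        A6_key hcard Finset.sdiff_subset (Finset.mem_sdiff.2 ⟨h0, h⟩) h2 ?_ hy ?_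
          (adj_comm.1 hxy)⟩
      · rw [hss]; exact h1
      · rw [hss]; exact hx
  rw [← A6_card n]
  refine (Finset.card_le_card hsub).trans (Finset.card_biUnion_le.trans ?_)
  exact Finset.sum_le_sum fun a _ => Finset.card_image_le.trans (A6_s_card n a)

theorem t_split {n : ℕ} (hn : 2 ≤ n) : ∃ a b, 1 ≤ a ∧ 1 ≤ b ∧ a + b = n ∧ n ≤ 4 * a + 1 ∧
    n ≤ 4 * b + 1 ∧ t n ≤ 4 * n ^ 3 * (t a * t b) := by
  by_contra hcon
  have h1 := c_le_sum hn
  rw [c_eq (by omega : 1 ≤ n)] at h1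
  have hterm : ∀ a ∈ (Finset.range n).filter
      (fun a => 1 ≤ a ∧ n ≤ 4 * a + 1 ∧ n ≤ 4 * (n - a) + 1),
      4 * a * c a * c (n - a) ≤ t n - 1 := by
    intro a ha
    obtain ⟨har, ha1, ha2, ha3⟩ := Finset.mem_filter.1 ha
    have har' := Finset.mem_range.1 har
    have hlt : 4 * n ^ 3 * (t a * t (n - a)) < t n := by
      by_contra hle
      exact hcon ⟨a, n - a, ha1, by omega, by omega, ha2, ha3, not_lt.1 hle⟩
    have h2 : 4 * a * c a * c (n - a) ≤ 4 * n ^ 3 * (t a * t (n - a)) := by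
      rw [c_eq ha1, c_eq (by omega : 1 ≤ n - a)]
      have h3 : 4 * a * (a * t a) * ((n - a) * t (n - a)) =
          4 * (a * a * (n - a)) * (t a * t (n - a)) := by ring
      have h4 : a * a * (n - a) ≤ n ^ 3 := by
        calc a * a * (n - a) ≤ n * n * n :=
              Nat.mul_le_mul (Nat.mul_le_mul har'.le har'.le) (Nat.sub_le n a)
          _ = n ^ 3 := by ring
      rw [h3]
      exact Nat.mul_le_mul_right _ (Nat.mul_le_mul_left _ h4)
    omega
  have h5 := Finset.sum_le_card_nsmul _ _ _ hterm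
  have h6 : ((Finset.range n).filter
      (fun a => 1 ≤ a ∧ n ≤ 4 * a + 1 ∧ n ≤ 4 * (n - a) + 1)).card ≤ n := by
    simpa using Finset.card_filter_le (Finset.range n)
      (fun a => 1 ≤ a ∧ n ≤ 4 * a + 1 ∧ n ≤ 4 * (n - a) + 1)
  rw [smul_eq_mul] at h5
  have h7 := h1.trans (h5.trans (Nat.mul_le_mul_right (t n - 1) h6))
  have h8 : t n - 1 < t n := by have := t_pos n; omega
  have h9 : n * (t n - 1) < n * t n := Nat.mul_lt_mul_of_pos_left h8 (by omega)
  omega

end Pool.Agent.Lib.MP_104326_lc
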