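import Mathlib

/-! KC, module A7: growth constants with an error term (pure analysis).

PROOF. Let `g n := Real.log (f n)` (`≥ 0`), and `u n := if n = 0 then 0 else - g n`. `h1` gives
`g a + g b ≤ g (a + b)` for `a, b ≥ 1`, so `u` is `Subadditive`.

(E) For every `k ≥ 1` there is `p` with `k ≤ p ≤ 4 * k` such that for all `n ≥ k`
`g n / n ≤ g p / p + (3 * log (4 * k) + log 1372) / k`. Proof: let
`A := max over p ∈ Icc k (4 * k) of (g p + 3 * log p + log 1372) / p` (`Finset.exists_max_image`), reached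
at `p`. Then `g n ≤ A * n - 3 * log n - log 1372` for all `n ≥ k`, by strong induction: for `n ≤ 4 * k`
by the definition of `A`. For `n > 4 * k` (so `n ≥ 5`) `h2` gives `a + b = n` with `4 * a ≥ n - 1 ≥
4 * k`, `4 * b ≥ n - 1 ≥ 4 * k`, so `k ≤ a, b < n`, and `g n ≤ log 4 + 3 * log n + g a + g b ≤ log 4 +
3 * log n + A * n - 3 * log (a * b) - 2 * log 1372`. Now `7 * a * b ≥ n ^ 2`: with `4 a ≥ n - 1`,
`4 b ≥ n - 1`, `a + b = n` one has `(4 a - (n - 1)) * (4 b - (n - 1)) ≥ 0`, so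
`16 a b ≥ 4 n (n - 1) - (n - 1) ^ 2 = (n - 1) * (3 n + 1)` and `7 (n - 1) (3 n + 1) ≥ 16 n ^ 2` for
`n ≥ 5`. So `3 * log (a * b) ≥ 6 * log n - 3 * log 7`, and `log 1372 = log 4 + 3 * log 7`; together
`g n ≤ A * n - 3 * log n + log 4 + 3 * log 7 - 2 * log 1372 = A * n - 3 * log n - log 1372`. Hence
`g n / n ≤ A = g p / p + (3 * log p + log 1372) / p ≤ g p / p + (3 * log (4 * k) + log 1372) / k`
(`k ≤ p ≤ 4 * k`).

With `k = 1` in (E) the sequence `g n / n` is bounded above, so `u n / n` is bounded below and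
`Subadditive.tendsto_lim` gives the limit `u n / n → L`. Let `lam := exp (-L)`. Then
`(f n) ^ (1 / n) = exp (g n / n) → lam` (eventually `n ≥ 1`; `Real.rpow_def_of_pos`).
`Subadditive.lim_le_div`: `L ≤ u p / p` for `p ≥ 1`, that is `g p ≤ p * (-L)`, so `f p ≤ lam ^ p`.
`1 ≤ f 1 ≤ lam`. Finally let `n → ∞` in (E): `log lam = -L ≤ g p / p + …`
(`le_of_tendsto` / `ge_of_tendsto`). -/

namespace Pool.Agent.Lib.MP_104326_lc

open Filter Topology

private theorem growth_key {n a b : ℕ} (hn : 5 ≤ n) (hab : a + b = n) (ha : n ≤ 4 * a + 1)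
    (hb : n ≤ 4 * b + 1) : (n : ℝ) ^ 2 ≤ 7 * ((a : ℝ) * b) := by
  have h1 : (n : ℝ) ≤ 4 * a + 1 := by exact_mod_cast ha
  have h2 : (n : ℝ) ≤ 4 * b + 1 := by exact_mod_cast hb
  have h3 : (a : ℝ) + b = n := by exact_mod_cast hab
  have h4 : (5 : ℝ) ≤ n := by exact_mod_cast hn
  have h5 : 0 ≤ (4 * (a : ℝ) - (n - 1)) * (4 * b - (n - 1)) :=
    mul_nonneg (by linarith) (by linarith)
  have h6 : 16 * ((a : ℝ) * b) - (n - 1) * (3 * n + 1) =
      (4 * (a : ℝ) - (n - 1)) * (4 * b - (n - 1)) + 4 * (n - 1) * ((a + b) - n) := by ring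
  rw [h3, sub_self, mul_zero, add_zero] at h6
  nlinarith

private theorem growth_level {f : ℕ → ℕ} (h0 : ∀ n, 1 ≤ f n)
    (h2 : ∀ n, 2 ≤ n → ∃ a b, 1 ≤ a ∧ 1 ≤ b ∧ a + b = n ∧ n ≤ 4 * a + 1 ∧ n ≤ 4 * b + 1 ∧
      f n ≤ 4 * n ^ 3 * (f a * f b)) (k : ℕ) (hk : 1 ≤ k) :
    ∃ p, k ≤ p ∧ p ≤ 4 * k ∧ ∀ n, k ≤ n → Real.log (f n) / n ≤
      Real.log (f p) / p + (3 * Real.log (4 * k) + Real.log 1372) / k := by
  obtain ⟨p, hp, hmax⟩ := Finset.exists_max_image (Finset.Icc k (4 * k))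
    (fun p : ℕ => (Real.log (f p) + 3 * Real.log p + Real.log 1372) / p)
    ⟨k, Finset.mem_Icc.2 ⟨le_rfl, by omega⟩⟩
  rw [Finset.mem_Icc] at hp
  obtain ⟨hp1, hp2⟩ := hp
  obtain ⟨A, hA⟩ : ∃ A : ℝ, A = (Real.log (f p) + 3 * Real.log p + Real.log 1372) / p := ⟨_, rfl⟩
  have hmain : ∀ n, k ≤ n → Real.log (f n) ≤ A * n - 3 * Real.log n - Real.log 1372 := by
    intro n
    induction n using Nat.strong_induction_on with
    | _ n ih =>
      intro hn
      have hn0 : (0 : ℝ) < n := by exact_mod_cast (lt_of_lt_of_le hk hn)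
      by_cases h4 : n ≤ 4 * k
      · have h5 := hmax n (Finset.mem_Icc.2 ⟨hn, h4⟩)
        rw [← hA, div_le_iff₀ hn0] at h5
        linarith
      · obtain ⟨a, b, ha, hb, hab, hna, hnb, hf⟩ := h2 n (by omega)
        have iha := ih a (by omega) (by omega)
        have ihb := ih b (by omega) (by omega)
        have hkey := growth_key (by omega : 5 ≤ n) hab hna hnb
        have ha0 : (0 : ℝ) < a := by exact_mod_cast ha
        have hb0 : (0 : ℝ) < b := by exact_mod_cast hb
        have hfa : (0 : ℝ) < f a := by exact_mod_cast h0 a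
        have hfb : (0 : ℝ) < f b := by exact_mod_cast h0 b
        have hfn0 : (0 : ℝ) < f n := by exact_mod_cast h0 n
        have hfn : (f n : ℝ) ≤ 4 * (n : ℝ) ^ 3 * (f a * f b) := by exact_mod_cast hf
        have hl1 : Real.log (f n) ≤
            Real.log 4 + 3 * Real.log n + (Real.log (f a) + Real.log (f b)) := by
          have h := Real.log_le_log hfn0 hfn
          rw [Real.log_mul (by positivity) (by positivity),
            Real.log_mul (by norm_num) (by positivity), Real.log_pow,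
            Real.log_mul hfa.ne' hfb.ne'] at h
          push_cast at h
          exact h
        have hl2 : 2 * Real.log n ≤ Real.log 7 + (Real.log a + Real.log b) := by
          have h := Real.log_le_log (by positivity) hkey
          rw [Real.log_mul (by norm_num) (by positivity), Real.log_pow,
            Real.log_mul ha0.ne' hb0.ne'] at h
          push_cast at h
          exact h
        have hl3 : Real.log 1372 = Real.log 4 + 3 * Real.log 7 := by
          rw [show (1372 : ℝ) = 4 * 7 ^ 3 by norm_num, Real.log_mul (by norm_num) (by norm_num),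
            Real.log_pow]
          push_cast
          ring
        have hcast : (n : ℝ) = a + b := by exact_mod_cast hab.symm
        have h6 : A * n = A * a + A * b := by rw [hcast]; ring
        linarith
  refine ⟨p, hp1, hp2, fun n hn => ?_⟩
  have hn0 : (0 : ℝ) < n := by exact_mod_cast (lt_of_lt_of_le hk hn)
  have hn1 : (1 : ℝ) ≤ n := by exact_mod_cast (le_trans hk hn)
  have hk0 : (0 : ℝ) < k := by exact_mod_cast hk
  have hp0 : (0 : ℝ) < p := by exact_mod_cast (lt_of_lt_of_le hk hp1)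
  have hpk : (k : ℝ) ≤ p := by exact_mod_cast hp1
  have hp4 : (p : ℝ) ≤ 4 * k := by exact_mod_cast hp2
  have hp1' : (1 : ℝ) ≤ p := by exact_mod_cast (le_trans hk hp1)
  have hlog : 0 ≤ Real.log 1372 := Real.log_nonneg (by norm_num)
  have h7 : Real.log (f n) / n ≤ A := by
    rw [div_le_iff₀ hn0]
    have h8 := hmain n hn
    have h9 := Real.log_nonneg hn1
    linarith
  have h8 : A = Real.log (f p) / p + (3 * Real.log p + Real.log 1372) / p := by
    rw [hA]
    ring
  have h9 : (3 * Real.log p + Real.log 1372) / p ≤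
      (3 * Real.log (4 * k) + Real.log 1372) / k := by
    have h10 : Real.log p ≤ Real.log (4 * k) := Real.log_le_log hp0 hp4
    have h11 : 0 ≤ Real.log p := Real.log_nonneg hp1'
    apply div_le_div₀ (by linarith) (by linarith) hk0 hpk
  linarith

theorem growth {f : ℕ → ℕ} (h0 : ∀ n, 1 ≤ f n)
    (h1 : ∀ a b, 1 ≤ a → 1 ≤ b → f a * f b ≤ f (a + b))
    (h2 : ∀ n, 2 ≤ n → ∃ a b, 1 ≤ a ∧ 1 ≤ b ∧ a + b = n ∧ n ≤ 4 * a + 1 ∧ n ≤ 4 * b + 1 ∧
      f n ≤ 4 * n ^ 3 * (f a * f b)) :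
    ∃ lam : ℝ, 1 ≤ lam ∧ Tendsto (fun n : ℕ => (f n : ℝ) ^ ((1 : ℝ) / n)) atTop (𝓝 lam) ∧
      (∀ p, 1 ≤ p → (f p : ℝ) ≤ lam ^ p) ∧
      ∀ k : ℕ, 1 ≤ k → ∃ p, k ≤ p ∧ p ≤ 4 * k ∧
        Real.log lam ≤ Real.log (f p) / p + (3 * Real.log (4 * k) + Real.log 1372) / k := by
  have hpos : ∀ n, (0 : ℝ) < f n := fun n => by exact_mod_cast h0 n
  let u : ℕ → ℝ := fun n => if n = 0 then 0 else -Real.log (f n)
  have hu0 : u 0 = 0 := if_pos rfl
  have hu : ∀ n, 1 ≤ n → u n = -Real.log (f n) := fun n hn => if_neg (by omega)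
  have hsub : Subadditive u := by
    intro m n
    rcases Nat.eq_zero_or_pos m with rfl | hm
    · rw [hu0, zero_add, zero_add]
    rcases Nat.eq_zero_or_pos n with rfl | hn
    · rw [hu0, add_zero, add_zero]
    rw [hu m hm, hu n hn, hu (m + n) (by omega)]
    have h3 : (f m : ℝ) * f n ≤ f (m + n) := by exact_mod_cast h1 m n hm hn
    have h4 := Real.log_le_log (mul_pos (hpos m) (hpos n)) h3
    rw [Real.log_mul (hpos m).ne' (hpos n).ne'] at h4
    linarith
  obtain ⟨p₁, -, -, hB⟩ := growth_level h0 h2 1 le_rfl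
  have hbdd : BddBelow (Set.range fun n => u n / n) := by
    refine ⟨-|Real.log (f p₁) / p₁ + (3 * Real.log (4 * (1 : ℕ)) + Real.log 1372) / (1 : ℕ)|, ?_⟩
    rintro _ ⟨n, rfl⟩
    rcases Nat.eq_zero_or_pos n with rfl | hn
    · simp only [hu0, zero_div]
      exact neg_nonpos.2 (abs_nonneg _)
    · simp only [hu n hn, neg_div]
      exact neg_le_neg ((hB n hn).trans (le_abs_self _))
  have hlim := hsub.tendsto_lim hbdd
  have hdiv : ∀ p, 1 ≤ p → (f p : ℝ) ≤ Real.exp (-hsub.lim) ^ p := by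
    intro p hp
    have h3 := hsub.lim_le_div hbdd (n := p) (by omega)
    have hp0 : (0 : ℝ) < p := by exact_mod_cast hp
    rw [hu p hp, le_div_iff₀ hp0] at h3
    rw [← Real.exp_nat_mul, ← Real.log_le_iff_le_exp (hpos p)]
    linarith
  refine ⟨Real.exp (-hsub.lim), ?_, ?_, hdiv, ?_⟩
  · have h3 := hdiv 1 le_rfl
    rw [pow_one] at h3
    have h4 : (1 : ℝ) ≤ f 1 := by exact_mod_cast h0 1
    exact h4.trans h3
  · have h3 : Tendsto (fun n : ℕ => Real.exp (-(u n / n))) atTop (𝓝 (Real.exp (-hsub.lim))) :=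
      (Real.continuous_exp.tendsto _).comp hlim.neg
    refine h3.congr' ?_
    filter_upwards [eventually_ge_atTop 1] with n hn
    rw [hu n hn, Real.rpow_def_of_pos (hpos n)]
    congr 1
    ring
  · intro k hk
    obtain ⟨p, hp1, hp2, hp3⟩ := growth_level h0 h2 k hk
    refine ⟨p, hp1, hp2, ?_⟩
    rw [Real.log_exp]
    refine le_of_tendsto hlim.neg ?_
    filter_upwards [eventually_ge_atTop k] with n hn
    rw [hu n (hk.trans hn), neg_div, neg_neg]
    exact hp3 n hn

end Pool.Agent.Lib.MP_104326_lc
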