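import Pool.Agent.Lib.MP_104326_lc.KC.A1

/-! KC, module B4: the rooted polyominoes are split according to the first sparse class of rows.

PROOF. Let `N < (h + 1) ^ 2` and let `P` be rooted of size `N`. The numbers `inCls h P q`,
`q = 0, …, h`, have the sum `N` (each cell is in exactly one class: `x.2 % (h + 1)` is in `[0, h]`;
`Finset.card_eq_sum_card_fiberwise`), so some `q ≤ h` has `inCls h P q ≤ h`
(else the sum would be at least `(h + 1) * (h + 1) > N`). Let `r` be the first one (`Nat.find`). By
`rooted_box` every cell has `|x.1| < N`, `|x.2| < N`, so `P ⊆ reg N h r`: for the second coordinate,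
`r ≤ h` gives `r - (h + 1) * (N + 1) ≤ h - (h + 1) * (N + 1) ≤ -N` and
`r + (h + 1) * (N + 1) ≥ N + 1`. So `P ∈ fam N h r` and `P` is connected. Conversely the elements of
`(fam N h r).filter Conn` are rooted of size `N`, and the families are disjoint for different `r ≤ h`
(for `r < r'` a set in the family of `r'` has `h < inCls h S r`). So the finset of the rooted sets of size
`N` is the disjoint union over `r ∈ range (h + 1)` of `(fam N h r).filter Conn`
(`Finset.card_biUnion`; `c N = Nat.card {P // Rooted N P}`, see `Nat.card_eq_card_toFinset` or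
`Nat.subtype_card`). -/

namespace Pool.Agent.Lib.MP_104326_lc

theorem inCls_sum (h : ℕ) (S : Finset (ℤ × ℤ)) :
    S.card = ∑ q ∈ Finset.range (h + 1), inCls h S q := by
  classical
  have hh : (0 : ℤ) < (h : ℤ) + 1 := by positivity
  rw [Finset.card_eq_sum_card_fiberwise (f := fun x : ℤ × ℤ => (x.2 % ((h : ℤ) + 1)).toNat)
    (t := Finset.range (h + 1))]
  · apply Finset.sum_congr rfl
    intro q hq
    unfold inCls
    congr 1
    apply Finset.filter_congr
    intro x hx
    have h1 := Int.emod_nonneg x.2 hh.ne'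
    omega
  · intro x hx
    have h1 := Int.emod_nonneg x.2 hh.ne'
    have h2 := Int.emod_lt_of_pos x.2 hh
    simp only [Finset.coe_range, Set.mem_Iio]
    omega

theorem exists_first {N h : ℕ} (hN : N < (h + 1) ^ 2) {S : Finset (ℤ × ℤ)} (hS : S.card = N) :
    ∃ r, r ≤ h ∧ inCls h S r ≤ h ∧ ∀ q ∈ Finset.range r, h < inCls h S q := by
  classical
  have hex : ∃ q, q ≤ h ∧ inCls h S q ≤ h := by
    by_contra hc
    push Not at hc
    have h1 : ∑ q ∈ Finset.range (h + 1), (h + 1) ≤ ∑ q ∈ Finset.range (h + 1), inCls h S q :=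
      Finset.sum_le_sum fun q hq => hc q (by rw [Finset.mem_range] at hq; omega)
    rw [← inCls_sum, hS, Finset.sum_const, Finset.card_range, smul_eq_mul] at h1
    nlinarith
  refine ⟨Nat.find hex, (Nat.find_spec hex).1, (Nat.find_spec hex).2, ?_⟩
  intro q hq
  rw [Finset.mem_range] at hq
  have h1 := Nat.find_min hex hq
  have h2 := (Nat.find_spec hex).1
  by_contra hc
  exact h1 ⟨by omega, by omega⟩

open Classical in
theorem c_eq_fam {N h : ℕ} (hN : N < (h + 1) ^ 2) :
    c N = ∑ r ∈ Finset.range (h + 1), ((fam N h r).filter fun S => Conn S).card := by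
  have h1 : c N = (finite_rooted N).toFinset.card := by
    unfold c
    exact Nat.card_eq_card_finite_toFinset (finite_rooted N)
  rw [h1, ← Finset.card_biUnion]
  · congr 1
    ext P
    simp only [Set.Finite.mem_toFinset, Set.mem_setOf_eq, Finset.mem_biUnion, Finset.mem_filter]
    constructor
    · intro hP
      obtain ⟨r, hr, hr1, hr2⟩ := exists_first hN hP.1
      refine ⟨r, by rw [Finset.mem_range]; omega, ?_, hP.2.1⟩
      unfold fam
      rw [Finset.mem_filter, Finset.mem_powerset]
      refine ⟨?_, hP.2.2, hP.1, hr1, hr2⟩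
      intro x hx
      obtain ⟨hx1, hx2⟩ := rooted_box hP x hx
      rw [abs_lt] at hx1 hx2
      unfold reg
      rw [Finset.mem_product, Finset.mem_Icc, Finset.mem_Ico]
      have hrh : (r : ℤ) ≤ h := by exact_mod_cast hr
      have hh0 : (0 : ℤ) ≤ h := by positivity
      have hN0 : (0 : ℤ) ≤ N := by positivity
      have hr0 : (0 : ℤ) ≤ r := by positivity
      have hm : (0 : ℤ) ≤ h * N := by positivity
      refine ⟨⟨by linarith, by linarith⟩, by nlinarith, by nlinarith⟩
    · rintro ⟨r, hr, hP, hc⟩
      unfold fam at hP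
      rw [Finset.mem_filter] at hP
      exact ⟨hP.2.2.1, hc, hP.2.1⟩
  · intro r hr r' hr' hne
    simp only [Function.onFun]
    rw [Finset.disjoint_left]
    intro P hP hP'
    rw [Finset.mem_filter] at hP hP'
    unfold fam at hP hP'
    rw [Finset.mem_filter] at hP hP'
    rcases Nat.lt_or_gt_of_ne hne with hlt | hlt
    · have := hP'.1.2.2.2.2 r (Finset.mem_range.2 hlt)
      have := hP.1.2.2.2.1
      omega
    · have := hP.1.2.2.2.2 r' (Finset.mem_range.2 hlt)
      have := hP'.1.2.2.2.1
      omega

end Pool.Agent.Lib.MP_104326_lc
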