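import Pool.Agent.Lib.MP_104326_lc.KC.C3a

/-! KC, module C3b: adjacent cells in terms of positions.

PROOF. Write `W = wd N`, `K = cutN N`, `(X, Y)`, `(X', Y')` for the coordinates `xc, yc` of `p`, `p'`.
`Adj (cellOf p) (cellOf p')` iff `X = X'` and `Y' = Y + 1` or `Y = Y' + 1`, or `Y = Y'` and `X' = X + 1` or
`X = X' + 1` (unfold, the shifts cancel; integers, absolute values: `omega` after case distinction on the
signs).
(←) Compute the coordinates of `p'` in each of the five cases of `Nb`: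
 `p < K`, `p % W ≠ 0`, `p' = p - 1`: `(p - 1) / W = p / W`, `(p - 1) % W = p % W - 1`: `X = X' + 1`, `Y = Y'`.
 `m % h ≠ 0`, `p' = K + (m - 1)`: `(m - 1) / h = m / h`, `(m - 1) % h = m % h - 1`: `X = X'`, `Y = Y' + 1`.
 `(m / h) % W ≠ 0`, `p' = K + (m - h)`: `(m - h) / h = m / h - 1`, `(m - h) % h = m % h`, and
   `(m / h - 1) / W = m / h / W`: `X = X' + 1`, `Y = Y'`.
 `m % h = 0`, `p' = m / h < K`: `X = X'`, `Y = Y' + 1`.
 `m % h + 1 = h`, `p' = m / h + W < K`: `X' = X` and `Y' = (h + 1) * (m / h / W + 1) = Y + 1`.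
(→) By `coord_lt` `p = pc X Y`, `p' = pc X' Y'`. By symmetry (`adj_comm`, the right side is symmetric) it
is enough to treat `X' = X + 1, Y' = Y` and `X' = X, Y' = Y + 1`, and there to show `Nb p' p` or `Nb p p'`.
 `X' = X + 1`, `Y' = Y`: if `Y % (h + 1) = 0` then `p' = p + 1 < K`, and `p' % W = X + 1 ≠ 0` (`X + 1 < W`):
   `Nb p' p` by the first case. Otherwise `p' = K + m'` with `m' = (X + 1 + W * u) * h + i`,
   `(m' / h) % W = X + 1 ≠ 0`, `p = p' - h`: third case.
 `X' = X`, `Y' = Y + 1`: if `Y % (h + 1) = 0`: `Y' % (h + 1) = 1`, `p' = K + (X + W * u) * h`, `m' % h = 0`,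
   `m' / h = X + W * u = p`: `Nb p' p`, fourth case (`h ≥ 1`). If `0 < Y % (h + 1) < h`: `p' = p + 1`,
   `m' % h = Y % (h + 1) ≠ 0`: second case. If `Y % (h + 1) = h`: `Y' = (h + 1) * (u + 1)`,
   `p' = X + W * (u + 1)`, `p = K + m` with `m = (X + W * u) * h + (h - 1)`: `m % h + 1 = h`,
   `m / h + W = p' < K`: `Nb p p'`, fifth case. -/

namespace Pool.Agent.Lib.MP_104326_lc

/-- The position `p'` is one of the earlier neighbours of the position `p`. -/
def Nb (N h p p' : ℕ) : Prop :=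
  (p < cutN N ∧ p % wd N ≠ 0 ∧ p' = p - 1) ∨
    ∃ m < cutN N * h, p = cutN N + m ∧
      ((m % h ≠ 0 ∧ p' = cutN N + m - 1) ∨ ((m / h) % wd N ≠ 0 ∧ p' = cutN N + m - h) ∨
        (m % h = 0 ∧ p' = m / h) ∨
          (m % h + 1 = h ∧ m / h + wd N < cutN N ∧ p' = m / h + wd N))

theorem C3b_inj {n u v a b : ℕ} (ha : a < n) (hb : b < n) (h : n * u + a = n * v + b) :
    u = v ∧ a = b := by
  have hn : 0 < n := by omega
  have h1 : (n * u + a) / n = u := by
    rw [Nat.mul_add_div hn, Nat.div_eq_of_lt ha, Nat.add_zero]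
  have h2 : (n * v + b) / n = v := by
    rw [Nat.mul_add_div hn, Nat.div_eq_of_lt hb, Nat.add_zero]
  have h3 : u = v := by rw [← h1, ← h2, h]
  subst h3
  exact ⟨rfl, by omega⟩

theorem C3b_wd_pos (N : ℕ) : 0 < wd N := by unfold wd; omega

theorem C3b_cutN (N : ℕ) : cutN N = wd N * (2 * N + 2) := rfl

theorem C3b_lt {N X u : ℕ} (hX : X < wd N) (hu : u < 2 * N + 2) : X + wd N * u < cutN N := by
  rw [C3b_cutN]
  calc X + wd N * u < wd N + wd N * u := by omega
    _ = wd N * (u + 1) := by ring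
    _ ≤ wd N * (2 * N + 2) := Nat.mul_le_mul_left _ (by omega)

theorem C3b_cut {N h X u : ℕ} (hX : X < wd N) (hu : u < 2 * N + 2) :
    xc N h (X + wd N * u) = X ∧ yc N h (X + wd N * u) = (h + 1) * u := by
  have hl := C3b_lt hX hu
  unfold xc yc
  rw [if_pos hl, if_pos hl, Nat.add_mul_mod_self_left, Nat.mod_eq_of_lt hX,
    Nat.add_mul_div_left _ _ (C3b_wd_pos N), Nat.div_eq_of_lt hX, Nat.zero_add]
  exact ⟨rfl, rfl⟩

theorem C3b_md {b h i : ℕ} (hi : i < h) : (b * h + i) / h = b ∧ (b * h + i) % h = i := by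
  have hh : 0 < h := by omega
  constructor
  · rw [Nat.add_comm, Nat.add_mul_div_right _ _ hh, Nat.div_eq_of_lt hi, Nat.zero_add]
  · rw [Nat.add_comm, Nat.add_mul_mod_self_right, Nat.mod_eq_of_lt hi]

theorem C3b_wmd {N X u : ℕ} (hX : X < wd N) :
    (X + wd N * u) % wd N = X ∧ (X + wd N * u) / wd N = u := by
  constructor
  · rw [Nat.add_mul_mod_self_left, Nat.mod_eq_of_lt hX]
  · rw [Nat.add_mul_div_left _ _ (C3b_wd_pos N), Nat.div_eq_of_lt hX, Nat.zero_add]

theorem C3b_strip {N h X u i : ℕ} (hX : X < wd N) (hi : i < h) :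
    xc N h (cutN N + ((X + wd N * u) * h + i)) = X ∧
      yc N h (cutN N + ((X + wd N * u) * h + i)) = (h + 1) * u + i + 1 := by
  have hn : ¬ (cutN N + ((X + wd N * u) * h + i)) < cutN N := by omega
  have hs : cutN N + ((X + wd N * u) * h + i) - cutN N = (X + wd N * u) * h + i := by omega
  unfold xc yc
  rw [if_neg hn, if_neg hn, hs, (C3b_md hi).1, (C3b_md hi).2, (C3b_wmd hX).1, (C3b_wmd hX).2]
  exact ⟨rfl, rfl⟩

/-- Coordinates of a cut position. -/
theorem C3b_exc {N p : ℕ} (hp : p < cutN N) :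
    ∃ X u, X < wd N ∧ u < 2 * N + 2 ∧ p = X + wd N * u := by
  refine ⟨p % wd N, p / wd N, Nat.mod_lt _ (C3b_wd_pos N), ?_, (Nat.mod_add_div p (wd N)).symm⟩
  rw [Nat.div_lt_iff_lt_mul (C3b_wd_pos N), Nat.mul_comm]
  exact hp

theorem C3b_exs {N h m : ℕ} (hm : m < cutN N * h) :
    ∃ X u i, X < wd N ∧ u < 2 * N + 2 ∧ i < h ∧ m = (X + wd N * u) * h + i := by
  have hh : 0 < h := by
    rcases Nat.eq_zero_or_pos h with h0 | h0
    · subst h0; simp at hm
    · exact h0
  have hb : m / h < cutN N := (Nat.div_lt_iff_lt_mul hh).mpr hm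
  obtain ⟨X, u, hX, hu, he⟩ := C3b_exc hb
  refine ⟨X, u, m % h, hX, hu, Nat.mod_lt _ hh, ?_⟩
  rw [← he]
  exact (Nat.div_add_mod' m h).symm

theorem C3b_slt {N h X u i : ℕ} (hX : X < wd N) (hu : u < 2 * N + 2) (hi : i < h) :
    (X + wd N * u) * h + i < cutN N * h := by
  have hl := C3b_lt hX hu
  calc (X + wd N * u) * h + i < (X + wd N * u) * h + h := by omega
    _ = (X + wd N * u + 1) * h := by ring
    _ ≤ cutN N * h := Nat.mul_le_mul_right _ (by omega)

theorem adj_coord {N h r p p' : ℕ} : Adj (cellOf N h r p) (cellOf N h r p') ↔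
    (xc N h p = xc N h p' ∧ (yc N h p' = yc N h p + 1 ∨ yc N h p = yc N h p' + 1)) ∨
      (yc N h p = yc N h p' ∧ (xc N h p' = xc N h p + 1 ∨ xc N h p = xc N h p' + 1)) := by
  unfold Adj cellOf
  simp only
  generalize xc N h p = a
  generalize xc N h p' = b
  generalize yc N h p = c
  generalize yc N h p' = d
  generalize ((h : ℤ) + 1) * (N + 1) = e
  have h1 : (a : ℤ) - N - (b - N) = (a : ℤ) - b := by ring
  have h2 : (c : ℤ) - e + r - (d - e + r) = (c : ℤ) - d := by ring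
  rw [h1, h2]
  rcases abs_cases ((a : ℤ) - b) with ⟨e1, g1⟩ | ⟨e1, g1⟩ <;>
    rcases abs_cases ((c : ℤ) - d) with ⟨e2, g2⟩ | ⟨e2, g2⟩ <;>
      rw [e1, e2] <;> omega

theorem adj_of_nb {N h r p p' : ℕ} (hh : 1 ≤ h) (hp : p < len N h) (hp' : p' < len N h)
    (hn : Nb N h p p') : Adj (cellOf N h r p) (cellOf N h r p') := by
  rw [adj_coord]
  rcases hn with ⟨h1, h2, h3⟩ | ⟨m, hm, h1, h2⟩
  · obtain ⟨X, u, hX, hu, rfl⟩ := C3b_exc h1
    rw [(C3b_wmd hX).1] at h2
    have he : p' = (X - 1) + wd N * u := by omega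
    have hX' : X - 1 < wd N := by omega
    rw [he, (C3b_cut hX hu).1, (C3b_cut hX hu).2, (C3b_cut hX' hu).1, (C3b_cut hX' hu).2]
    right
    exact ⟨rfl, by omega⟩
  · obtain ⟨X, u, i, hX, hu, hi, rfl⟩ := C3b_exs hm
    rw [(C3b_md hi).1, (C3b_md hi).2, (C3b_wmd hX).1] at h2
    rw [h1, (C3b_strip hX hi).1, (C3b_strip hX hi).2]
    rcases h2 with ⟨h3, h4⟩ | ⟨h3, h4⟩ | ⟨h3, h4⟩ | ⟨h3, h4, h5⟩
    · have he : p' = cutN N + ((X + wd N * u) * h + (i - 1)) := by omega
      have hi' : i - 1 < h := by omega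
      rw [he, (C3b_strip hX hi').1, (C3b_strip hX hi').2]
      left
      exact ⟨rfl, by omega⟩
    · have he : p' = cutN N + (((X - 1) + wd N * u) * h + i) := by
        have : X + wd N * u = (X - 1) + wd N * u + 1 := by omega
        rw [h4, this, Nat.add_mul]
        omega
      have hX' : X - 1 < wd N := by omega
      rw [he, (C3b_strip hX' hi).1, (C3b_strip hX' hi).2]
      right
      exact ⟨rfl, by omega⟩
    · rw [h4, (C3b_cut hX hu).1, (C3b_cut hX hu).2]
      left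
      exact ⟨rfl, by omega⟩
    · have he : p' = X + wd N * (u + 1) := by rw [h5]; ring
      have hu' : u + 1 < 2 * N + 2 := by
        by_contra hc
        have h6 : wd N * (2 * N + 2) ≤ wd N * (u + 1) := Nat.mul_le_mul_left _ (by omega)
        rw [← C3b_cutN] at h6
        have h7 : wd N * (u + 1) = wd N * u + wd N := by ring
        omega
      rw [he, (C3b_cut hX hu').1, (C3b_cut hX hu').2]
      left
      refine ⟨rfl, Or.inl ?_⟩
      rw [← h3]; ring

theorem C3b_cases {N h p : ℕ} (hp : p < len N h) :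
    (∃ X u, X < wd N ∧ u < 2 * N + 2 ∧ p = X + wd N * u) ∨
      ∃ X u i, X < wd N ∧ u < 2 * N + 2 ∧ i < h ∧ p = cutN N + ((X + wd N * u) * h + i) := by
  by_cases hc : p < cutN N
  · exact Or.inl (C3b_exc hc)
  · right
    unfold len at hp
    obtain ⟨X, u, i, hX, hu, hi, he⟩ := C3b_exs (N := N) (h := h) (m := p - cutN N) (by omega)
    exact ⟨X, u, i, hX, hu, hi, by omega⟩

theorem C3b_n1 {N h X u : ℕ} (hX : X + 1 < wd N) (hu : u < 2 * N + 2) :
    Nb N h (X + 1 + wd N * u) (X + wd N * u) := by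
  refine Or.inl ⟨C3b_lt hX hu, ?_, by omega⟩
  rw [(C3b_wmd hX).1]; omega

theorem C3b_n2 {N h X u i : ℕ} (hX : X < wd N) (hu : u < 2 * N + 2) (hi : i + 1 < h) :
    Nb N h (cutN N + ((X + wd N * u) * h + (i + 1))) (cutN N + ((X + wd N * u) * h + i)) := by
  refine Or.inr ⟨(X + wd N * u) * h + (i + 1), C3b_slt hX hu hi, rfl, Or.inl ⟨?_, by omega⟩⟩
  rw [(C3b_md hi).2]; omega

theorem C3b_n3 {N h X u i : ℕ} (hX : X + 1 < wd N) (hu : u < 2 * N + 2) (hi : i < h) :
    Nb N h (cutN N + ((X + 1 + wd N * u) * h + i)) (cutN N + ((X + wd N * u) * h + i)) := by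
  refine Or.inr ⟨(X + 1 + wd N * u) * h + i, C3b_slt hX hu hi, rfl, Or.inr (Or.inl ⟨?_, ?_⟩)⟩
  · rw [(C3b_md hi).1, (C3b_wmd hX).1]; omega
  · have e0 : X + 1 + wd N * u = X + wd N * u + 1 := by omega
    have e1 : (X + 1 + wd N * u) * h = (X + wd N * u) * h + h := by
      rw [e0, Nat.add_mul, Nat.one_mul]
    rw [e1]
    generalize (X + wd N * u) * h = z
    omega

theorem C3b_n4 {N h X u : ℕ} (hh : 1 ≤ h) (hX : X < wd N) (hu : u < 2 * N + 2) :
    Nb N h (cutN N + ((X + wd N * u) * h + 0)) (X + wd N * u) := by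
  have hi : 0 < h := hh
  refine Or.inr ⟨(X + wd N * u) * h + 0, C3b_slt hX hu hi, rfl,
    Or.inr (Or.inr (Or.inl ⟨(C3b_md hi).2, (C3b_md hi).1.symm⟩))⟩

theorem C3b_n5 {N h X u i : ℕ} (hX : X < wd N) (hu : u + 1 < 2 * N + 2) (hi : i + 1 = h) :
    Nb N h (cutN N + ((X + wd N * u) * h + i)) (X + wd N * (u + 1)) := by
  have hi' : i < h := by omega
  have hu' : u < 2 * N + 2 := by omega
  have he : X + wd N * u + wd N = X + wd N * (u + 1) := by ring
  have hl := C3b_lt hX hu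
  refine Or.inr ⟨(X + wd N * u) * h + i, C3b_slt hX hu' hi', rfl,
    Or.inr (Or.inr (Or.inr ⟨?_, ?_, ?_⟩))⟩
  · rw [(C3b_md hi').2]; exact hi
  · rw [(C3b_md hi').1, he]; exact hl
  · rw [(C3b_md hi').1, he]

theorem C3b_key {N h p p' : ℕ} (hh : 1 ≤ h) (hp : p < len N h) (hp' : p' < len N h)
    (ha : (xc N h p = xc N h p' ∧ yc N h p' = yc N h p + 1) ∨
      (yc N h p = yc N h p' ∧ xc N h p' = xc N h p + 1)) : Nb N h p p' ∨ Nb N h p' p := by
  rcases C3b_cases hp with ⟨X, u, hX, hu, rfl⟩ | ⟨X, u, i, hX, hu, hi, rfl⟩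
  · rw [(C3b_cut hX hu).1, (C3b_cut hX hu).2] at ha
    rcases C3b_cases hp' with ⟨X', u', hX', hu', rfl⟩ | ⟨X', u', i', hX', hu', hi', rfl⟩
    · rw [(C3b_cut hX' hu').1, (C3b_cut hX' hu').2] at ha
      rcases ha with ⟨h1, h2⟩ | ⟨h1, h2⟩
      · have := C3b_inj (n := h + 1) (u := u') (v := u) (a := 0) (b := 1) (by omega) (by omega)
          (by omega)
        omega
      · have := C3b_inj (n := h + 1) (u := u) (v := u') (a := 0) (b := 0) (by omega) (by omega)
          (by omega)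
        obtain ⟨rfl, -⟩ := this
        subst h2
        exact Or.inr (C3b_n1 hX' hu')
    · rw [(C3b_strip hX' hi').1, (C3b_strip hX' hi').2] at ha
      rcases ha with ⟨h1, h2⟩ | ⟨h1, h2⟩
      · have := C3b_inj (n := h + 1) (u := u') (v := u) (a := i') (b := 0) (by omega) (by omega)
          (by omega)
        obtain ⟨rfl, rfl⟩ := this
        subst h1
        exact Or.inr (C3b_n4 hh hX hu)
      · have := C3b_inj (n := h + 1) (u := u) (v := u') (a := 0) (b := i' + 1) (by omega)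
          (by omega) (by omega)
        omega
  · rw [(C3b_strip hX hi).1, (C3b_strip hX hi).2] at ha
    rcases C3b_cases hp' with ⟨X', u', hX', hu', rfl⟩ | ⟨X', u', i', hX', hu', hi', rfl⟩
    · rw [(C3b_cut hX' hu').1, (C3b_cut hX' hu').2] at ha
      rcases ha with ⟨h1, h2⟩ | ⟨h1, h2⟩
      · by_cases hc : i + 1 = h
        · have h3 : (h + 1) * (u + 1) = (h + 1) * u + (h + 1) := by ring
          have := C3b_inj (n := h + 1) (u := u') (v := u + 1) (a := 0) (b := 0) (by omega)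
            (by omega) (by omega)
          obtain ⟨rfl, -⟩ := this
          subst h1
          exact Or.inl (C3b_n5 hX hu' hc)
        · have := C3b_inj (n := h + 1) (u := u') (v := u) (a := 0) (b := i + 2) (by omega)
            (by omega) (by omega)
          omega
      · have := C3b_inj (n := h + 1) (u := u) (v := u') (a := i + 1) (b := 0) (by omega)
          (by omega) (by omega)
        omega
    · rw [(C3b_strip hX' hi').1, (C3b_strip hX' hi').2] at ha
      rcases ha with ⟨h1, h2⟩ | ⟨h1, h2⟩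
      · have := C3b_inj (n := h + 1) (u := u') (v := u) (a := i') (b := i + 1) (by omega)
          (by omega) (by omega)
        obtain ⟨rfl, rfl⟩ := this
        subst h1
        exact Or.inr (C3b_n2 hX hu hi')
      · have := C3b_inj (n := h + 1) (u := u) (v := u') (a := i) (b := i') (by omega)
          (by omega) (by omega)
        obtain ⟨rfl, rfl⟩ := this
        subst h2
        exact Or.inr (C3b_n3 hX' hu' hi)

theorem nb_of_adj {N h r p p' : ℕ} (hh : 1 ≤ h) (hp : p < len N h) (hp' : p' < len N h)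
    (ha : Adj (cellOf N h r p) (cellOf N h r p')) : Nb N h p p' ∨ Nb N h p' p := by
  rw [adj_coord] at ha
  rcases ha with ⟨h1, h2 | h2⟩ | ⟨h1, h2 | h2⟩
  · exact C3b_key hh hp hp' (Or.inl ⟨h1, h2⟩)
  · exact (C3b_key hh hp' hp (Or.inl ⟨h1.symm, h2⟩)).symm
  · exact C3b_key hh hp hp' (Or.inr ⟨h1, h2⟩)
  · exact (C3b_key hh hp' hp (Or.inr ⟨h1.symm, h2⟩)).symm

/-- The earlier neighbours are positions, and they are earlier. -/
theorem nb_lt {N h p p' : ℕ} (hh : 1 ≤ h) (hn : Nb N h p p') : p < len N h ∧ p' < p := by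
  unfold len
  rcases hn with ⟨h1, h2, h3⟩ | ⟨m, hm, h1, h2⟩
  · have h4 : p ≠ 0 := by
      rintro rfl
      simp at h2
    exact ⟨by omega, by omega⟩
  · refine ⟨by omega, ?_⟩
    have hle : m / h < cutN N := (Nat.div_lt_iff_lt_mul (by omega)).mpr hm
    rcases h2 with ⟨h3, h4⟩ | ⟨h3, h4⟩ | ⟨h3, h4⟩ | ⟨h3, h4, h5⟩
    · have h5 : m ≠ 0 := by
        rintro rfl
        simp at h3
      omega
    · have h5 : m / h ≠ 0 := by
        intro h6
        rw [h6] at h3
        simp at h3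
      have h6 : h ≤ m := by
        by_contra hc
        exact h5 (Nat.div_eq_of_lt (by omega))
      omega
    · omega
    · omega

end Pool.Agent.Lib.MP_104326_lc
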