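import Pool.Agent.Lib.MP_104326_lc.KC.C3a

/-! KC, module C3c: classes of rows, the origin, transfer of cardinalities.

PROOF. `class_cut`: the second coordinate of the cell is `(h + 1) * (p / wd N - (N + 1)) + r`
(integers) with `0 ≤ r ≤ h` (`Int.emod_emod_of_dvd`, `Int.add_mul_emod_self_left`,
`Int.emod_eq_of_lt`). `class_strip`: with `i = m % h` it is `(h + 1) * (u - (N + 1)) + (r + i + 1)`.
`class_strip_iff`: for `q < r`: `(r + i + 1) % (h + 1)` with `i < h`, `r ≤ h` is `r + i + 1` if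
`r + i + 1 ≤ h` (then it is `> r > q`) and `r + i - h` otherwise.
`card_transfer`: `Finset.card_bij` with `cellOf` (`cell_mem`, injective by `pos_cell`, surjective by
`pos_lt`, `cell_pos`).
`cell_org`: compute: `r = 0`: `orgPos = N + wd N * (N + 1) < cutN N`, column `N`, cut row `N + 1`:
second coordinate `(h + 1) * (N + 1) - (h + 1) * (N + 1) + 0 = 0`. `r ≥ 1`:
`m = (N + wd N * N) * h + (h - r)`, `m / h = N + wd N * N` (as `h - r < h`), `m % h = h - r`, so the
second coordinate is `(h + 1) * N + (h - r) + 1 - (h + 1) * (N + 1) + r = 0`, first `N - N = 0`. -/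

namespace Pool.Agent.Lib.MP_104326_lc

theorem class_cut {N h r p : ℕ} (hr : r ≤ h) (hp : p < cutN N) :
    (cellOf N h r p).2 % ((h : ℤ) + 1) = r := by
  unfold cellOf yc
  simp only [hp, if_true]
  push_cast
  have h1 : ((h : ℤ) + 1) * ((p : ℤ) / (wd N : ℤ)) - ((h : ℤ) + 1) * ((N : ℤ) + 1) + (r : ℤ) =
      (r : ℤ) + ((h : ℤ) + 1) * ((p : ℤ) / (wd N : ℤ) - ((N : ℤ) + 1)) := by ring
  rw [h1, Int.add_mul_emod_self_left]
  exact Int.emod_eq_of_lt (by omega) (by omega)

theorem class_strip {N h r m : ℕ} :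
    (cellOf N h r (cutN N + m)).2 % ((h : ℤ) + 1) = ((r + m % h + 1) % (h + 1) : ℕ) := by
  unfold cellOf yc
  have h0 : ¬ (cutN N + m < cutN N) := by omega
  simp only [h0, if_false, Nat.add_sub_cancel_left]
  have h1 : (((h + 1) * (m / h / wd N) + m % h + 1 : ℕ) : ℤ) - ((h : ℤ) + 1) * ((N : ℤ) + 1) + (r : ℤ)
      = ((r + m % h + 1 : ℕ) : ℤ) + ((h : ℤ) + 1) * (((m / h / wd N : ℕ) : ℤ) - ((N : ℤ) + 1)) := by
    push_cast; ring
  rw [h1, Int.add_mul_emod_self_left]
  push_cast
  rfl

theorem class_strip_ne {N h r m : ℕ} (hh : 1 ≤ h) (hr : r ≤ h) :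
    (cellOf N h r (cutN N + m)).2 % ((h : ℤ) + 1) ≠ r := by
  rw [class_strip]
  have h1 : m % h < h := Nat.mod_lt _ (by omega)
  intro h2
  have h3 : (r + m % h + 1) % (h + 1) = r := by exact_mod_cast h2
  rcases Nat.lt_or_ge (r + m % h + 1) (h + 1) with h4 | h4
  · rw [Nat.mod_eq_of_lt h4] at h3; omega
  · rw [Nat.mod_eq_sub_mod h4, Nat.mod_eq_of_lt (by omega)] at h3; omega

theorem class_strip_iff {N h r m q i : ℕ} (hh : 1 ≤ h) (hr : r ≤ h) (hq : q < r)
    (hi : i + 1 + r = q + h + 1) :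
    (cellOf N h r (cutN N + m)).2 % ((h : ℤ) + 1) = q ↔ m % h = i := by
  rw [class_strip]
  have h1 : m % h < h := Nat.mod_lt _ (by omega)
  rw [Nat.cast_inj]
  rcases Nat.lt_or_ge (r + m % h + 1) (h + 1) with h4 | h4
  · rw [Nat.mod_eq_of_lt h4]; omega
  · rw [Nat.mod_eq_sub_mod h4, Nat.mod_eq_of_lt (by omega)]; omega

theorem cell_org {N h r : ℕ} (hh : 1 ≤ h) (hr : r ≤ h) : cellOf N h r (orgPos N h r) = (0, 0) := by
  have hw : wd N = 2 * N + 1 := rfl
  have hc : cutN N = (2 * N + 1) * (2 * N + 2) := rfl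
  unfold orgPos
  split_ifs with h0
  · subst h0
    have h1 : N + wd N * (N + 1) < cutN N := by rw [hw, hc]; nlinarith
    have h2 : (N + wd N * (N + 1)) % wd N = N := by
      rw [Nat.add_mul_mod_self_left]; exact Nat.mod_eq_of_lt (by omega)
    have h3 : (N + wd N * (N + 1)) / wd N = N + 1 := by
      rw [Nat.add_mul_div_left _ _ (by omega : 0 < wd N), Nat.div_eq_of_lt (by omega)]; omega
    unfold cellOf xc yc
    simp only [h1, if_true, h2, h3]
    ext <;> simp
  · have h1 : ¬ (cutN N + (N + wd N * N) * h + (h - r) < cutN N) := by omega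
    have h1' : cutN N + (N + wd N * N) * h + (h - r) - cutN N = (h - r) + h * (N + wd N * N) := by
      rw [mul_comm h]; omega
    have h2 : ((h - r) + h * (N + wd N * N)) / h = N + wd N * N := by
      rw [Nat.add_mul_div_left _ _ (by omega : 0 < h), Nat.div_eq_of_lt (by omega)]; omega
    have h3 : ((h - r) + h * (N + wd N * N)) % h = h - r := by
      rw [Nat.add_mul_mod_self_left]; exact Nat.mod_eq_of_lt (by omega)
    have h4 : (N + wd N * N) % wd N = N := by
      rw [Nat.add_mul_mod_self_left]; exact Nat.mod_eq_of_lt (by omega)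
    have h5 : (N + wd N * N) / wd N = N := by
      rw [Nat.add_mul_div_left _ _ (by omega : 0 < wd N), Nat.div_eq_of_lt (by omega)]; omega
    unfold cellOf xc yc
    simp only [h1, if_false, h1', h2, h3, h4, h5]
    ext
    · simp
    · push_cast [Nat.cast_sub hr]
      ring

open Classical in
theorem card_transfer {N h r : ℕ} (hh : 1 ≤ h) (P : ℤ × ℤ → Prop) :
    ((reg N h r).filter P).card =
      ((Finset.range (len N h)).filter fun p => P (cellOf N h r p)).card := by
  symm
  apply Finset.card_bij (fun p _ => cellOf N h r p)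
  · intro p hp
    rw [Finset.mem_filter, Finset.mem_range] at hp
    exact Finset.mem_filter.2 ⟨cell_mem hh hp.1, hp.2⟩
  · intro p hp p' hp' he
    rw [Finset.mem_filter, Finset.mem_range] at hp hp'
    have := congrArg (posOf N h r) he
    rwa [pos_cell hh hp.1, pos_cell hh hp'.1] at this
  · intro x hx
    rw [Finset.mem_filter] at hx
    refine ⟨posOf N h r x, ?_, cell_pos hh hx.1⟩
    rw [Finset.mem_filter, Finset.mem_range, cell_pos hh hx.1]
    exact ⟨pos_lt hh hx.1, hx.2⟩

end Pool.Agent.Lib.MP_104326_lc
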