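import Pool.Agent.Lib.MP_104326_lc.KC.C2d
import Pool.Agent.Lib.MP_104326_lc.KC.C3b
import Pool.Agent.Lib.MP_104326_lc.KC.C3c

/-! KC, module C3d: labellings of the sets of the family are good functions on the positions.

PROOF. Let `x p = if p < L then F (cellOf p) else 0`, `L = len N h`, `K = cutN N`.
`compat_iff`: unfold.
`adj_good`: the adjacency clause. (→) Each of the five conditions is about `p` and an earlier neighbour
`p'` (`Nb N h p p'`, all `< L` by `nb_lt`), `adj_of_nb`; if both values are nonzero they are equal.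
(←) For cells `y, z ∈ reg` with nonzero values and `Adj y z`: `y = cellOf (posOf y)` etc.,
`nb_of_adj`, one of the five conditions gives `compat`, hence equality.
`lab_iff_good` (→): let `S ∈ fam N h r` and `IsLab S j F`; `S ⊆ reg`, and `F y ≠ 0 ↔ y ∈ S`. So
`S = (reg N h r).filter (F · ≠ 0)`. `org`: `x (orgPos) = F (cellOf orgPos) = F (0, 0) = 1`
(`orgPos_lt`, `cell_org`). `tot`: `S.card = N` and `card_transfer`. `few`: `inCls h S r ≤ h`, where
`inCls h S r` is the card of `(reg N h r).filter (F y ≠ 0 ∧ y.2 % (h + 1) = r)`, by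
`card_transfer` the number of the `p < L` with `F (cellOf p) ≠ 0` and class `r`, which are the `p < K`
with `x p ≠ 0` (`class_cut`, `class_strip_ne`; `K ≤ L`). `cls`: for `i < h` with `h + 1 ≤ i + 1 + r` let
`q = i + r - h < r`; the positions of class `q` are the `K + m` with `m % h = i` (`class_strip_iff`,
`class_cut` for the cut positions, `q ≠ r`), so `h < inCls h S q` is the claim (bijection
`m ↦ K + m`). The five conditions: `adj_good`. (←): let `S := (reg N h r).filter (F · ≠ 0)`; the same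
equivalences; for `q ∈ range r` take `i = q + h - r < h`. `F (0, 0) = x (orgPos) = 1`, so
`(0, 0) ∈ S` (and `(0,0) = cellOf orgPos ∈ reg`). `F ≤ j`: on `reg` from `x ≤ j` and `cell_pos`,
outside `F = 0` by `hF`. -/

namespace Pool.Agent.Lib.MP_104326_lc

/-- The function on the positions. -/
def toPos (N h r : ℕ) (F : ℤ × ℤ → ℕ) (p : ℕ) : ℕ := if p < len N h then F (cellOf N h r p) else 0

theorem compat_iff {a b : ℕ} : compat a b = true ↔ (a ≠ 0 → b ≠ 0 → a = b) := by
  unfold compat
  rw [Bool.or_eq_true, Bool.or_eq_true, decide_eq_true_eq, decide_eq_true_eq, decide_eq_true_eq]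
  tauto

private theorem toPos_lt {N h r : ℕ} (F : ℤ × ℤ → ℕ) {p : ℕ} (hp : p < len N h) :
    toPos N h r F p = F (cellOf N h r p) := if_pos hp

private theorem toPos_pos {N h r : ℕ} (hh : 1 ≤ h) (F : ℤ × ℤ → ℕ) {y : ℤ × ℤ}
    (hy : y ∈ reg N h r) : toPos N h r F (posOf N h r y) = F y := by
  rw [toPos_lt F (pos_lt hh hy), cell_pos hh hy]

theorem adj_good {N h r : ℕ} (hh : 1 ≤ h) (F : ℤ × ℤ → ℕ) (hF : ∀ y, F y ≠ 0 → y ∈ reg N h r) :
    (∀ y z, F y ≠ 0 → F z ≠ 0 → Adj y z → F y = F z) ↔
      ∀ p p', Nb N h p p' → compat (toPos N h r F p) (toPos N h r F p') = true := by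
  constructor
  · intro H p p' hn
    obtain ⟨hp, hlt⟩ := nb_lt hh hn
    have hp' : p' < len N h := hlt.trans hp
    rw [compat_iff, toPos_lt F hp, toPos_lt F hp']
    intro h1 h2
    exact H _ _ h1 h2 (adj_of_nb hh hp hp' hn)
  · intro H y z hy hz ha
    have hyr := hF y hy
    have hzr := hF z hz
    have key := nb_of_adj (r := r) hh (pos_lt hh hyr) (pos_lt hh hzr)
      (by rw [cell_pos hh hyr, cell_pos hh hzr]; exact ha)
    rcases key with hn | hn
    · have h1 := H _ _ hn
      rw [compat_iff, toPos_pos hh F hyr, toPos_pos hh F hzr] at h1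
      exact h1 hy hz
    · have h1 := H _ _ hn
      rw [compat_iff, toPos_pos hh F hyr, toPos_pos hh F hzr] at h1
      exact (h1 hz hy).symm

private theorem nb_iff {N h : ℕ} (x : ℕ → ℕ) :
    (∀ p p', Nb N h p p' → compat (x p) (x p') = true) ↔
    ((∀ q < cutN N, q % wd N ≠ 0 → compat (x q) (x (q - 1)) = true) ∧
    (∀ m < cutN N * h, m % h ≠ 0 → compat (x (cutN N + m)) (x (cutN N + m - 1)) = true) ∧
    (∀ m < cutN N * h, (m / h) % wd N ≠ 0 →
      compat (x (cutN N + m)) (x (cutN N + m - h)) = true) ∧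
    (∀ m < cutN N * h, m % h = 0 → compat (x (cutN N + m)) (x (m / h)) = true) ∧
    (∀ m < cutN N * h, m % h + 1 = h → m / h + wd N < cutN N →
      compat (x (cutN N + m)) (x (m / h + wd N)) = true)) := by
  constructor
  · intro H
    refine ⟨fun q hq h1 => H _ _ (Or.inl ⟨hq, h1, rfl⟩),
      fun m hm h1 => H _ _ (Or.inr ⟨m, hm, rfl, Or.inl ⟨h1, rfl⟩⟩),
      fun m hm h1 => H _ _ (Or.inr ⟨m, hm, rfl, Or.inr (Or.inl ⟨h1, rfl⟩)⟩),
      fun m hm h1 => H _ _ (Or.inr ⟨m, hm, rfl, Or.inr (Or.inr (Or.inl ⟨h1, rfl⟩))⟩),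
      fun m hm h1 h2 => H _ _ (Or.inr ⟨m, hm, rfl, Or.inr (Or.inr (Or.inr ⟨h1, h2, rfl⟩))⟩)⟩
  · rintro ⟨h1, h2, h3, h4, h5⟩ p p' hn
    rcases hn with ⟨hp, hw, rfl⟩ | ⟨m, hm, rfl, hc⟩
    · exact h1 p hp hw
    · rcases hc with ⟨ha, rfl⟩ | ⟨ha, rfl⟩ | ⟨ha, rfl⟩ | ⟨ha, hb, rfl⟩
      · exact h2 m hm ha
      · exact h3 m hm ha
      · exact h4 m hm ha
      · exact h5 m hm ha hb

private theorem card_tr {N h r : ℕ} (hh : 1 ≤ h) (P : ℤ × ℤ → Prop) [DecidablePred P]
    (Q : ℕ → Prop) [DecidablePred Q] (hPQ : ∀ p < len N h, (P (cellOf N h r p) ↔ Q p)) :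
    ((reg N h r).filter P).card = ((Finset.range (len N h)).filter Q).card := by
  classical
  have h1 := card_transfer (N := N) (r := r) hh P
  have h2 : (Finset.range (len N h)).filter (fun p => P (cellOf N h r p)) =
      (Finset.range (len N h)).filter Q := by
    apply Finset.filter_congr
    intro p hp
    exact hPQ p (Finset.mem_range.1 hp)
  rw [← h2]
  convert h1

private theorem tot_card {N h r : ℕ} (hh : 1 ≤ h) (F : ℤ × ℤ → ℕ) :
    ((reg N h r).filter fun y => F y ≠ 0).card =
      ((Finset.range (len N h)).filter fun p => toPos N h r F p ≠ 0).card := by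
  apply card_tr hh
  intro p hp
  rw [toPos_lt F hp]

private theorem few_card {N h r : ℕ} (hh : 1 ≤ h) (hr : r ≤ h) (F : ℤ × ℤ → ℕ) :
    inCls h ((reg N h r).filter fun y => F y ≠ 0) r =
      ((Finset.range (cutN N)).filter fun q => toPos N h r F q ≠ 0).card := by
  unfold inCls
  rw [Finset.filter_filter]
  have h1 : ((Finset.range (cutN N)).filter fun q => toPos N h r F q ≠ 0) =
      (Finset.range (len N h)).filter fun p => p < cutN N ∧ toPos N h r F p ≠ 0 := by
    ext p
    simp only [Finset.mem_filter, Finset.mem_range]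
    have h2 : cutN N ≤ len N h := Nat.le_add_right _ _
    constructor
    · rintro ⟨h3, h4⟩
      exact ⟨h3.trans_le h2, h3, h4⟩
    · rintro ⟨_, h3, h4⟩
      exact ⟨h3, h4⟩
  rw [h1]
  apply card_tr hh
  intro p hp
  rw [toPos_lt F hp]
  by_cases hpK : p < cutN N
  · have h2 := class_cut hr hpK
    tauto
  · obtain ⟨m, rfl⟩ : ∃ m, p = cutN N + m := ⟨p - cutN N, by omega⟩
    have h2 := class_strip_ne (N := N) (m := m) hh hr
    tauto

private theorem cls_card {N h r q i : ℕ} (hh : 1 ≤ h) (hr : r ≤ h) (hq : q < r)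
    (hi : i + 1 + r = q + h + 1) (F : ℤ × ℤ → ℕ) :
    inCls h ((reg N h r).filter fun y => F y ≠ 0) q =
      ((Finset.range (cutN N * h)).filter fun m => m % h = i ∧
        toPos N h r F (cutN N + m) ≠ 0).card := by
  unfold inCls
  rw [Finset.filter_filter]
  have h1 : ((reg N h r).filter fun y => F y ≠ 0 ∧ y.2 % ((h : ℤ) + 1) = q).card =
      ((Finset.range (len N h)).filter fun p => cutN N ≤ p ∧ (p - cutN N) % h = i ∧
        toPos N h r F p ≠ 0).card := by
    apply card_tr hh
    intro p hp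
    rw [toPos_lt F hp]
    by_cases hpK : p < cutN N
    · have h2 := class_cut hr hpK
      have h3 : ¬ ((cellOf N h r p).2 % ((h : ℤ) + 1) = q) := by
        rw [h2]
        intro h4
        have h5 : r = q := by exact_mod_cast h4
        omega
      have h4 : ¬ cutN N ≤ p := by omega
      tauto
    · obtain ⟨m, rfl⟩ : ∃ m, p = cutN N + m := ⟨p - cutN N, by omega⟩
      have h2 := class_strip_iff (N := N) (m := m) hh hr hq hi
      have h3 : cutN N + m - cutN N = m := by omega
      have h4 : cutN N ≤ cutN N + m := Nat.le_add_right _ _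
      rw [h2, h3]
      tauto
  rw [h1]
  refine Finset.card_nbij' (fun p => p - cutN N) (fun m => cutN N + m) ?_ ?_ ?_ ?_
  · intro p hp
    simp only [Finset.coe_filter, Finset.mem_range, Set.mem_ofPred_eq] at hp ⊢
    obtain ⟨h2, h3, h4, h5⟩ := hp
    have h6 : cutN N + (p - cutN N) = p := by omega
    rw [h6]
    refine ⟨?_, h4, h5⟩
    unfold len at h2
    omega
  · intro m hm
    simp only [Finset.coe_filter, Finset.mem_range, Set.mem_ofPred_eq] at hm ⊢
    obtain ⟨h2, h3, h4⟩ := hm
    have h6 : cutN N + m - cutN N = m := by omega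
    rw [h6]
    refine ⟨?_, Nat.le_add_right _ _, h3, h4⟩
    unfold len
    omega
  · intro p hp
    simp only [Finset.coe_filter, Finset.mem_range, Set.mem_ofPred_eq] at hp
    obtain ⟨h2, h3, h4, h5⟩ := hp
    simp only
    omega
  · intro m hm
    simp only
    omega

theorem lab_iff_good {N h r j : ℕ} (hh : 1 ≤ h) (hr : r ≤ h) (F : ℤ × ℤ → ℕ)
    (hF : ∀ y, F y ≠ 0 → y ∈ reg N h r) :
    (∃ S ∈ fam N h r, IsLab S j F) ↔
      (∀ p, toPos N h r F p ≤ j) ∧ Good N h r (toPos N h r F) := by
  have horg : toPos N h r F (orgPos N h r) = F (0, 0) := by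
    rw [toPos_lt F (orgPos_lt hh hr), cell_org hh hr]
  constructor
  · rintro ⟨S, hS, hL1, hL2, hL3, hL4⟩
    unfold fam at hS
    rw [Finset.mem_filter, Finset.mem_powerset] at hS
    obtain ⟨hSr, hS0, hSN, hSf, hSc⟩ := hS
    have hSeq : S = (reg N h r).filter fun y => F y ≠ 0 := by
      ext y
      rw [Finset.mem_filter, hL1]
      exact ⟨fun hy => ⟨hSr hy, hy⟩, fun hy => hy.2⟩
    refine ⟨fun p => ?_, ?_⟩
    · unfold toPos
      split_ifs
      · exact hL2 _
      · exact Nat.zero_le _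
    · obtain ⟨g1, g2, g3, g4, g5⟩ := (nb_iff (toPos N h r F)).1 ((adj_good hh F hF).1
        (fun y z hy hz ha => hL3 y ((hL1 y).1 hy) z ((hL1 z).1 hz) ha))
      refine ⟨by rw [horg, hL4], g1, g2, g3, g4, g5, ?_, ?_, ?_⟩
      · rw [← few_card hh hr F, ← hSeq]
        exact hSf
      · rw [← tot_card hh F, ← hSeq]
        exact hSN
      · intro i hi hir
        rw [← cls_card (q := i + r - h) hh hr (by omega) (by omega) F, ← hSeq]
        exact hSc _ (Finset.mem_range.2 (by omega))
  · rintro ⟨hle, hG⟩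
    have h0 : F (0, 0) = 1 := by
      rw [← horg]
      exact hG.org
    have h0r : (0, 0) ∈ reg N h r := hF _ (by rw [h0]; exact one_ne_zero)
    refine ⟨(reg N h r).filter fun y => F y ≠ 0, ?_, ?_⟩
    · unfold fam
      rw [Finset.mem_filter, Finset.mem_powerset]
      refine ⟨Finset.filter_subset _ _, ?_, ?_, ?_, ?_⟩
      · rw [Finset.mem_filter]
        exact ⟨h0r, by rw [h0]; exact one_ne_zero⟩
      · rw [tot_card hh F]
        exact hG.tot
      · rw [few_card hh hr F]
        exact hG.few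
      · intro q hq
        rw [Finset.mem_range] at hq
        rw [cls_card (i := q + h - r) hh hr hq (by omega) F]
        exact hG.cls (q + h - r) (by omega) (by omega)
    · refine ⟨fun y => ?_, fun y => ?_, ?_, h0⟩
      · rw [Finset.mem_filter]
        exact ⟨fun hy => ⟨hF y hy, hy⟩, fun hy => hy.2⟩
      · by_cases hy : y ∈ reg N h r
        · rw [← toPos_pos hh F hy]
          exact hle _
        · have h1 : F y = 0 := by
            by_contra h2
            exact hy (hF y h2)
          rw [h1]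
          exact Nat.zero_le _
      · intro y hy z hz ha
        rw [Finset.mem_filter] at hy hz
        exact (adj_good hh F hF).2 ((nb_iff (toPos N h r F)).2
          ⟨hG.hor0, hG.ver, hG.hor, hG.low, hG.upp⟩) y z hy.2 hz.2 ha

end Pool.Agent.Lib.MP_104326_lc
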