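import Pool.Agent.Lib.MP_104326_lc.KC.C1
import Pool.Agent.Lib.MP_104326_lc.KC.C3d

/-! KC, module C3e: the number of labellings is computed by `cnt`.

PROOF. Let `L = len N h`. The map `F ↦ (List.range L).map (toPos N h r F)` is a bijection from the
labellings `F` (with `∃ S ∈ fam N h r, IsLab S j F`) to the words `w` of length `L` over `0, …, j` with
`run N h r 0 (start h) w`. Well defined: `F` vanishes outside of `reg` (as `S ⊆ reg`), so by
`lab_iff_good` `toPos F ≤ j` and `Good (toPos F)`; for `w = (List.range L).map (toPos F)` one has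
`w.getD p 0 = toPos F p` for all `p` (both are `0` for `p ≥ L`), so `run` holds by `run_iff'` and
`good_iff` (`toPos F ≤ j ≤ N`). Injective: `F y = toPos F (posOf y)` for `y ∈ reg` (`pos_lt`, `cell_pos`)
and `F y = 0` outside. Surjective: for `w` let `F y := if y ∈ reg N h r then w.getD (posOf y) 0 else 0`
(classical); then `toPos F p = w.getD p 0` (`cell_mem`, `pos_cell`), by `run_iff'`, `good_iff` (all
entries `≤ j ≤ N`) it is good, and `lab_iff_good` gives the labelling. So the card is
`((words (j + 1) L).filter (run N h r 0 (start h))).length` (`mem_words`, `nodup_words`: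
`List.toFinset_card_of_nodup`), and this is `cnt N h r j L (start h)` by `cnt_eq` with `m = L`
(`L - L = 0`). -/

namespace Pool.Agent.Lib.MP_104326_lc

theorem getD_map_range {L : ℕ} {x : ℕ → ℕ} (hx : ∀ p, L ≤ p → x p = 0) (p : ℕ) :
    ((List.range L).map x).getD p 0 = x p := by
  by_cases hp : p < L
  · rw [List.getD_eq_getElem _ _ (by simpa using hp)]
    simp
  · rw [List.getD_eq_default _ _ (by simpa using Nat.not_lt.1 hp), hx p (Nat.not_lt.1 hp)]

theorem toPos_of_le {N h r : ℕ} {F : ℤ × ℤ → ℕ} (p : ℕ) (hp : len N h ≤ p) :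
    toPos N h r F p = 0 := by
  unfold toPos
  rw [if_neg (Nat.not_lt.2 hp)]

theorem supp_reg {N h r j : ℕ} {F : ℤ × ℤ → ℕ} (hF : ∃ S ∈ fam N h r, IsLab S j F) (y : ℤ × ℤ)
    (hy : F y ≠ 0) : y ∈ reg N h r := by
  obtain ⟨S, hS, hl⟩ := hF
  unfold fam at hS
  rw [Finset.mem_filter, Finset.mem_powerset] at hS
  exact hS.1 ((hl.1 y).1 hy)

theorem run_iff_good {N h r j : ℕ} (hh : 1 ≤ h) (hr : r ≤ h) (hj : j ≤ N) {w : List ℕ}
    (hw : w ∈ words (j + 1) (len N h)) :
    run N h r 0 (start h) w = true ↔ Good N h r (fun p => w.getD p 0) := by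
  rw [mem_words] at hw
  rw [run_iff' w, hw.1]
  refine good_iff hh hr ?_
  intro q
  show w.getD q 0 ≤ N
  by_cases hq : q < w.length
  · rw [List.getD_eq_getElem _ _ hq]
    have := hw.2 _ (List.getElem_mem hq)
    omega
  · rw [List.getD_eq_default _ _ (Nat.not_lt.1 hq)]
    exact Nat.zero_le _

theorem card_eq_cnt {N h r j : ℕ} (hh : 1 ≤ h) (hr : r ≤ h) (hj : j ≤ N) :
    Nat.card {F : ℤ × ℤ → ℕ // ∃ S ∈ fam N h r, IsLab S j F} =
      cnt N h r j (len N h) (start h) := by
  classical
  rw [cnt_eq (len N h) (start h) le_rfl, Nat.sub_self]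
  have hnd : ((words (j + 1) (len N h)).filter fun w => run N h r 0 (start h) w).Nodup :=
    (nodup_words _ _).filter _
  rw [← List.toFinset_card_of_nodup hnd, ← Nat.card_eq_finsetCard]
  have hgetD : ∀ F : ℤ × ℤ → ℕ,
      (fun p => ((List.range (len N h)).map (toPos N h r F)).getD p 0) = toPos N h r F := by
    intro F
    funext p
    exact getD_map_range toPos_of_le p
  have hmem : ∀ F : {F : ℤ × ℤ → ℕ // ∃ S ∈ fam N h r, IsLab S j F},
      (List.range (len N h)).map (toPos N h r F.1) ∈
        ((words (j + 1) (len N h)).filter fun w => run N h r 0 (start h) w).toFinset := by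
    intro F
    have hg := (lab_iff_good hh hr F.1 (supp_reg F.2)).1 F.2
    have hw : (List.range (len N h)).map (toPos N h r F.1) ∈ words (j + 1) (len N h) := by
      rw [mem_words]
      refine ⟨by simp, ?_⟩
      intro a ha
      obtain ⟨p, -, rfl⟩ := List.mem_map.1 ha
      exact Nat.lt_succ_of_le (hg.1 p)
    rw [List.mem_toFinset, List.mem_filter]
    refine ⟨hw, ?_⟩
    rw [run_iff_good hh hr hj hw, hgetD]
    exact hg.2
  refine Nat.card_congr (Equiv.ofBijective (fun F => ⟨_, hmem F⟩) ⟨?_, ?_⟩)
  · rintro ⟨F, hF⟩ ⟨G, hG⟩ hFG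
    have h1 : (List.range (len N h)).map (toPos N h r F) =
        (List.range (len N h)).map (toPos N h r G) := congrArg Subtype.val hFG
    have h2 : toPos N h r F = toPos N h r G := by
      rw [← hgetD F, ← hgetD G, h1]
    apply Subtype.ext
    funext y
    show F y = G y
    by_cases hy : y ∈ reg N h r
    · have h3 := congrFun h2 (posOf N h r y)
      unfold toPos at h3
      rw [if_pos (pos_lt hh hy), if_pos (pos_lt hh hy), cell_pos hh hy] at h3
      exact h3
    · have h4 : F y = 0 := by
        by_contra h5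
        exact hy (supp_reg hF y h5)
      have h6 : G y = 0 := by
        by_contra h5
        exact hy (supp_reg hG y h5)
      rw [h4, h6]
  · rintro ⟨w, hw⟩
    have hw' := hw
    rw [List.mem_toFinset, List.mem_filter] at hw'
    obtain ⟨hw1, hw2⟩ := hw'
    have hg := (run_iff_good hh hr hj hw1).1 hw2
    rw [mem_words] at hw1
    let F : ℤ × ℤ → ℕ := fun y => if y ∈ reg N h r then w.getD (posOf N h r y) 0 else 0
    have hFr : ∀ y, F y ≠ 0 → y ∈ reg N h r := by
      intro y hy
      by_contra h5
      exact hy (if_neg h5)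
    have hpos : toPos N h r F = fun p => w.getD p 0 := by
      funext p
      unfold toPos
      by_cases hp : p < len N h
      · rw [if_pos hp]
        show (if cellOf N h r p ∈ reg N h r then
          w.getD (posOf N h r (cellOf N h r p)) 0 else 0) = _
        rw [if_pos (cell_mem hh hp), pos_cell hh hp]
      · rw [if_neg hp, List.getD_eq_default _ _ (by rw [hw1.1]; exact Nat.not_lt.1 hp)]
    have hF : ∃ S ∈ fam N h r, IsLab S j F := by
      rw [lab_iff_good hh hr F hFr, hpos]
      refine ⟨?_, hg⟩
      intro p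
      show w.getD p 0 ≤ j
      by_cases hq : p < w.length
      · rw [List.getD_eq_getElem _ _ hq]
        have := hw1.2 _ (List.getElem_mem hq)
        omega
      · rw [List.getD_eq_default _ _ (Nat.not_lt.1 hq)]
        exact Nat.zero_le _
    refine ⟨⟨F, hF⟩, ?_⟩
    apply Subtype.ext
    show (List.range (len N h)).map (toPos N h r F) = w
    rw [hpos]
    refine List.ext_getElem (by simp [hw1.1]) ?_
    intro n h1 h2
    rw [List.getElem_map, List.getElem_range, List.getD_eq_getElem _ _ h2]

end Pool.Agent.Lib.MP_104326_lc
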