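import Pool.Agent.Lib.MP_104326_lc.KC.B3
import Pool.Agent.Lib.MP_104326_lc.KC.B4
import Pool.Agent.Lib.MP_104326_lc.KC.C3e

/-! KC, module C4: the formula for `c N`.

PROOF. `c_eq_fam` (cast to `ℤ`), then `signed_count` for each family (`fam N h r`: the elements contain
the origin and have `N` cells, by definition), then `card_eq_cnt` with `j + 1 ≤ N` for `j ∈ range N`.
`sqrtN`: `Nat.lt_succ_sqrt`, and `1 ≤ Nat.sqrt N` for `N ≥ 1` (`Nat.sqrt_pos`). -/

namespace Pool.Agent.Lib.MP_104326_lc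

theorem c_formula {N h : ℕ} (hh : 1 ≤ h) (hN : N < (h + 1) ^ 2) :
    (c N : ℤ) = ∑ r ∈ Finset.range (h + 1), ∑ j ∈ Finset.range N, (-1 : ℤ) ^ j *
      (N.choose (j + 1) : ℤ) * (cnt N h r (j + 1) (len N h) (start h) : ℤ) := by
  classical
  rw [c_eq_fam hN, Nat.cast_sum]
  apply Finset.sum_congr rfl
  intro r hr
  rw [Finset.mem_range] at hr
  have h1 : ∀ S ∈ fam N h r, (0, 0) ∈ S ∧ S.card = N := by
    intro S hS
    unfold fam at hS
    rw [Finset.mem_filter] at hS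
    exact ⟨hS.2.1, hS.2.2.1⟩
  rw [signed_count h1]
  apply Finset.sum_congr rfl
  intro j hj
  rw [Finset.mem_range] at hj
  rw [card_eq_cnt hh (by omega) (by omega)]

theorem c_formula_sqrt {N : ℕ} (hN : 1 ≤ N) :
    (c N : ℤ) = ∑ r ∈ Finset.range (Nat.sqrt N + 1), ∑ j ∈ Finset.range N, (-1 : ℤ) ^ j *
      (N.choose (j + 1) : ℤ) *
        (cnt N (Nat.sqrt N) r (j + 1) (len N (Nat.sqrt N)) (start (Nat.sqrt N)) : ℤ) := by
  have h1 : 1 ≤ Nat.sqrt N := Nat.sqrt_pos.2 (by omega)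
  have h2 : N < (Nat.sqrt N + 1) ^ 2 := by
    rw [sq]
    exact Nat.lt_succ_sqrt N
  exact c_formula h1 h2

end Pool.Agent.Lib.MP_104326_lc
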