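import Pool.Agent.Lib.MP_104326_lc.KC.D2a

/-! KC, module D2b: the forward computation is correct if there are at most `M` states.

PROOF. `sum_wt` (one step): let `T = L.flatMap (succs … e.1)` and let `D` be a nodup list with the same
elements as `T`. Then for every `f : St → ℕ`: `∑ s ∈ D, wt s * f s = ∑ e ∈ L, e.2.val * (∑ s' ∈ succs e.1,
f s')`: exchange the sums; for fixed `e`, `∑ s ∈ D, #{s' ∈ succs e.1 : s' = s} * f s = ∑ s' ∈ succs e.1,
f s'`, because every `s' ∈ succs e.1` occurs exactly once in `D` (induction on the list `succs e.1`; or
`List.sum_map_count`-like lemmas, or convert to Finset sums).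
`lay_inv`: by induction on `p ≤ len N h`: all states of `lay p` are in `U`, and
`∑ e ∈ lay p, e.2.val * cnt (len - p) e.1 = cnt len (start h)`. `p = 0`: one entry. Step (`p < len`): the
flatMap list `T` has all its elements in `U` (`hs`), so `T.toFinset.card ≤ U.card ≤ M`, and `dd M T` is
nodup with the elements of `T` (`nodup_dd`, `mem_of_dd`, `mem_dd`); `sum_wt` with
`f := cnt (len - (p + 1))` and `cnt_succs` with `m = len - (p + 1)` (`m + 1 = len - p`,
`len - (m + 1) = p`).
`fwd_eq`: `p = len`: `cnt 0 s = if acc then 1 else 0`. -/

namespace Pool.Agent.Lib.MP_104326_lc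

open Pool.Agent.Lib.PolyTime

theorem sum_count_aux (D : List St) (hD : D.Nodup) (f : St → ℕ) :
    ∀ l : List St, (∀ s ∈ l, s ∈ D) →
      (D.map fun s => (l.filter fun s' => decide (s' = s)).length * f s).sum = (l.map f).sum := by
  intro l
  induction l with
  | nil => intro _; simp
  | cons b l ih =>
    intro h
    have h1 := ih (fun s hs => h s (List.mem_cons_of_mem _ hs))
    have hb := h b List.mem_cons_self
    have h2 : ∀ s : St, ((b :: l).filter fun s' => decide (s' = s)).length * f s =
        (if b = s then f s else 0) + (l.filter fun s' => decide (s' = s)).length * f s := by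
      intro s
      rw [List.filter_cons]
      by_cases hbs : b = s
      · simp [hbs]; ring
      · simp [hbs]
    have h3 : (D.map fun s => if b = s then f s else 0).sum = f b := by
      have : ∀ D : List St, D.Nodup → b ∈ D → (D.map fun s => if b = s then f s else 0).sum = f b := by
        intro D
        induction D with
        | nil => intro _ h; simp at h
        | cons c D ihD =>
          intro hn hm
          rw [List.nodup_cons] at hn
          rw [List.map_cons, List.sum_cons]
          rcases List.mem_cons.1 hm with rfl | hm'
          · have h0 : (D.map fun s => if b = s then f s else 0) = D.map fun _ => 0 := by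
              apply List.map_congr_left
              intro s hs
              rw [if_neg]
              rintro rfl
              exact hn.1 hs
            rw [h0]; simp
          · have hc : b ≠ c := by rintro rfl; exact hn.1 hm'
            rw [if_neg hc, ihD hn.2 hm', zero_add]
      exact this D hD hb
    rw [List.map_cons, List.sum_cons, ← h1, ← h3, ← List.sum_map_add]
    congr 1
    apply List.map_congr_left
    intro s _
    exact h2 s

theorem sum_wt {N h r j p : ℕ} (L : List (St × BN)) (D : List St) (hD : D.Nodup)
    (hT : ∀ s, s ∈ D ↔ s ∈ L.flatMap fun e => succs N h r j p e.1) (f : St → ℕ) :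
    (D.map fun s => wt N h r j p L s * f s).sum =
      (L.map fun e => e.2.val * ((succs N h r j p e.1).map f).sum).sum := by
  have hT' : ∀ e ∈ L, ∀ s ∈ succs N h r j p e.1, s ∈ D := fun e he s hs =>
    (hT s).2 (List.mem_flatMap.2 ⟨e, he, hs⟩)
  clear hT
  induction L with
  | nil => simp [wt]
  | cons e L ih =>
    have h1 := ih (fun e' he' => hT' e' (List.mem_cons_of_mem _ he'))
    have h2 := sum_count_aux D hD f (succs N h r j p e.1) (hT' e List.mem_cons_self)
    rw [List.map_cons, List.sum_cons, ← h1, ← h2, ← List.sum_map_mul_left, ← List.sum_map_add]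
    congr 1
    apply List.map_congr_left
    intro s _
    unfold wt
    rw [List.map_cons, List.sum_cons]
    ring

theorem lay_inv {N h r j M : ℕ} {U : Finset St} (hU : U.card ≤ M) (h0 : start h ∈ U)
    (hs : ∀ p < len N h, ∀ s ∈ U, ∀ s' ∈ succs N h r j p s, s' ∈ U) : ∀ p ≤ len N h,
    (∀ e ∈ lay N h r j M p, e.1 ∈ U) ∧
      ((lay N h r j M p).map fun e => e.2.val * cnt N h r j (len N h - p) e.1).sum =
        cnt N h r j (len N h) (start h) := by
  intro p
  induction p with
  | zero =>
    intro _
    constructor
    · intro e he
      simp only [lay, List.mem_singleton] at he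
      rw [he]; exact h0
    · simp [lay]
  | succ p ih =>
    intro hp
    obtain ⟨i1, i2⟩ := ih (by omega)
    set L := lay N h r j M p with hL
    set T := L.flatMap fun e => succs N h r j p e.1 with hTd
    have hTU : ∀ s ∈ T, s ∈ U := by
      intro s hsT
      obtain ⟨e, he, hse⟩ := List.mem_flatMap.1 hsT
      exact hs p (by omega) e.1 (i1 e he) s hse
    have hcard : T.toFinset.card ≤ M := (Finset.card_le_card (fun s hsT =>
      hTU s (List.mem_toFinset.1 hsT))).trans hU
    have hmem : ∀ s, s ∈ dd M T ↔ s ∈ T := fun s => ⟨mem_of_dd, mem_dd hcard⟩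
    constructor
    · intro e he
      simp only [lay, stp, List.mem_map] at he
      obtain ⟨s, hs1, rfl⟩ := he
      exact hTU s ((hmem s).1 hs1)
    · have h1 := sum_wt L (dd M T) (nodup_dd M T) hmem (fun s => cnt N h r j (len N h - (p + 1)) s)
      have h2 : (lay N h r j M (p + 1)).map (fun e => e.2.val * cnt N h r j (len N h - (p + 1)) e.1) =
          (dd M T).map fun s => wt N h r j p L s * cnt N h r j (len N h - (p + 1)) s := by
        simp only [lay, stp, List.map_map]
        rfl
      rw [h2, h1, ← i2]
      congr 1
      apply List.map_congr_left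
      intro e _
      have h3 : len N h - p = (len N h - (p + 1)) + 1 := by omega
      rw [h3, cnt_succs]
      have h4 : len N h - (len N h - (p + 1) + 1) = p := by omega
      rw [h4]

theorem fwd_eq {N h r j M : ℕ} {U : Finset St} (hU : U.card ≤ M) (h0 : start h ∈ U)
    (hs : ∀ p < len N h, ∀ s ∈ U, ∀ s' ∈ succs N h r j p s, s' ∈ U) :
    fwd N h r j M = cnt N h r j (len N h) (start h) := by
  obtain ⟨-, h2⟩ := lay_inv hU h0 hs (len N h) (le_refl _)
  rw [← h2, fwd]
  congr 1
  apply List.map_congr_left
  intro e _
  rw [Nat.sub_self]
  simp only [cnt]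
  split_ifs <;> simp

end Pool.Agent.Lib.MP_104326_lc
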