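import Pool.Agent.Lib.MP_104326_lc.Auto
import Pool.Agent.Lib.PolyTime.BinNat

/-! KC, module D2a: definitions of the forward computation, and the list `dd M l` of the different
elements of `l` (at most `M`).

PROOFS. `dd_spec`: by induction on `l` (append at the end, `List.reverseRecOn`, or for a general start
list): the result `u` is `Nodup`, `∀ s ∈ u, s ∈ l`, `u.length ≤ M`, and: if `l.toFinset.card ≤ M` then
every `s ∈ l` is in `u`. For the last point, in a step with `s ∉ u` and `¬ u.length < M`, so
`u.length = M`: `u.toFinset` has `M` elements, all in the final `l.toFinset`, which has at most `M`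
elements, so they are equal and `s ∈ u`, a contradiction. (State it for prefixes: for all prefixes `l'` of
`l`, `dd M l'` is nodup, contained in `l'`, contains `l'`.)
`cnt_succs`: the sum over `a ∈ List.range (j + 1)` of `if ok … then cnt … else 0` is the sum over the
filtered list. -/

namespace Pool.Agent.Lib.MP_104326_lc

open Pool.Agent.Lib.PolyTime

/-- The different elements of a list, at most `M`. -/
def dd (M : ℕ) (l : List St) : List St :=
  l.foldl (fun u s => if decide (u.length < M) && !(u.any fun s' => decide (s' = s)) then s :: u
    else u) []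

/-- The states which can follow. -/
def succs (N h r j p : ℕ) (st : St) : List St :=
  ((List.range (j + 1)).filter fun a => ok N h r p st a).map fun a => nxt N h p st a

/-- The weight of `s` in the next layer. -/
def wt (N h r j p : ℕ) (L : List (St × BN)) (s : St) : ℕ :=
  (L.map fun e => e.2.val *
    ((succs N h r j p e.1).filter fun s' => decide (s' = s)).length).sum

/-- One step of the forward computation. -/
def stp (N h r j M p : ℕ) (L : List (St × BN)) : List (St × BN) :=
  (dd M (L.flatMap fun e => succs N h r j p e.1)).map fun s => (s, ⟨wt N h r j p L s⟩)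

/-- The layers of the forward computation. -/
def lay (N h r j M : ℕ) : ℕ → List (St × BN)
  | 0 => [(start h, ⟨1⟩)]
  | p + 1 => stp N h r j M p (lay N h r j M p)

/-- The number of the accepted words, computed forward. -/
def fwd (N h r j M : ℕ) : ℕ :=
  ((lay N h r j M (len N h)).map fun e => if acc N h r e.1 then e.2.val else 0).sum

/-- One step of `dd`. -/
def ddStep (M : ℕ) (u : List St) (s : St) : List St :=
  if decide (u.length < M) && !(u.any fun s' => decide (s' = s)) then s :: u else u

theorem ddStep_eq (M : ℕ) (u : List St) (s : St) :
    ddStep M u s = if u.length < M ∧ s ∉ u then s :: u else u := by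
  unfold ddStep
  by_cases h : u.length < M ∧ s ∉ u
  · rw [if_pos h, if_pos]
    have h2 : (u.any fun s' => decide (s' = s)) = false := by
      rw [List.any_eq_false]
      intro x hx hxs
      exact h.2 ((of_decide_eq_true hxs) ▸ hx)
    simp [h.1, h2]
  · rw [if_neg h, if_neg]
    intro hc
    rw [Bool.and_eq_true, decide_eq_true_eq] at hc
    refine h ⟨hc.1, fun hs => ?_⟩
    have h2 : (u.any fun s' => decide (s' = s)) = true :=
      List.any_eq_true.2 ⟨s, hs, decide_eq_true rfl⟩
    rw [h2] at hc
    exact absurd hc.2 (by decide)

theorem dd_eq (M : ℕ) (l : List St) : dd M l = l.foldl (ddStep M) [] := rfl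

theorem subset_foldl_dd (M : ℕ) (l : List St) : ∀ u : List St, u ⊆ l.foldl (ddStep M) u := by
  induction l with
  | nil => intro u; exact List.Subset.refl _
  | cons a l ih =>
    intro u x hx
    rw [List.foldl_cons]
    apply ih
    rw [ddStep_eq]
    split_ifs
    · exact List.mem_cons_of_mem _ hx
    · exact hx

theorem foldl_dd_nodup (M : ℕ) (l : List St) :
    ∀ u : List St, u.Nodup → (l.foldl (ddStep M) u).Nodup := by
  induction l with
  | nil => intro u hu; exact hu
  | cons a l ih =>
    intro u hu
    rw [List.foldl_cons]
    apply ih
    rw [ddStep_eq]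
    split_ifs with h
    · exact List.nodup_cons.2 ⟨h.2, hu⟩
    · exact hu

theorem foldl_dd_mem (M : ℕ) (l : List St) :
    ∀ (u : List St) (s : St), s ∈ l.foldl (ddStep M) u → s ∈ u ∨ s ∈ l := by
  induction l with
  | nil => intro u s hs; exact Or.inl hs
  | cons a l ih =>
    intro u s hs
    rw [List.foldl_cons] at hs
    rcases ih _ s hs with h | h
    · rw [ddStep_eq] at h
      split_ifs at h with hc
      · rcases List.mem_cons.1 h with h1 | h1
        · exact Or.inr (List.mem_cons.2 (Or.inl h1))
        · exact Or.inl h1
      · exact Or.inl h
    · exact Or.inr (List.mem_cons_of_mem _ h)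

theorem foldl_dd_length (M : ℕ) (l : List St) :
    ∀ u : List St, u.length ≤ M → (l.foldl (ddStep M) u).length ≤ M := by
  induction l with
  | nil => intro u hu; exact hu
  | cons a l ih =>
    intro u hu
    rw [List.foldl_cons]
    apply ih
    rw [ddStep_eq]
    split_ifs with h
    · rw [List.length_cons]; omega
    · exact hu

theorem foldl_dd_complete (M : ℕ) (l : List St) :
    ∀ u : List St, u.Nodup → u.length ≤ M → (u.toFinset ∪ l.toFinset).card ≤ M →
      ∀ s ∈ l, s ∈ l.foldl (ddStep M) u := by
  induction l with
  | nil => intro u _ _ _ s hs; exact absurd hs (by simp)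
  | cons a l ih =>
    intro u hu hlen hcard s hs
    rw [List.foldl_cons]
    have hmem : a ∈ ddStep M u a := by
      rw [ddStep_eq]
      split_ifs with h
      · exact List.mem_cons_self
      · by_contra ha
        apply h
        refine ⟨?_, ha⟩
        have h1 : insert a u.toFinset ⊆ u.toFinset ∪ (a :: l).toFinset := by
          intro x hx
          rcases Finset.mem_insert.1 hx with h2 | h2
          · rw [h2]; simp
          · exact Finset.mem_union_left _ h2
        have h2 := (Finset.card_le_card h1).trans hcard
        rw [Finset.card_insert_of_notMem (by simpa using ha), List.toFinset_card_of_nodup hu] at h2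
        omega
    rcases List.mem_cons.1 hs with h | h
    · rw [h]
      exact subset_foldl_dd M l _ hmem
    · refine ih _ ?_ ?_ ?_ s h
      · exact foldl_dd_nodup M [a] u hu
      · exact foldl_dd_length M [a] u hlen
      · refine (Finset.card_le_card ?_).trans hcard
        intro x hx
        rcases Finset.mem_union.1 hx with h2 | h2
        · have h3 := foldl_dd_mem M [a] u x (List.mem_toFinset.1 h2)
          rcases h3 with h4 | h4
          · exact Finset.mem_union_left _ (List.mem_toFinset.2 h4)
          · refine Finset.mem_union_right _ (List.mem_toFinset.2 ?_)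
            rw [List.mem_singleton] at h4
            rw [h4]
            exact List.mem_cons_self
        · exact Finset.mem_union_right _
            (List.mem_toFinset.2 (List.mem_cons_of_mem _ (List.mem_toFinset.1 h2)))

theorem nodup_dd (M : ℕ) (l : List St) : (dd M l).Nodup := by
  rw [dd_eq]
  exact foldl_dd_nodup M l [] List.nodup_nil

theorem mem_of_dd {M : ℕ} {l : List St} {s : St} (h : s ∈ dd M l) : s ∈ l := by
  rw [dd_eq] at h
  rcases foldl_dd_mem M l [] s h with h1 | h1
  · exact absurd h1 (by simp)
  · exact h1

theorem length_dd (M : ℕ) (l : List St) : (dd M l).length ≤ M := by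
  rw [dd_eq]
  exact foldl_dd_length M l [] (by simp)

theorem mem_dd {M : ℕ} {l : List St} (h : l.toFinset.card ≤ M) {s : St} (hs : s ∈ l) :
    s ∈ dd M l := by
  rw [dd_eq]
  refine foldl_dd_complete M l [] List.nodup_nil (by simp) ?_ s hs
  simpa using h

theorem sum_map_ite_filter {α : Type} (p : α → Bool) (g : α → ℕ) (l : List α) :
    (l.map fun a => if p a then g a else 0).sum = ((l.filter p).map g).sum := by
  induction l with
  | nil => rfl
  | cons a l ih =>
    rw [List.map_cons, List.sum_cons, ih]
    by_cases h : p a
    · rw [if_pos h, List.filter_cons_of_pos h, List.map_cons, List.sum_cons]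
    · rw [if_neg h, List.filter_cons_of_neg h, Nat.zero_add]

theorem cnt_succs (N h r j m : ℕ) (st : St) : cnt N h r j (m + 1) st =
    ((succs N h r j (len N h - (m + 1)) st).map fun s => cnt N h r j m s).sum := by
  unfold succs
  rw [List.map_map]
  change ((List.range (j + 1)).map fun a =>
      if ok N h r (len N h - (m + 1)) st a then
        cnt N h r j m (nxt N h (len N h - (m + 1)) st a) else 0).sum = _
  exact sum_map_ite_filter (fun a => ok N h r (len N h - (m + 1)) st a)
    (fun a => cnt N h r j m (nxt N h (len N h - (m + 1)) st a)) (List.range (j + 1))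

end Pool.Agent.Lib.MP_104326_lc
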