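import Pool.Agent.Lib.MP_104326_lc.KC.C1
import Pool.Agent.Lib.MP_104326_lc.KC.D2a

/-! KC, module D2c: the number of the states.

PROOF. Let `X = 8 * (N + 1) ^ 3`, `B = cutN N * (N + 1)`. `length_words`: `(words B m).length = B ^ m`
(induction). Let `W B m := (words B m).toFinset` (lists of length `m` with entries `< B`, `mem_words`;
card `≤ B ^ m`), and
`U := (Finset.range (N + 1) ×ˢ W (N + 1) h) ×ˢ (W (N + 1) h ×ˢ (Finset.range (h + 1)).biUnion (W B))`.
Its card is `≤ (N + 1) * (N + 1) ^ h * (N + 1) ^ h * ∑ i ∈ range (h + 1), B ^ i`, and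
`∑ i ∈ range (h + 1), B ^ i ≤ (B + 1) ^ h` (induction on `h`), `N + 1 ≤ X`,
`B + 1 = (2 N + 1) (2 N + 2) (N + 1) + 1 ≤ X`; so the card is `≤ X ^ (1 + h + h + h)`.
`start h ∈ U`. Closure: let `s ∈ U`, `p < len N h`, `a ≤ j ≤ N` with `ok N h r p s a`,
`s' = nxt N h p s a`. Case `p < cutN N`: `a = 0`: `s' = s`. Otherwise `okCut` says `s.1.1 + 1 ≤ N` and
`s.2.2.length + 1 ≤ h`, and the new code is `p * (N + 1) + a < cutN N * (N + 1)` as `p + 1 ≤ cutN N`,
`a ≤ N`. Case `cutN N ≤ p` (then `h ≥ 1`): the new first list has length `h` and entries `a ≤ N` or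
`s.1.2.getD (k - 1) 0`, an entry or `0`; the counters: the entry `k = (p - cutN N) % h` increases only if
`a ≠ 0`, and then `okIn` says `s.2.1.getD k 0 + 1 ≤ N`; `s.1.1 + 1 ≤ N` if `a ≠ 0`. -/

namespace Pool.Agent.Lib.MP_104326_lc

open Pool.Agent.Lib.PolyTime

theorem length_words (B m : ℕ) : (words B m).length = B ^ m := by
  induction m with
  | zero => simp [words]
  | succ m ih =>
    rw [words, List.length_flatMap]
    have h1 : (List.map (fun a => (List.map (fun w => a :: w) (words B m)).length)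
        (List.range B)) = List.replicate B (B ^ m) := by
      rw [List.eq_replicate_iff]
      refine ⟨by simp, ?_⟩
      intro b hb
      obtain ⟨a, -, rfl⟩ := List.mem_map.1 hb
      rw [List.length_map, ih]
    rw [h1, List.sum_replicate, smul_eq_mul, pow_succ, mul_comm]

private theorem card_W (B m : ℕ) : (words B m).toFinset.card ≤ B ^ m :=
  (List.toFinset_card_le _).trans (length_words B m).le

private theorem geo_le (B h : ℕ) : ∑ i ∈ Finset.range (h + 1), B ^ i ≤ (B + 1) ^ h := by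
  induction h with
  | zero => simp
  | succ h ih =>
    rw [Finset.sum_range_succ, pow_succ (B + 1) h, pow_succ B h]
    have h1 : B ^ h ≤ (B + 1) ^ h := Nat.pow_le_pow_left (Nat.le_succ B) h
    have h2 : B ^ h * B ≤ (B + 1) ^ h * B := Nat.mul_le_mul_right _ h1
    have h3 : (B + 1) ^ h * (B + 1) = (B + 1) ^ h * B + (B + 1) ^ h := by ring
    omega

private theorem mem_W {B m : ℕ} {w : List ℕ} :
    w ∈ (words B m).toFinset ↔ w.length = m ∧ ∀ a ∈ w, a < B := by
  rw [List.mem_toFinset, mem_words]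

private theorem getD_lt {B : ℕ} (hB : 0 < B) {w : List ℕ} (hw : ∀ a ∈ w, a < B) (k : ℕ) :
    w.getD k 0 < B := by
  rcases lt_or_ge k w.length with hk | hk
  · rw [List.getD_eq_getElem _ _ hk]
    exact hw _ (List.getElem_mem hk)
  · rw [List.getD_eq_default _ _ hk]
    exact hB

private def univ0 (N h : ℕ) : Finset St :=
  (Finset.range (N + 1) ×ˢ (words (N + 1) h).toFinset) ×ˢ ((words (N + 1) h).toFinset ×ˢ
    (Finset.range (h + 1)).biUnion fun i => (words (cutN N * (N + 1)) i).toFinset)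

private theorem mem_univ0 {N h : ℕ} {s : St} : s ∈ univ0 N h ↔
    (s.1.1 < N + 1 ∧ (s.1.2.length = h ∧ ∀ a ∈ s.1.2, a < N + 1)) ∧
      ((s.2.1.length = h ∧ ∀ a ∈ s.2.1, a < N + 1) ∧
        (s.2.2.length < h + 1 ∧ ∀ a ∈ s.2.2, a < cutN N * (N + 1))) := by
  simp only [univ0, Finset.mem_product, Finset.mem_range, mem_W, Finset.mem_biUnion]
  constructor
  · rintro ⟨h1, h2, i, hi, h3, h4⟩
    exact ⟨h1, h2, by omega, h4⟩
  · rintro ⟨h1, h2, h3, h4⟩
    exact ⟨h1, h2, s.2.2.length, h3, rfl, h4⟩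

private theorem card_univ0 (N h : ℕ) : (univ0 N h).card ≤ (8 * (N + 1) ^ 3) ^ (3 * h + 1) := by
  have hX1 : N + 1 ≤ 8 * (N + 1) ^ 3 := by
    nlinarith [Nat.zero_le N, Nat.zero_le (N ^ 2), Nat.zero_le (N ^ 3)]
  have hX2 : cutN N * (N + 1) + 1 ≤ 8 * (N + 1) ^ 3 := by
    unfold cutN
    nlinarith [Nat.zero_le N, Nat.zero_le (N ^ 2), Nat.zero_le (N ^ 3)]
  set X := 8 * (N + 1) ^ 3 with hX
  have h1 : ((Finset.range (h + 1)).biUnion fun i =>
      (words (cutN N * (N + 1)) i).toFinset).card ≤ X ^ h := by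
    refine Finset.card_biUnion_le.trans ?_
    refine (Finset.sum_le_sum fun i _ => card_W (cutN N * (N + 1)) i).trans ?_
    exact (geo_le _ _).trans (Nat.pow_le_pow_left hX2 h)
  have h2 : (words (N + 1) h).toFinset.card ≤ X ^ h :=
    (card_W _ _).trans (Nat.pow_le_pow_left hX1 h)
  rw [univ0, Finset.card_product, Finset.card_product, Finset.card_product, Finset.card_range]
  have h3 : X ^ (3 * h + 1) = (X * X ^ h) * (X ^ h * X ^ h) := by
    rw [show 3 * h + 1 = 1 + h + (h + h) by ring, pow_add, pow_add X 1 h, pow_add X h h, pow_one]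
  rw [h3]
  exact Nat.mul_le_mul (Nat.mul_le_mul hX1 h2) (Nat.mul_le_mul h2 h1)

private theorem start_mem (N h : ℕ) : start h ∈ univ0 N h := by
  rw [mem_univ0]
  refine ⟨⟨Nat.succ_pos N, ?_, ?_⟩, ⟨?_, ?_⟩, ?_, ?_⟩
  · simp [start]
  · intro a ha
    have : a = 0 := List.eq_of_mem_replicate ha
    omega
  · simp [start]
  · intro a ha
    have : a = 0 := List.eq_of_mem_replicate ha
    omega
  · simp [start]
  · intro a ha
    simp [start] at ha

private theorem nxt_mem {N h r p a : ℕ} {s : St} (ha : a ≤ N)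
    (hs : s ∈ univ0 N h) (hok : ok N h r p s a = true) : nxt N h p s a ∈ univ0 N h := by
  rw [mem_univ0] at hs ⊢
  obtain ⟨⟨h1, h2, h3⟩, ⟨h4, h5⟩, h6, h7⟩ := hs
  rw [ok, Bool.and_eq_true] at hok
  obtain ⟨-, hok⟩ := hok
  by_cases hc : p < cutN N
  · rw [if_pos hc, okCut, Bool.and_eq_true] at hok
    obtain ⟨-, hok⟩ := hok
    rw [nxt, if_pos hc]
    by_cases ha0 : a = 0
    · rw [if_pos ha0]
      exact ⟨⟨h1, h2, h3⟩, ⟨h4, h5⟩, h6, h7⟩
    · rw [if_neg ha0]
      simp only [ha0, decide_false, Bool.false_or, Bool.and_eq_true, decide_eq_true_eq] at hok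
      obtain ⟨hk1, hk2⟩ := hok
      refine ⟨⟨?_, h2, h3⟩, ⟨h4, h5⟩, ?_, ?_⟩
      · show s.1.1 + 1 < N + 1
        omega
      · show ((p * (N + 1) + a) :: s.2.2).length < h + 1
        rw [List.length_cons]
        omega
      · intro b hb
        rcases List.mem_cons.1 hb with rfl | hb
        · have : (p + 1) * (N + 1) ≤ cutN N * (N + 1) := Nat.mul_le_mul_right _ hc
          nlinarith
        · exact h7 b hb
  · rw [if_neg hc, okIn] at hok
    simp only [Bool.and_eq_true] at hok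
    obtain ⟨-, -, -, -, hok⟩ := hok
    rw [nxt, if_neg hc]
    refine ⟨⟨?_, ?_, ?_⟩, ⟨?_, ?_⟩, h6, h7⟩
    · show (if a = 0 then s.1.1 else s.1.1 + 1) < N + 1
      by_cases ha0 : a = 0
      · rw [if_pos ha0]
        exact h1
      · rw [if_neg ha0]
        simp only [ha0, decide_false, Bool.false_or, Bool.and_eq_true, decide_eq_true_eq] at hok
        omega
    · simp
    · intro b hb
      obtain ⟨k, -, rfl⟩ := List.mem_map.1 hb
      by_cases hk : k = 0
      · rw [if_pos hk]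
        omega
      · rw [if_neg hk]
        exact getD_lt (Nat.succ_pos N) h3 _
    · simp
    · intro b hb
      obtain ⟨k, -, rfl⟩ := List.mem_map.1 hb
      have hg := getD_lt (Nat.succ_pos N) h5 k
      by_cases hk : k = (p - cutN N) % h ∧ a ≠ 0
      · rw [if_pos hk]
        obtain ⟨hk1, ha0⟩ := hk
        simp only [ha0, decide_false, Bool.false_or, Bool.and_eq_true, decide_eq_true_eq] at hok
        rw [← hk1] at hok
        omega
      · rw [if_neg hk]
        exact hg

theorem exists_univ {N h r j : ℕ} (hj : j ≤ N) : ∃ U : Finset St,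
    U.card ≤ (8 * (N + 1) ^ 3) ^ (3 * h + 1) ∧ start h ∈ U ∧
      ∀ p < len N h, ∀ s ∈ U, ∀ s' ∈ succs N h r j p s, s' ∈ U := by
  refine ⟨univ0 N h, card_univ0 N h, start_mem N h, ?_⟩
  intro p _ s hs s' hs'
  rw [succs] at hs'
  obtain ⟨a, ha, rfl⟩ := List.mem_map.1 hs'
  obtain ⟨ha1, ha2⟩ := List.mem_filter.1 ha
  have ha3 : a ≤ N := by
    have := List.mem_range.1 ha1
    omega
  exact nxt_mem ha3 hs ha2

end Pool.Agent.Lib.MP_104326_lc
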