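import Pool.Agent.Lib.MP_104326_lc.KC.D2a

/-! KC, definitions of the last part. -/

namespace Pool.Agent.Lib.MP_104326_lc

/-- The part of the sum with `j = b` modulo `2`. -/
def cPart (b N M : ℕ) : ℕ :=
  ((List.range (Nat.sqrt N + 1)).map fun r => ((List.range N).map fun j =>
    if j % 2 = b then N.choose (j + 1) * fwd N (Nat.sqrt N) r (j + 1) M else 0).sum).sum

/-- The number of fixed polyominoes, computed with the bound `M` for the number of states. -/
def tPad (N M : ℕ) : ℕ := (cPart 0 N M - cPart 1 N M) / N

/-- The exponent of the bound for the number of states. -/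
def ex (N : ℕ) : ℕ := (3 + 3 * Nat.size (N + 1)) * (3 * Nat.sqrt N + 1)

/-- The number of the `y ≤ L * D` such that `y / D ≤ t(p)^(1/p)` for some `p ≤ m`. -/
def ybest (L D m M : ℕ) : ℕ :=
  ((List.range (L * D)).filter fun y => (List.range m).any fun p =>
    decide ((y + 1) ^ (p + 1) ≤ D ^ (p + 1) * tPad (p + 1) M)).length

end Pool.Agent.Lib.MP_104326_lc
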