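import Pool.Agent.Lib.MP_104326_lc.KC.A2
import Pool.Agent.Lib.MP_104326_lc.KC.C4
import Pool.Agent.Lib.MP_104326_lc.KC.D2b
import Pool.Agent.Lib.MP_104326_lc.KC.D2c
import Pool.Agent.Lib.MP_104326_lc.KC.DefsD

/-! KC, module D5a: `tPad N M = t N` if `M` is large.

PROOF. With `h = Nat.sqrt N`: by `exists_univ` and `fwd_eq` (`hM`) `fwd N h r (j + 1) M =
cnt N h r (j + 1) (len N h) (start h)` for `j + 1 ≤ N`. By `c_formula_sqrt` `(c N : ℤ)` is the sum over
`r`, `j` of `(-1)^j * C(N, j+1) * fwd`, which is `cPart 0 N M - cPart 1 N M` (split according to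
`j % 2`; `(-1)^j = 1` for even `j`, `-1` for odd `j`; list sums over `List.range` are Finset sums
over `Finset.range`). So `c N = cPart 0 N M - cPart 1 N M` in `ℕ`. By `c_eq` `c N = N * t N`, so
`tPad N M = t N` (`Nat.mul_div_cancel_left`). -/

namespace Pool.Agent.Lib.MP_104326_lc

private theorem D5a_sum (f : ℕ → ℕ) (n : ℕ) :
    ((List.range n).map f).sum = ∑ i ∈ Finset.range n, f i := by
  induction n with
  | zero => simp
  | succ n ih => rw [List.range_succ, List.map_append, List.sum_append, ih, Finset.sum_range_succ]; simp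

private theorem D5a_cPart (b N M : ℕ) : cPart b N M =
    ∑ r ∈ Finset.range (Nat.sqrt N + 1), ∑ j ∈ Finset.range N,
      if j % 2 = b then N.choose (j + 1) * fwd N (Nat.sqrt N) r (j + 1) M else 0 := by
  unfold cPart
  rw [D5a_sum]
  apply Finset.sum_congr rfl
  intro r _
  rw [D5a_sum]

theorem tPad_eq {N M : ℕ} (hN : 1 ≤ N) (hM : (8 * (N + 1) ^ 3) ^ (3 * Nat.sqrt N + 1) ≤ M) :
    tPad N M = t N := by
  have hf : ∀ r : ℕ, ∀ j < N, fwd N (Nat.sqrt N) r (j + 1) M =
      cnt N (Nat.sqrt N) r (j + 1) (len N (Nat.sqrt N)) (start (Nat.sqrt N)) := by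
    intro r j hj
    obtain ⟨U, h1, h2, h3⟩ := exists_univ (N := N) (h := Nat.sqrt N) (r := r) (j := j + 1)
      (by omega)
    exact fwd_eq (h1.trans hM) h2 h3
  have hc : (c N : ℤ) = (cPart 0 N M : ℤ) - (cPart 1 N M : ℤ) := by
    rw [c_formula_sqrt hN, D5a_cPart, D5a_cPart, Nat.cast_sum, Nat.cast_sum,
      ← Finset.sum_sub_distrib]
    apply Finset.sum_congr rfl
    intro r _
    rw [Nat.cast_sum, Nat.cast_sum, ← Finset.sum_sub_distrib]
    apply Finset.sum_congr rfl
    intro j hj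
    rw [Finset.mem_range] at hj
    rw [← hf r j hj]
    rcases Nat.mod_two_eq_zero_or_one j with h0 | h0
    · rw [if_pos h0, if_neg (by omega), Even.neg_one_pow (Nat.even_iff.2 h0)]
      push_cast
      ring
    · rw [if_neg (by omega), if_pos h0, Odd.neg_one_pow (Nat.odd_iff.2 h0)]
      push_cast
      ring
  have hc' : cPart 0 N M - cPart 1 N M = c N := by omega
  unfold tPad
  rw [hc', c_eq hN, Nat.mul_div_cancel_left _ (by omega)]

end Pool.Agent.Lib.MP_104326_lc
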