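import Pool.Agent.Lib.MP_104326_lc.KC.D2a

/-! KC, module D3b: the sizes of the layers.

PROOF. `bd_nxt`: cases of `nxt` (for `a ≤ j`): the count increases by at most one; the first list is
unchanged or has length `h` and entries `a` or `getD` of the old one (default `0`); the counters increase
by at most one; at most one new code `p * (N + 1) + a ≤ p * (N + 1) + j`; everything is monotone in `p`.
`lay_bd`: induction on `p`: for all `e ∈ lay p`: `Bd N h j p e.1` and `e.2.val ≤ ((M + 1) * (j + 1)) ^ p`, and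
`(lay p).length ≤ M + 1`. Step: elements of `stp` are `(s, ⟨wt s⟩)` with `s ∈ dd M T`, so `s = nxt … a` for
an `e ∈ lay p` and `a ≤ j` (`mem_of_dd`), and `wt s ≤ ∑ e, ((M + 1) * (j + 1)) ^ p * (j + 1)` (the
filtered list has length `≤ j + 1`), which is `≤ (M + 1) * (j + 1) * ((M + 1) * (j + 1)) ^ p`;
`length_dd`.
`size_lay`: by `size_list_le`, `size_prod`, `size_nat` (`size n = 2 * n + 1`) and
`size_BN_le_of_lt` (`((M + 1) * (j + 1)) ^ p < 2 ^ ((M + 1) * (j + 1) * p + 1)`, from `y ≤ 2 ^ y`)
one gets for every entry `size e.1 ≤ (2 p + 1) + (h (2 j + 2) + 1) + (h (2 p + 2) + 1) +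
(p (2 (p (N + 1) + j) + 2) + 1) + 3` and `size e.2 ≤ 4 * ((M + 1) * (j + 1) * p + 1) + 1`, thus the
polynomial bound. (Any explicit bound, polynomial in the arguments, is fine: you may change the
definition of `szB` if you need a larger one, it is only used in D3c through `PB`.) -/

namespace Pool.Agent.Lib.MP_104326_lc

open Pool.Agent.Lib.PolyTime

/-- The sizes of the parts of a state after `p` steps. -/
structure Bd (N h j p : ℕ) (st : St) : Prop where
  a1 : st.1.1 ≤ p
  a2 : st.1.2.length = h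
  a3 : ∀ b ∈ st.1.2, b ≤ j
  a4 : st.2.1.length = h
  a5 : ∀ b ∈ st.2.1, b ≤ p
  a6 : st.2.2.length ≤ p
  a7 : ∀ b ∈ st.2.2, b ≤ p * (N + 1) + j

/-- The bound of the size of a layer. -/
def szB (N h j M p : ℕ) : ℕ :=
  (M + 1) * ((2 * p + 1) + (h * (2 * j + 2) + 1) + (h * (2 * p + 2) + 1) +
    (p * (2 * (p * (N + 1) + j) + 2) + 1) + 3 + (4 * ((M + 1) * (j + 1) * p + 1) + 1) + 2) + 1

theorem d3b_getD_le {l : List ℕ} {c i : ℕ} (h : ∀ b ∈ l, b ≤ c) : l.getD i 0 ≤ c := by
  rcases Nat.lt_or_ge i l.length with hi | hi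
  · rw [List.getD_eq_getElem _ _ hi]
    exact h _ (List.getElem_mem hi)
  · rw [List.getD_eq_default _ _ hi]
    exact Nat.zero_le c

theorem bd_nxt {N h j p a : ℕ} {st : St} (h1 : Bd N h j p st) (ha : a ≤ j) :
    Bd N h j (p + 1) (nxt N h p st a) := by
  obtain ⟨b1, b2, b3, b4, b5, b6, b7⟩ := h1
  have hm : p * (N + 1) + j ≤ (p + 1) * (N + 1) + j :=
    Nat.add_le_add_right (Nat.mul_le_mul_right _ (Nat.le_succ p)) _
  unfold nxt
  by_cases hp : p < cutN N
  · rw [if_pos hp]
    by_cases h0 : a = 0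
    · rw [if_pos h0]
      exact ⟨b1.trans (Nat.le_succ p), b2, b3, b4, fun b hb => (b5 b hb).trans (Nat.le_succ p),
        b6.trans (Nat.le_succ p), fun b hb => (b7 b hb).trans hm⟩
    · rw [if_neg h0]
      refine ⟨Nat.succ_le_succ b1, b2, b3, b4, fun b hb => (b5 b hb).trans (Nat.le_succ p), ?_, ?_⟩
      · simp only [List.length_cons]
        omega
      · intro b hb
        rcases List.mem_cons.1 hb with rfl | hb
        · exact (Nat.add_le_add_left ha _).trans hm
        · exact (b7 b hb).trans hm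
  · rw [if_neg hp]
    refine ⟨?_, ?_, ?_, ?_, ?_, b6.trans (Nat.le_succ p), fun b hb => (b7 b hb).trans hm⟩
    · show (if a = 0 then st.1.1 else st.1.1 + 1) ≤ p + 1
      split_ifs <;> omega
    · simp
    · intro b hb
      obtain ⟨k, _, rfl⟩ := List.mem_map.1 hb
      split_ifs
      · exact ha
      · exact d3b_getD_le b3
    · simp
    · intro b hb
      obtain ⟨k, _, rfl⟩ := List.mem_map.1 hb
      have h3 : st.2.1.getD k 0 ≤ p := d3b_getD_le b5
      split_ifs
      · omega
      · omega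

theorem d3b_start (N h j : ℕ) : Bd N h j 0 (start h) := by
  refine ⟨le_refl _, ?_, ?_, ?_, ?_, ?_, ?_⟩
  · simp [start]
  · intro b hb
    have h2 : b = 0 := List.eq_of_mem_replicate hb
    omega
  · simp [start]
  · intro b hb
    have h2 : b = 0 := List.eq_of_mem_replicate hb
    omega
  · simp [start]
  · intro b hb
    simp [start] at hb

theorem d3b_succs_le (N h r j p : ℕ) (st : St) (f : St → Bool) :
    ((succs N h r j p st).filter f).length ≤ j + 1 := by
  refine (List.length_filter_le _ _).trans ?_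
  unfold succs
  rw [List.length_map]
  refine (List.length_filter_le _ _).trans ?_
  rw [List.length_range]

theorem lay_bd (N h r j M : ℕ) : ∀ p, (lay N h r j M p).length ≤ M + 1 ∧
    ∀ e ∈ lay N h r j M p, Bd N h j p e.1 ∧ e.2.val ≤ ((M + 1) * (j + 1)) ^ p := by
  intro p
  induction p with
  | zero =>
    refine ⟨?_, ?_⟩
    · show 1 ≤ M + 1
      omega
    · intro e he
      have h1 : e = (start h, ⟨1⟩) := List.mem_singleton.1 he
      subst h1
      exact ⟨d3b_start N h j, le_refl _⟩
  | succ p ih =>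
    obtain ⟨ih1, ih2⟩ := ih
    refine ⟨?_, ?_⟩
    · show (stp N h r j M p (lay N h r j M p)).length ≤ M + 1
      unfold stp
      rw [List.length_map]
      exact (length_dd M _).trans (Nat.le_succ M)
    · intro e he
      have he' : e ∈ stp N h r j M p (lay N h r j M p) := he
      unfold stp at he'
      obtain ⟨s, hs, rfl⟩ := List.mem_map.1 he'
      have hs2 := mem_of_dd hs
      obtain ⟨e0, he0, hs3⟩ := List.mem_flatMap.1 hs2
      unfold succs at hs3
      obtain ⟨a, ha, rfl⟩ := List.mem_map.1 hs3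
      have ha2 : a < j + 1 := List.mem_range.1 (List.mem_filter.1 ha).1
      refine ⟨bd_nxt (ih2 e0 he0).1 (by omega), ?_⟩
      show wt N h r j p (lay N h r j M p) _ ≤ _
      unfold wt
      refine (List.sum_le_card_nsmul _ (((M + 1) * (j + 1)) ^ p * (j + 1)) ?_).trans ?_
      · intro x hx
        obtain ⟨e1, he1, rfl⟩ := List.mem_map.1 hx
        exact Nat.mul_le_mul (ih2 e1 he1).2 (d3b_succs_le N h r j p _ _)
      · rw [List.length_map, smul_eq_mul, pow_succ]
        calc (lay N h r j M p).length * (((M + 1) * (j + 1)) ^ p * (j + 1))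
            ≤ (M + 1) * (((M + 1) * (j + 1)) ^ p * (j + 1)) := Nat.mul_le_mul_right _ ih1
          _ = ((M + 1) * (j + 1)) ^ p * ((M + 1) * (j + 1)) := by ring

/-- The size of a list of numbers. -/
theorem d3b_size_le {l : List ℕ} {c : ℕ} (h : ∀ b ∈ l, b ≤ c) :
    size l ≤ l.length * (2 * c + 2) + 1 := by
  refine (size_list_le (S := 2 * c + 1) l (fun b hb => ?_)).trans (le_refl _)
  rw [size_nat]
  have := h b hb
  omega

theorem size_lay (N h r j M p : ℕ) : size (lay N h r j M p) ≤ szB N h j M p := by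
  obtain ⟨h1, h2⟩ := lay_bd N h r j M p
  unfold szB
  refine (size_list_le (S := (2 * p + 1) + (h * (2 * j + 2) + 1) + (h * (2 * p + 2) + 1) +
    (p * (2 * (p * (N + 1) + j) + 2) + 1) + 3 + (4 * ((M + 1) * (j + 1) * p + 1) + 1) + 1)
    (lay N h r j M p) ?_).trans ?_
  · intro e he
    obtain ⟨⟨b1, b2, b3, b4, b5, b6, b7⟩, b8⟩ := h2 e he
    rw [size_prod, size_prod, size_prod, size_prod, size_nat]
    have s1 : size e.1.1.2 ≤ h * (2 * j + 2) + 1 := by
      rw [← b2]
      exact d3b_size_le b3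
    have s2 : size e.1.2.1 ≤ h * (2 * p + 2) + 1 := by
      rw [← b4]
      exact d3b_size_le b5
    have s3 : size e.1.2.2 ≤ p * (2 * (p * (N + 1) + j) + 2) + 1 :=
      (d3b_size_le b7).trans (Nat.add_le_add_right (Nat.mul_le_mul_right _ b6) _)
    have s4 : size e.2 ≤ 4 * ((M + 1) * (j + 1) * p + 1) + 1 := by
      refine size_BN_le_of_lt (b8.trans_lt ?_)
      calc ((M + 1) * (j + 1)) ^ p ≤ (2 ^ ((M + 1) * (j + 1))) ^ p :=
            Nat.pow_le_pow_left Nat.lt_two_pow_self.le _
        _ = 2 ^ ((M + 1) * (j + 1) * p) := (pow_mul _ _ _).symm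
        _ < 2 ^ ((M + 1) * (j + 1) * p + 1) := Nat.pow_lt_pow_right (by norm_num) (Nat.lt_succ_self _)
    omega
  · exact Nat.add_le_add_right (Nat.mul_le_mul h1 (le_refl _)) _

end Pool.Agent.Lib.MP_104326_lc
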