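import Pool.Agent.Lib.MP_104326_lc.KC.D3a
import Pool.Agent.Lib.MP_104326_lc.KC.D3b

/-! KC, module D3c: the forward computation is polynomial time.

PROOF. `PT_lay`: `PT.iterate` with `f := p`, `init := (0, [(start h, ⟨1⟩)])`, step
`(q, L) ↦ (q + 1, stp N h r j M q L)`; by induction the `i`-th iterate is `(i, lay N h r j M i)`. The bound:
for `i ≤ p x` its size is `(2 i + 1) + size (lay i) + 1 ≤ 2 p + 2 + szB N h j M p` (`size_lay`;
`szB` is monotone in `p`), and all the parameters are bounded by polynomials of `size x` (`size_le` of the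
hypotheses and `size n = 2 n + 1`), `szB` is monotone in all arguments; so it is `≤ B (size x)` with
`PB B` (`PB.add`, `PB.mul`, `PB.const`, `PB.poly`). Then project to the second component.
`PT_fwd`: `PT.bnSum` over `lay … (len N h)` of `if acc … then e.2 else ⟨0⟩` (`PT.cond`, then
`congr`). -/

namespace Pool.Agent.Lib.MP_104326_lc

open Pool.Agent.Lib.PolyTime

variable {α : Type} [Enc α]

theorem szB_mono {N h j M p N' h' j' M' p' : ℕ} (hN : N ≤ N') (hh : h ≤ h') (hj : j ≤ j')
    (hM : M ≤ M') (hp : p ≤ p') : szB N h j M p ≤ szB N' h' j' M' p' := by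
  unfold szB
  gcongr

theorem PB_szB {N h j M p : ℕ → ℕ} (hN : PB N) (hh : PB h) (hj : PB j) (hM : PB M) (hp : PB p) :
    PB (fun n => szB (N n) (h n) (j n) (M n) (p n)) := by
  unfold szB
  repeat first
    | assumption
    | exact PB.const _
    | apply PB.add
    | apply PB.mul

theorem le_of_size_nat {a b : ℕ} (h : size a ≤ b) : a ≤ b := by
  rw [size_nat] at h
  omega

theorem lay_iterate (N h r j M i : ℕ) :
    (fun s : ℕ × List (St × BN) => (s.1 + 1, stp N h r j M s.1 s.2))^[i]
      (0, [(start h, (⟨1⟩ : BN))]) = (i, lay N h r j M i) := by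
  induction i with
  | zero => rfl
  | succ i ih => rw [Function.iterate_succ_apply', ih]; rfl

theorem PT_lay {N h r j M p : α → ℕ} (hN : PT N) (hh : PT h) (hr : PT r) (hj : PT j) (hM : PT M)
    (hp : PT p) : PT (fun x => lay (N x) (h x) (r x) (j x) (M x) (p x)) := by
  obtain ⟨pN, hpN⟩ := hN.size_le
  obtain ⟨ph, hph⟩ := hh.size_le
  obtain ⟨pj, hpj⟩ := hj.size_le
  obtain ⟨pM, hpM⟩ := hM.size_le
  obtain ⟨pp, hpp⟩ := hp.size_le
  have hstep : PT (fun y : α × (ℕ × List (St × BN)) =>
      (y.2.1 + 1, stp (N y.1) (h y.1) (r y.1) (j y.1) (M y.1) y.2.1 y.2.2)) :=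
    (PT.snd.fst'.succ).pair (PT_stp (hN.comp PT.fst) (hh.comp PT.fst) (hr.comp PT.fst)
      (hj.comp PT.fst) (hM.comp PT.fst) PT.snd.fst' PT.snd.snd')
  have hinit : PT (fun x : α => ((0 : ℕ), [(start (h x), (⟨1⟩ : BN))])) :=
    (PT.const 0).pair (PT.list1 ((PT_start hh).pair (PT.const _)))
  have hiter := PT.iterate (f := p) (init := fun x : α => ((0 : ℕ), [(start (h x), (⟨1⟩ : BN))]))
    (step := fun (x : α) (s : ℕ × List (St × BN)) =>
      (s.1 + 1, stp (N x) (h x) (r x) (j x) (M x) s.1 s.2)) hp hinit hstep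
    (B := fun n => 2 * pp.eval n + 1 +
      szB (pN.eval n) (ph.eval n) (pj.eval n) (pM.eval n) (pp.eval n) + 1)
    ((((((PB.const 2).mul (PB.poly pp)).add (PB.const 1)).add (PB_szB (PB.poly pN) (PB.poly ph)
      (PB.poly pj) (PB.poly pM) (PB.poly pp))).add (PB.const 1))) (by
      intro x i hi
      rw [lay_iterate, size_prod]
      simp only
      rw [size_nat]
      have h1 : i ≤ pp.eval (size x) := hi.trans (le_of_size_nat (hpp x))
      have h2 := size_lay (N x) (h x) (r x) (j x) (M x) i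
      have h3 := szB_mono (le_of_size_nat (hpN x)) (le_of_size_nat (hph x))
        (le_of_size_nat (hpj x)) (le_of_size_nat (hpM x)) h1
      omega)
  refine hiter.snd'.congr (fun x => ?_)
  rw [lay_iterate]

theorem PT_fwd {N h r j M : α → ℕ} (hN : PT N) (hh : PT h) (hr : PT r) (hj : PT j) (hM : PT M) :
    PT (fun x => (⟨fwd (N x) (h x) (r x) (j x) (M x)⟩ : BN)) := by
  have hg : PT (fun y : α × (St × BN) =>
      if acc (N y.1) (h y.1) (r y.1) y.2.1 then y.2.2 else (⟨0⟩ : BN)) :=
    PT.cond (PT_acc (hN.comp PT.fst) (hh.comp PT.fst) (hr.comp PT.fst) PT.snd.fst') PT.snd.snd'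
      (PT.const _)
  have hsum := PT.bnSum
    (f := fun x : α => lay (N x) (h x) (r x) (j x) (M x) (len (N x) (h x)))
    (g := fun (x : α) (e : St × BN) => if acc (N x) (h x) (r x) e.1 then e.2 else (⟨0⟩ : BN))
    (PT_lay hN hh hr hj hM (PT_len hN hh)) hg
  refine hsum.congr (fun x => ?_)
  unfold fwd
  congr 3
  funext e
  split_ifs <;> rfl

end Pool.Agent.Lib.MP_104326_lc
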