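import Pool.Agent.Lib.MP_104326_lc.KC.D0b
import Pool.Agent.Lib.MP_104326_lc.KC.D3c
import Pool.Agent.Lib.MP_104326_lc.KC.DefsD

/-! KC, module D5b: `tPad`, `ex`, `ybest` are polynomial time.

PROOFS. `PT_cPart`: `PT.bnSum` twice, `PT_bnChoose`, `PT_fwd`, `PT.bnMul`, `PT_mod`, `PT.ite`. `PT_tPad`:
`PT.bnSub`, `PT.bnDiv`, `PT.toBN`. `PT_ex`: `PT.mul`, `PT.mulConst`, `PT_size`, `PT_sqrt`. `PT_ybest`:
`PT.length`, `PT.filter`, `PT.any`, `PT.bnLe`, `PT_bnPow`, `PT.toBN`, `PT.bnMul`, `PT_tPad`. -/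

namespace Pool.Agent.Lib.MP_104326_lc

open Pool.Agent.Lib.PolyTime

variable {α : Type} [Enc α]

theorem PT_cPart {N M : α → ℕ} (b : ℕ) (hN : PT N) (hM : PT M) :
    PT (fun x => (⟨cPart b (N x) (M x)⟩ : BN)) := by
  have hin : PT (fun z : (α × ℕ) × ℕ => if z.2 % 2 = b then
      (⟨(N z.1.1).choose (z.2 + 1) *
        fwd (N z.1.1) (Nat.sqrt (N z.1.1)) z.1.2 (z.2 + 1) (M z.1.1)⟩ : BN) else ⟨0⟩) := by
    have hN3 : PT (fun z : (α × ℕ) × ℕ => N z.1.1) := (hN.comp PT.fst).comp PT.fst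
    have hM3 : PT (fun z : (α × ℕ) × ℕ => M z.1.1) := (hM.comp PT.fst).comp PT.fst
    exact PT.ite (c := fun z : (α × ℕ) × ℕ => z.2 % 2 = b)
      (PT.eq (PT_mod PT.snd (PT.const 2)) (PT.const b))
      (PT.bnMul (PT_bnChoose hN3 PT.snd.succ)
        (PT_fwd hN3 (PT_sqrt hN3) PT.fst.snd' PT.snd.succ hM3)) (PT.const _)
  have h1 := PT.bnSum (f := fun y : α × ℕ => List.range (N y.1))
    (g := fun (y : α × ℕ) (j : ℕ) => if j % 2 = b then
      (⟨(N y.1).choose (j + 1) * fwd (N y.1) (Nat.sqrt (N y.1)) y.2 (j + 1) (M y.1)⟩ : BN)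
      else ⟨0⟩) (hN.comp PT.fst).range hin
  have h2 := PT.bnSum (f := fun x : α => List.range (Nat.sqrt (N x) + 1))
    (g := fun (x : α) (r : ℕ) => (⟨((List.range (N x)).map (fun j => ((if j % 2 = b then
      (⟨(N x).choose (j + 1) * fwd (N x) (Nat.sqrt (N x)) r (j + 1) (M x)⟩ : BN)
      else ⟨0⟩) : BN).val)).sum⟩ : BN)) (PT_sqrt hN).succ.range h1
  refine h2.congr (fun x => ?_)
  unfold cPart
  congr 3
  funext r
  simp only
  congr 2
  funext j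
  split_ifs <;> rfl

theorem PT_tPad {N M : α → ℕ} (hN : PT N) (hM : PT M) :
    PT (fun x => (⟨tPad (N x) (M x)⟩ : BN)) :=
  PT.bnDiv (PT.bnSub (PT_cPart 0 hN hM) (PT_cPart 1 hN hM)) (PT.toBN hN)

theorem PT_ex {N : α → ℕ} (hN : PT N) : PT (fun x => ex (N x)) :=
  PT.mul (PT.add (PT.const 3) (PT.mulConst (PT_size hN.succ) 3))
    (PT.mulConst (PT_sqrt hN) 3).succ

theorem PT_ybest (L : ℕ) {D m M : α → ℕ} (hD : PT D) (hm : PT m) (hM : PT M) :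
    PT (fun x => ybest L (D x) (m x) (M x)) := by
  have hin : PT (fun z : (α × ℕ) × ℕ => decide ((z.1.2 + 1) ^ (z.2 + 1) ≤
      D z.1.1 ^ (z.2 + 1) * tPad (z.2 + 1) (M z.1.1))) := by
    have hD3 : PT (fun z : (α × ℕ) × ℕ => D z.1.1) := (hD.comp PT.fst).comp PT.fst
    have hM3 : PT (fun z : (α × ℕ) × ℕ => M z.1.1) := (hM.comp PT.fst).comp PT.fst
    exact PT.bnLe (PT_bnPow (PT.toBN PT.fst.snd'.succ) PT.snd.succ)
      (PT.bnMul (PT_bnPow (PT.toBN hD3) PT.snd.succ) (PT_tPad PT.snd.succ hM3))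
  have h1 : PT (fun y : α × ℕ => (List.range (m y.1)).any fun p =>
      decide ((y.2 + 1) ^ (p + 1) ≤ D y.1 ^ (p + 1) * tPad (p + 1) (M y.1))) :=
    PT.any (f := fun y : α × ℕ => List.range (m y.1))
      (p := fun (y : α × ℕ) (p : ℕ) =>
        decide ((y.2 + 1) ^ (p + 1) ≤ D y.1 ^ (p + 1) * tPad (p + 1) (M y.1)))
      (hm.comp PT.fst).range hin
  exact PT.length (PT.filter (f := fun x : α => List.range (L * D x))
    (p := fun (x : α) (y : ℕ) => (List.range (m x)).any fun p =>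
      decide ((y + 1) ^ (p + 1) ≤ D x ^ (p + 1) * tPad (p + 1) (M x)))
    (PT.mulConst hD L).range h1)

end Pool.Agent.Lib.MP_104326_lc
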