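import Pool.Agent.Lib.MP_104326_lc.KC.DefsD

/-! KC, module E0: the exponent `ex`. -/

namespace Pool.Agent.Lib.MP_104326_lc

theorem pow_ex (N : ℕ) : (8 * (N + 1) ^ 3) ^ (3 * Nat.sqrt N + 1) ≤ 2 ^ ex N := by
  have hs : N + 1 ≤ 2 ^ Nat.size (N + 1) := (Nat.lt_size_self (N + 1)).le
  have h8 : 8 * (N + 1) ^ 3 ≤ 2 ^ (3 + 3 * Nat.size (N + 1)) := by
    have h3 : (N + 1) ^ 3 ≤ (2 ^ Nat.size (N + 1)) ^ 3 := Nat.pow_le_pow_left hs 3
    calc 8 * (N + 1) ^ 3 ≤ 8 * (2 ^ Nat.size (N + 1)) ^ 3 := Nat.mul_le_mul_left 8 h3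
      _ = 2 ^ (3 + 3 * Nat.size (N + 1)) := by
        rw [pow_add, ← pow_mul, Nat.mul_comm (Nat.size (N + 1)) 3]
        norm_num
  unfold ex
  rw [pow_mul]
  exact Nat.pow_le_pow_left h8 _

theorem ex_mono {p m : ℕ} (h : p ≤ m) : ex p ≤ ex m := by
  unfold ex
  have h1 : Nat.size (p + 1) ≤ Nat.size (m + 1) := Nat.size_le_size (by omega)
  have h2 : Nat.sqrt p ≤ Nat.sqrt m := Nat.sqrt_le_sqrt h
  exact Nat.mul_le_mul (by omega) (by omega)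

theorem ex_le {N : ℕ} (hN : 1 ≤ N) : (ex N : ℝ) ≤ 72 * Real.sqrt N * Real.log (N + 1) := by
  have hNr : (1 : ℝ) ≤ N := by exact_mod_cast hN
  have hlog2 : (1 / 2 : ℝ) ≤ Real.log 2 := by
    have := Real.log_two_gt_d9
    linarith
  have hlogN : Real.log 2 ≤ Real.log ((N : ℝ) + 1) := Real.log_le_log (by norm_num) (by linarith)
  have hsize : Nat.size (N + 1) ≤ Nat.log 2 (N + 1) + 1 := by
    rw [Nat.size_le]
    exact Nat.lt_pow_succ_log_self (by norm_num) (N + 1)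
  have hlg : (Nat.log 2 (N + 1) : ℝ) * Real.log 2 ≤ Real.log ((N : ℝ) + 1) := by
    have h := Nat.pow_log_le_self 2 (x := N + 1) (by omega)
    have h' : ((2 : ℝ) ^ Nat.log 2 (N + 1)) ≤ (N : ℝ) + 1 := by exact_mod_cast h
    have h2 := Real.log_le_log (by positivity) h'
    rwa [Real.log_pow] at h2
  have hlg2 : (Nat.log 2 (N + 1) : ℝ) ≤ 2 * Real.log ((N : ℝ) + 1) := by
    have h0 : (0 : ℝ) ≤ (Nat.log 2 (N + 1) : ℝ) := Nat.cast_nonneg _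
    nlinarith
  have hsz : (Nat.size (N + 1) : ℝ) ≤ 4 * Real.log ((N : ℝ) + 1) := by
    have h1 : (Nat.size (N + 1) : ℝ) ≤ (Nat.log 2 (N + 1) : ℝ) + 1 := by exact_mod_cast hsize
    linarith
  have hsq1 : (1 : ℝ) ≤ Real.sqrt N := Real.one_le_sqrt.2 hNr
  have hsq : (Nat.sqrt N : ℝ) ≤ Real.sqrt N := Real.nat_sqrt_le_real_sqrt
  have ha : (3 : ℝ) + 3 * (Nat.size (N + 1) : ℝ) ≤ 18 * Real.log ((N : ℝ) + 1) := by linarith
  have hb : (3 : ℝ) * (Nat.sqrt N : ℝ) + 1 ≤ 4 * Real.sqrt N := by linarith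
  have hb0 : (0 : ℝ) ≤ 3 * (Nat.sqrt N : ℝ) + 1 := by positivity
  have ha0 : (0 : ℝ) ≤ 18 * Real.log ((N : ℝ) + 1) := by linarith
  unfold ex
  push_cast
  calc (3 + 3 * (Nat.size (N + 1) : ℝ)) * (3 * (Nat.sqrt N : ℝ) + 1)
      ≤ (18 * Real.log ((N : ℝ) + 1)) * (4 * Real.sqrt N) := mul_le_mul ha hb hb0 ha0
    _ = 72 * Real.sqrt N * Real.log (N + 1) := by ring

end Pool.Agent.Lib.MP_104326_lc
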