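import Pool.Agent.Lib.MP_33f9c4_lc.Pad
import Pool.Agent.Lib.MP_104326_lc.KC.D5a
import Pool.Agent.Lib.MP_104326_lc.KC.D5b
import Pool.Agent.Lib.MP_104326_lc.KC.E0

/-! KC, module E1: the first machine.

PROOF. `MP_33f9c4_lc.Qt.exists_pad_machine` with `e x := ex x.length`,
`F (x, M) := Nat.bits (tPad x.length M)` (`PT.length`, `PT_ex`, `PT_tPad`, `PT.bits`). For
`x = List.replicate n true`, `n ≥ 1`: `tPad n (2 ^ ex n) = t n` by `tPad_eq`, `pow_ex`. -/

namespace Pool.Agent.Lib.MP_104326_lc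

open MP_33f9c4_lc
open Pool.Agent.Lib.PolyTime

theorem machine1 : ∃ (U : Machine) (Q : Polynomial ℕ), ∀ n : ℕ, 1 ≤ n →
    Outputs U (List.replicate n true) (Nat.bits (t n)) (Q.eval (n + 2 ^ ex n)) := by
  have hid : PT (fun p : List Bool × ℕ => p) := PT.id
  have he : PT (fun x : List Bool => ex x.length) := PT_ex (PT.length PT.id)
  have hF : PT (fun p : List Bool × ℕ => Nat.bits (tPad p.1.length p.2)) :=
    PT.bits (PT_tPad (PT.length hid.fst') hid.snd')
  obtain ⟨U, Q, h⟩ := Qt.exists_pad_machine he hF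
  refine ⟨U, Q, fun n hn => ?_⟩
  have h1 := h (List.replicate n true)
  simp only [List.length_replicate] at h1
  rwa [tPad_eq hn (pow_ex n)] at h1

end Pool.Agent.Lib.MP_104326_lc
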