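import Mathlib

/-! KC, module E3: the error of the approximation (pure analysis).

PROOF. Take a natural number `L ≥ lam` (`exists_nat_ge`), and `M1 ≥ 1` with
`L * (3 * Real.log (4 * M1) + 40) ≤ M1` (exists, as `log x / x → 0`); the `M1` of the statement is
`4 * M1`. Let `n ≥ 1`, `D = 10 ^ (n + 2)`, `k = M1 * (n + 1) * D`, `m = 4 * k`. By `h3` there is `p ∈ [k, 4 k]` with
`log lam ≤ log (f p) / p + ε`, `ε = (3 * log (4 * k) + log 1372) / k`. Here
`log (4 * k) = log (4 * M1) + log (n + 1) + (n + 2) * log 10 ≤ log (4 * M1) + n + 3 * (n + 2)`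
(`log (n + 1) ≤ n`, `log 10 ≤ 3`), `log 1372 ≤ 8`, so `3 * log (4 * k) + log 1372 ≤
3 * log (4 * M1) + 12 * n + 26 ≤ (n + 1) * (3 * log (4 * M1) + 40)`, and
`L * ε ≤ L * (3 * log (4 * M1) + 40) / (M1 * D) ≤ 1 / D`. Hence, with `z := exp (log (f p) / p) =
(f p) ^ (1 / p)`: `z ≥ lam * exp (-ε) ≥ lam * (1 - ε) ≥ lam - 1 / D` (`Real.add_one_le_exp`).
Call `y` (natural, `1 ≤ y`) good if `y ^ q ≤ D ^ q * f q` for some `q` with `1 ≤ q ≤ m`. If `y` is good
then `(y / D) ^ q ≤ f q ≤ lam ^ q` (`h2`), so `y ≤ lam * D` (`pow_le_pow_left_iff`). If `y ≤ lam * D - 1`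
then `y / D ≤ lam - 1 / D ≤ z`, so `(y / D) ^ p ≤ f p` and `y` is good. The good `y` are downward closed.
`Y` is the number of the `y < L * D` such that `y + 1` is good, so it is the number of the good
`y ∈ [1, L * D]`, and all good `y` are `≤ lam * D ≤ L * D`. So `Y ≤ lam * D` (all good `y` are in
`[1, ⌊lam * D⌋]`), and `Y > lam * D - 2` (all `y` in `[1, ⌊lam * D - 1⌋]` are good; if
`lam * D - 1 < 1` it is trivial). Finally `(Y + 500) / D - lam` is in the interval
`(498 / D, 500 / D]`, and `D = 100 * 10 ^ n`: `498 / D = 4.98 * 10 ^ (-n)`,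
`500 / D = 5 * 10 ^ (-n)`. -/

namespace Pool.Agent.Lib.MP_104326_lc

private theorem log_ten : Real.log 10 ≤ 3 := by
  have h : Real.log 10 ≤ Real.log (2 ^ 4) := Real.log_le_log (by norm_num) (by norm_num)
  rw [Real.log_pow] at h
  have h2 := Real.log_two_lt_d9
  push_cast at h
  linarith

private theorem log_1372 : Real.log 1372 ≤ 8 := by
  have h : Real.log 1372 ≤ Real.log (2 ^ 11) := Real.log_le_log (by norm_num) (by norm_num)
  rw [Real.log_pow] at h
  have h2 := Real.log_two_lt_d9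
  push_cast at h
  linarith

/-- the constant -/
private theorem exists_M (L : ℕ) : ∃ M : ℕ, 1 ≤ M ∧
    (L : ℝ) * (3 * Real.log (4 * M) + 40) ≤ M := by
  refine ⟨(6 * L + 46) ^ 2, Nat.one_le_pow _ _ (by omega), ?_⟩
  have hC : (0 : ℝ) < 6 * L + 46 := by positivity
  have hL : (0 : ℝ) ≤ L := Nat.cast_nonneg L
  have h1 : Real.log (4 * (6 * L + 46) ^ 2) = 2 * Real.log 2 + 2 * Real.log (6 * L + 46) := by
    rw [Real.log_mul (by norm_num) (by positivity), Real.log_pow,
      show (4 : ℝ) = 2 ^ 2 by norm_num, Real.log_pow]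
    push_cast
    ring
  have h2 := Real.log_two_lt_d9
  have h3 := Real.log_le_sub_one_of_pos hC
  push_cast
  rw [h1]
  have h4 : 3 * (2 * Real.log 2 + 2 * Real.log (6 * (L : ℝ) + 46)) + 40 ≤
      46 + 6 * (6 * L + 46) := by linarith
  have h5 := mul_le_mul_of_nonneg_left h4 hL
  nlinarith

theorem approx {f : ℕ → ℕ} {lam : ℝ} (h1 : 1 ≤ lam) (h2 : ∀ p, 1 ≤ p → (f p : ℝ) ≤ lam ^ p)
    (h3 : ∀ k : ℕ, 1 ≤ k → ∃ p, k ≤ p ∧ p ≤ 4 * k ∧
        Real.log lam ≤ Real.log (f p) / p + (3 * Real.log (4 * k) + Real.log 1372) / k)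
    (h0 : ∀ n, 1 ≤ f n) :
    ∃ L M1 : ℕ, 1 ≤ M1 ∧ ∀ n : ℕ, 1 ≤ n → ∀ Y : ℕ,
      Y = ((List.range (L * 10 ^ (n + 2))).filter fun y =>
        (List.range (M1 * (n + 1) * 10 ^ (n + 2))).any fun p =>
          decide ((y + 1) ^ (p + 1) ≤ (10 ^ (n + 2)) ^ (p + 1) * f (p + 1))).length →
      (10 : ℝ) ^ (-(n : ℤ)) < |((Y + 500 : ℕ) : ℝ) / 10 ^ (n + 2) - lam| ∧
        |((Y + 500 : ℕ) : ℝ) / 10 ^ (n + 2) - lam| < (10 : ℝ) ^ (-(n : ℤ) + 1) := by
  classical
  obtain ⟨L, hL⟩ := exists_nat_ge lam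
  obtain ⟨M, hM, hML⟩ := exists_M L
  refine ⟨L, 4 * M, by omega, ?_⟩
  intro n hn Y hY
  have hMr : (1 : ℝ) ≤ M := by exact_mod_cast hM
  have hlM : 0 ≤ Real.log (4 * M) := Real.log_nonneg (by linarith)
  have hL0 : (0 : ℝ) ≤ L := Nat.cast_nonneg L
  set D : ℕ := 10 ^ (n + 2) with hD
  have hDpos : 0 < D := by positivity
  have hDr : (0 : ℝ) < D := by exact_mod_cast hDpos
  set k : ℕ := M * (n + 1) * D with hk
  have hk1 : 1 ≤ k := by
    rw [hk]
    exact Nat.one_le_iff_ne_zero.2 (by positivity)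
  have hkr : (k : ℝ) = M * (n + 1) * D := by
    rw [hk]
    push_cast
    ring
  have hkpos : (0 : ℝ) < k := by exact_mod_cast hk1
  obtain ⟨p, hp1, hp2, hp3⟩ := h3 k hk1
  have hp : 1 ≤ p := le_trans hk1 hp1
  set ε : ℝ := (3 * Real.log (4 * k) + Real.log 1372) / k with hε
  have hn0 : (0 : ℝ) ≤ n := Nat.cast_nonneg n
  -- the bound of ε
  have hlog : Real.log (4 * k) ≤ Real.log (4 * M) + n + 3 * (n + 2) := by
    have h1 : (4 * (k : ℝ)) = (4 * M) * ((n + 1) * 10 ^ (n + 2)) := by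
      rw [hkr, hD]
      push_cast
      ring
    have h4 : Real.log ((4 * M) * (((n : ℝ) + 1) * 10 ^ (n + 2))) =
        Real.log (4 * M) + (Real.log ((n : ℝ) + 1) + ((n + 2 : ℕ) : ℝ) * Real.log 10) := by
      rw [Real.log_mul (x := 4 * (M : ℝ)) (by positivity) (by positivity),
        Real.log_mul (x := (n : ℝ) + 1) (by positivity) (by positivity), Real.log_pow]
    rw [h1, h4]
    have h2 : Real.log ((n : ℝ) + 1) ≤ n := by
      have := Real.log_le_sub_one_of_pos (show (0 : ℝ) < (n : ℝ) + 1 by positivity)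
      linarith
    have h3 : ((n + 2 : ℕ) : ℝ) * Real.log 10 ≤ ((n + 2 : ℕ) : ℝ) * 3 :=
      mul_le_mul_of_nonneg_left log_ten (Nat.cast_nonneg _)
    push_cast at h3 ⊢
    linarith
  have hnum : 3 * Real.log (4 * k) + Real.log 1372 ≤ (n + 1) * (3 * Real.log (4 * M) + 40) := by
    have h1 := log_1372
    nlinarith
  have hε0 : 0 ≤ ε := by
    rw [hε]
    refine div_nonneg ?_ hkpos.le
    have h1 : 0 ≤ Real.log (4 * (k : ℝ)) := Real.log_nonneg (by
      have : (1 : ℝ) ≤ k := by exact_mod_cast hk1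
      linarith)
    have h2 : 0 ≤ Real.log 1372 := Real.log_nonneg (by norm_num)
    linarith
  have hLε : lam * ε ≤ 1 / D := by
    have h1 : lam * ε ≤ L * ε := mul_le_mul_of_nonneg_right hL hε0
    refine le_trans h1 ?_
    rw [hε, ← mul_div_assoc, div_le_div_iff₀ hkpos hDr]
    have h2 : (L : ℝ) * (3 * Real.log (4 * k) + Real.log 1372) ≤
        L * ((n + 1) * (3 * Real.log (4 * M) + 40)) := mul_le_mul_of_nonneg_left hnum hL0
    have h3 : (L : ℝ) * ((n + 1) * (3 * Real.log (4 * M) + 40)) ≤ (n + 1) * M := by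
      have := mul_le_mul_of_nonneg_left hML (show (0 : ℝ) ≤ (n : ℝ) + 1 by positivity)
      linarith
    have h4 := mul_le_mul_of_nonneg_right (le_trans h2 h3) hDr.le
    have h5 : ((n : ℝ) + 1) * M * D = k := by
      rw [hkr]
      ring
    rw [h5] at h4
    linarith
  -- z
  have hfp : (1 : ℝ) ≤ f p := by exact_mod_cast h0 p
  have hpr : (0 : ℝ) < p := by exact_mod_cast hp
  set z : ℝ := Real.exp (Real.log (f p) / p) with hz
  have hzp : z ^ p = f p := by
    rw [hz, ← Real.exp_nat_mul, mul_div_cancel₀ _ hpr.ne', Real.exp_log (by linarith)]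
  have hzl : lam - 1 / D ≤ z := by
    have h1 : Real.exp (Real.log lam - ε) ≤ z := Real.exp_le_exp.2 (by linarith)
    rw [sub_eq_add_neg, Real.exp_add, Real.exp_log (by linarith)] at h1
    have h2 := Real.add_one_le_exp (-ε)
    have h3 : lam * (-ε + 1) ≤ lam * Real.exp (-ε) :=
      mul_le_mul_of_nonneg_left h2 (by linarith)
    linarith
  -- membership
  set S : Finset ℕ := ((List.range (L * D)).filter fun y =>
        (List.range (4 * M * (n + 1) * D)).any fun p =>
          decide ((y + 1) ^ (p + 1) ≤ D ^ (p + 1) * f (p + 1))).toFinset with hS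
  have hYS : Y = S.card := by
    rw [hY, hS, List.toFinset_card_of_nodup (List.nodup_range.filter _)]
  have hmem : ∀ y, y ∈ S ↔ y < L * D ∧
      ∃ p < 4 * M * (n + 1) * D, (y + 1) ^ (p + 1) ≤ D ^ (p + 1) * f (p + 1) := by
    intro y
    rw [hS, List.mem_toFinset, List.mem_filter, List.mem_range, List.any_eq_true]
    simp only [List.mem_range, decide_eq_true_eq]
  have hup : (Y : ℝ) ≤ lam * D := by
    have h1 : S ⊆ Finset.range ⌊lam * D⌋₊ := by
      intro y hy
      obtain ⟨-, q, -, hq⟩ := (hmem y).1 hy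
      rw [Finset.mem_range, ← Nat.succ_le_iff, Nat.le_floor_iff (by positivity)]
      have h2 : ((y + 1 : ℕ) : ℝ) ^ (q + 1) ≤ (lam * D) ^ (q + 1) := by
        have h3 : (((y + 1) ^ (q + 1) : ℕ) : ℝ) ≤ ((D ^ (q + 1) * f (q + 1) : ℕ) : ℝ) := by
          exact_mod_cast hq
        have h4 := h2 (q + 1) (by omega)
        have h5 : (D : ℝ) ^ (q + 1) * f (q + 1) ≤ (D : ℝ) ^ (q + 1) * lam ^ (q + 1) :=
          mul_le_mul_of_nonneg_left h4 (by positivity)
        rw [mul_pow]
        push_cast at h3 ⊢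
        linarith
      exact (pow_le_pow_iff_left₀ (Nat.cast_nonneg _) (by positivity) (by omega)).1 h2
    have h2 := Finset.card_le_card h1
    rw [Finset.card_range, ← hYS] at h2
    exact le_trans (by exact_mod_cast h2) (Nat.floor_le (by positivity))
  have hlow : lam * D - 2 < Y := by
    have h1 : Finset.range ⌊lam * D - 1⌋₊ ⊆ S := by
      intro y hy
      rw [Finset.mem_range] at hy
      have hy1 : ((y + 1 : ℕ) : ℝ) ≤ lam * D - 1 := (Nat.le_floor_iff' (by omega)).1 hy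
      rw [hmem]
      constructor
      · have h2 : ((y + 1 : ℕ) : ℝ) < ((L * D : ℕ) : ℝ) := by
          push_cast at hy1 ⊢
          have := mul_le_mul_of_nonneg_right hL hDr.le
          linarith
        have h3 : y + 1 < L * D := by exact_mod_cast h2
        omega
      · refine ⟨p - 1, ?_, ?_⟩
        · have h4 : 4 * M * (n + 1) * D = 4 * k := by
            rw [hk]
            ring
          omega
        · have hpp : p - 1 + 1 = p := by omega
          rw [hpp]
          have h2 : ((y + 1 : ℕ) : ℝ) / D ≤ z := by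
            refine le_trans ?_ hzl
            rw [div_le_iff₀ hDr, sub_mul, one_div, inv_mul_cancel₀ hDr.ne']
            exact hy1
          have h3 : (((y + 1 : ℕ) : ℝ) / D) ^ p ≤ f p := by
            rw [← hzp]
            exact pow_le_pow_left₀ (by positivity) h2 p
          rw [div_pow, div_le_iff₀ (by positivity)] at h3
          have h4 : (((y + 1) ^ p : ℕ) : ℝ) ≤ ((D ^ p * f p : ℕ) : ℝ) := by
            push_cast at h3 ⊢
            linarith
          exact_mod_cast h4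
    have h2 := Finset.card_le_card h1
    rw [Finset.card_range, ← hYS] at h2
    have h3 := Nat.lt_floor_add_one (lam * D - 1)
    have h4 : ((⌊lam * D - 1⌋₊ : ℕ) : ℝ) ≤ Y := by exact_mod_cast h2
    linarith
  -- the end
  have hD2 : (10 : ℝ) ^ (n + 2) = D := by
    rw [hD]
    push_cast
    ring
  have hD3 : (D : ℝ) = 10 ^ n * 100 := by
    rw [← hD2]
    ring
  have hT : (0 : ℝ) < 10 ^ n := by positivity
  rw [hD2]
  have hdiff : ((Y + 500 : ℕ) : ℝ) / D - lam = (Y + 500 - lam * D) / D := by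
    push_cast
    field_simp
  have hpos : 0 < (Y + 500 - lam * D) / D := div_pos (by linarith) hDr
  rw [hdiff, abs_of_pos hpos, zpow_add₀ (by norm_num), zpow_neg, zpow_natCast, zpow_one,
    lt_div_iff₀ hDr, div_lt_iff₀ hDr]
  constructor
  · rw [hD3, inv_mul_cancel_left₀ hT.ne', ← hD3]
    linarith
  · rw [hD3]
    have h1 : (10 ^ n : ℝ)⁻¹ * 10 * (10 ^ n * 100) = 1000 := by
      field_simp
      norm_num
    rw [h1, ← hD3]
    linarith

end Pool.Agent.Lib.MP_104326_lc
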