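import Pool.Agent.Lib.MP_104326_lc.KC.E2
import Pool.Agent.Lib.MP_104326_lc.KC.D5a
import Pool.Agent.Lib.MP_104326_lc.KC.D5b
import Pool.Agent.Lib.MP_104326_lc.KC.E0

/-! KC, module E4: the second machine.

PROOF. `exists_pad2_machine` with `e x := 4 * (x.length + 2)`,
`e' (x, A) := ex (M1 * (x.length + 1) * min (10 ^ (x.length + 2)) A)`, and
`F (x, (A, M)) := Nat.bits (ybest L D m M + 500)` with `D = min (10 ^ (x.length + 2)) A`,
`m = M1 * (x.length + 1) * D`. PT: `min (10 ^ (x.length + 2)) A` by `PT.bnCap` and `PT_bnPow`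
(`⟨10⟩ ^ (x.length + 2)`); `PT_ex`, `PT_ybest`, `PT.toBN`, `PT.bits`, `PT.mul`, `PT.addConst`.
For `x = List.replicate n true`: `A = 2 ^ (4 * (n + 2)) = 16 ^ (n + 2) ≥ 10 ^ (n + 2)`, so
`D = 10 ^ (n + 2)`, `m = M1 * (n + 1) * 10 ^ (n + 2)`, `M = 2 ^ ex m`, and for all `p < m`
`tPad (p + 1) M = t (p + 1)` by `tPad_eq`, `pow_ex`, `ex_mono` (`p + 1 ≤ m`), so `ybest` is `Y`. -/

namespace Pool.Agent.Lib.MP_104326_lc

open Pool.Agent.Lib.PolyTime MP_33f9c4_lc

private theorem PT_dcap {α : Type} [Enc α] {x : α → List Bool} {A : α → ℕ} (hx : PT x) (hA : PT A) :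
    PT (fun a => min (10 ^ ((x a).length + 2)) (A a)) :=
  PT.bnCap (f := fun a => (⟨10 ^ ((x a).length + 2)⟩ : BN))
    (PT_bnPow (f := fun _ => (⟨10⟩ : BN)) (PT.bnConst 10) ((PT.length hx).addConst 2)) hA

private theorem PT_mcap {α : Type} [Enc α] {x : α → List Bool} {A : α → ℕ} (M1 : ℕ) (hx : PT x)
    (hA : PT A) :
    PT (fun a => M1 * ((x a).length + 1) * min (10 ^ ((x a).length + 2)) (A a)) :=
  (PT.mulConst ((PT.length hx).addConst 1) M1).mul (PT_dcap hx hA)

private theorem any_congr_mem {β : Type} {l : List β} {p q : β → Bool}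
    (h : ∀ a ∈ l, p a = q a) : l.any p = l.any q := by
  induction l with
  | nil => rfl
  | cons a l ih =>
    rw [List.any_cons, List.any_cons, h a List.mem_cons_self,
      ih fun b hb => h b (List.mem_cons_of_mem _ hb)]

theorem machine2 (L M1 : ℕ) : ∃ (U : Machine) (Q : Polynomial ℕ), ∀ n : ℕ,
    Outputs U (List.replicate n true)
      (Nat.bits (((List.range (L * 10 ^ (n + 2))).filter fun y =>
        (List.range (M1 * (n + 1) * 10 ^ (n + 2))).any fun p =>
          decide ((y + 1) ^ (p + 1) ≤ (10 ^ (n + 2)) ^ (p + 1) * t (p + 1))).length + 500))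
      (Q.eval (n + 2 ^ (4 * (n + 2)) + 2 ^ ex (M1 * (n + 1) * 10 ^ (n + 2)))) := by
  have he : PT (fun x : List Bool => 4 * (x.length + 2)) :=
    PT.mulConst ((PT.length PT.id).addConst 2) 4
  have he' : PT (fun x : List Bool × ℕ =>
      ex (M1 * (x.1.length + 1) * min (10 ^ (x.1.length + 2)) x.2)) :=
    PT_ex (PT_mcap M1 PT.fst PT.snd)
  have hF : PT (fun x : List Bool × (ℕ × ℕ) =>
      Nat.bits (ybest L (min (10 ^ (x.1.length + 2)) x.2.1)
        (M1 * (x.1.length + 1) * min (10 ^ (x.1.length + 2)) x.2.1) x.2.2 + 500)) := by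
    have hA : PT (fun x : List Bool × (ℕ × ℕ) => x.2.1) := PT.snd.fst'
    have hM : PT (fun x : List Bool × (ℕ × ℕ) => x.2.2) := PT.snd.snd'
    exact (PT.toBN ((PT_ybest L (PT_dcap PT.fst hA) (PT_mcap M1 PT.fst hA) hM).addConst 500)).bits
  obtain ⟨U, Q, hU⟩ := exists_pad2_machine he he' hF
  refine ⟨U, Q, fun n => ?_⟩
  have h := hU (List.replicate n true)
  have hmin : min (10 ^ (n + 2)) (2 ^ (4 * (n + 2))) = 10 ^ (n + 2) := by
    apply min_eq_left
    rw [pow_mul]
    exact Nat.pow_le_pow_left (by norm_num) _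
  simp only [List.length_replicate, hmin] at h
  have hy : ybest L (10 ^ (n + 2)) (M1 * (n + 1) * 10 ^ (n + 2))
      (2 ^ ex (M1 * (n + 1) * 10 ^ (n + 2))) =
      ((List.range (L * 10 ^ (n + 2))).filter fun y =>
        (List.range (M1 * (n + 1) * 10 ^ (n + 2))).any fun p =>
          decide ((y + 1) ^ (p + 1) ≤ (10 ^ (n + 2)) ^ (p + 1) * t (p + 1))).length := by
    unfold ybest
    refine congrArg List.length (List.filter_congr fun y _ => ?_)
    refine any_congr_mem fun p hp => ?_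
    rw [List.mem_range] at hp
    have h1 : tPad (p + 1) (2 ^ ex (M1 * (n + 1) * 10 ^ (n + 2))) = t (p + 1) :=
      tPad_eq (Nat.succ_pos p)
        ((pow_ex (p + 1)).trans (Nat.pow_le_pow_right (by norm_num) (ex_mono hp)))
    rw [h1]
  rw [hy] at h
  exact h

end Pool.Agent.Lib.MP_104326_lc
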