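import Pool.Agent.Lib.MP_104326_lc.KC.E0

/-! KC, module E5: the two time bounds (real analysis).

PROOF. `poly_le`: every polynomial with natural coefficients satisfies `Q.eval z ≤ A * z ^ d` for all
`z ≥ 1` with `A = Q.eval 1` (the sum of the coefficients), `d = Q.natDegree`.
`time1`: for `n ≥ 1`, `s = √n * log (n + 1) ≥ log 2 ≥ 1/2`. `n + 2 ^ ex n ≤ (n + 1) * 2 ^ ex n`, and
`log (n + 1) ≤ s`, `log (2 ^ ex n) = ex n * log 2 ≤ 72 * s` (`ex_le`, `log 2 ≤ 1`), so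
`n + 2 ^ ex n ≤ exp (73 * s)` and `Q.eval (…) ≤ A * exp (73 * d * s) ≤ exp (C * s)` with
`C = 2 * log (A + 1) + 73 * d` (as `s ≥ 1/2`: `A ≤ exp (log (A + 1)) ≤ exp (2 * log (A + 1) * s)`).
`time2`: let `w = n ^ (3/2) * 10 ^ (n/2)` (real powers), `w ≥ 1`, `m = M1 * (n + 1) * 10 ^ (n + 2) ≥ 1`.
`n ≤ w * 1 ≤ exp w`; `2 ^ (4 (n + 2)) = exp (4 * (n + 2) * log 2) ≤ exp (12 * w)` (`n + 2 ≤ 3 * n ≤
3 * w`). `ex m ≤ 72 * √m * log (m + 1)`: `√m = √(M1 * 100 * (n + 1)) * 10 ^ (n/2) ≤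
√(200 * M1) * √n * 10 ^ (n/2)`, and `log (m + 1) ≤ log (2 * m) ≤ log (2 * M1) + log (n + 1) + (n + 2) * log 10
≤ (log (2 * M1) + 1 + 9) * n` (`log (n + 1) ≤ n`, `n + 2 ≤ 3 n`, `log 10 ≤ 3`). So
`ex m ≤ K * w` with `K = 72 * √(200 * M1) * (log (2 * M1) + 10)` (`√n * n = n ^ (3/2)`). The sum of the
three terms is `≤ 3 * exp ((12 + K) * w)`, and finish as before. -/

namespace Pool.Agent.Lib.MP_104326_lc

/-- A polynomial with natural coefficients is at most a constant times a power. -/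
theorem poly_le (Q : Polynomial ℕ) {z : ℕ} (hz : 1 ≤ z) :
    Q.eval z ≤ Q.eval 1 * z ^ Q.natDegree := by
  rw [Polynomial.eval_eq_sum_range, Polynomial.eval_eq_sum_range, Finset.sum_mul]
  refine Finset.sum_le_sum fun i hi => ?_
  rw [one_pow, mul_one]
  exact Nat.mul_le_mul_left _ (Nat.pow_le_pow_right hz
    (Nat.lt_succ_iff.mp (Finset.mem_range.mp hi)))

/-- The final step of both bounds. -/
theorem poly_exp (Q : Polynomial ℕ) (c : ℝ) {z : ℕ} (hz : 1 ≤ z) {s : ℝ} (hs : 1 / 2 ≤ s)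
    (h : (z : ℝ) ≤ Real.exp (c * s)) :
    ((Q.eval z : ℕ) : ℝ) ≤
      Real.exp ((2 * Real.log ((Q.eval 1 : ℕ) + 1) + c * Q.natDegree) * s) := by
  have h1 : ((Q.eval z : ℕ) : ℝ) ≤ ((Q.eval 1 : ℕ) : ℝ) * (z : ℝ) ^ Q.natDegree := by
    exact_mod_cast poly_le Q hz
  have hA : (0 : ℝ) ≤ ((Q.eval 1 : ℕ) : ℝ) := Nat.cast_nonneg _
  have hz0 : (0 : ℝ) ≤ (z : ℝ) := Nat.cast_nonneg _
  have h2 : (z : ℝ) ^ Q.natDegree ≤ Real.exp (c * s) ^ Q.natDegree := pow_le_pow_left₀ hz0 h _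
  have h3 : ((Q.eval 1 : ℕ) : ℝ) ≤ Real.exp (2 * Real.log ((Q.eval 1 : ℕ) + 1) * s) := by
    have hl : 0 ≤ Real.log (((Q.eval 1 : ℕ) : ℝ) + 1) := Real.log_nonneg (by linarith)
    calc ((Q.eval 1 : ℕ) : ℝ) ≤ ((Q.eval 1 : ℕ) : ℝ) + 1 := by linarith
      _ = Real.exp (Real.log (((Q.eval 1 : ℕ) : ℝ) + 1)) := (Real.exp_log (by linarith)).symm
      _ ≤ _ := Real.exp_le_exp.mpr (by nlinarith)
  calc ((Q.eval z : ℕ) : ℝ) ≤ ((Q.eval 1 : ℕ) : ℝ) * (z : ℝ) ^ Q.natDegree := h1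
    _ ≤ Real.exp (2 * Real.log ((Q.eval 1 : ℕ) + 1) * s) * Real.exp (c * s) ^ Q.natDegree :=
      mul_le_mul h3 h2 (by positivity) (Real.exp_pos _).le
    _ = _ := by
      rw [← Real.exp_nat_mul, ← Real.exp_add]
      congr 1
      ring

theorem log_two_le_one : Real.log 2 ≤ 1 := by
  have := Real.log_le_sub_one_of_pos (show (0 : ℝ) < 2 by norm_num)
  linarith

theorem log_ten_le : Real.log 10 ≤ 3 := by
  rw [Real.log_le_iff_le_exp (by norm_num)]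
  have h := Real.exp_one_gt_d9
  have h3 : Real.exp 3 = Real.exp 1 ^ 3 := by
    rw [← Real.exp_nat_mul]; norm_num
  rw [h3]
  calc (10 : ℝ) ≤ 2.7 ^ 3 := by norm_num
    _ ≤ Real.exp 1 ^ 3 := pow_le_pow_left₀ (by norm_num) (by linarith) 3

theorem two_pow_eq_exp (k : ℕ) : (2 : ℝ) ^ k = Real.exp (k * Real.log 2) := by
  rw [Real.exp_nat_mul, Real.exp_log (by norm_num)]

theorem two_pow_le_exp (k : ℕ) : (2 : ℝ) ^ k ≤ Real.exp k := by
  rw [two_pow_eq_exp]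
  have := log_two_le_one
  have hk : (0 : ℝ) ≤ k := Nat.cast_nonneg _
  exact Real.exp_le_exp.mpr (by nlinarith)

theorem time1 (Q : Polynomial ℕ) : ∃ C : ℝ, ∀ n : ℕ, 1 ≤ n →
    ((Q.eval (n + 2 ^ ex n) : ℕ) : ℝ) ≤ Real.exp (C * Real.sqrt n * Real.log (n + 1)) := by
  refine ⟨2 * Real.log ((Q.eval 1 : ℕ) + 1) + 73 * Q.natDegree, fun n hn => ?_⟩
  have hn1 : (1 : ℝ) ≤ n := by exact_mod_cast hn
  have hsq : 1 ≤ Real.sqrt n := Real.one_le_sqrt.mpr hn1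
  have hlog2 : (1 : ℝ) / 2 ≤ Real.log 2 := by
    have := Real.log_two_gt_d9; linarith
  have hlog : Real.log 2 ≤ Real.log ((n : ℝ) + 1) := Real.log_le_log (by norm_num) (by linarith)
  have hs : 1 / 2 ≤ Real.sqrt n * Real.log ((n : ℝ) + 1) := by nlinarith
  have hls : Real.log ((n : ℝ) + 1) ≤ Real.sqrt n * Real.log ((n : ℝ) + 1) := by nlinarith
  have hz : 1 ≤ n + 2 ^ ex n := le_trans hn (Nat.le_add_right _ _)
  have h := ex_le hn
  have hb : ((n + 2 ^ ex n : ℕ) : ℝ) ≤ Real.exp (73 * (Real.sqrt n * Real.log ((n : ℝ) + 1))) := by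
    have hp : (1 : ℝ) ≤ 2 ^ ex n := one_le_pow₀ (by norm_num)
    calc ((n + 2 ^ ex n : ℕ) : ℝ) = (n : ℝ) + 2 ^ ex n := by push_cast; ring
      _ ≤ ((n : ℝ) + 1) * 2 ^ ex n := by nlinarith
      _ ≤ Real.exp (Real.log ((n : ℝ) + 1)) * Real.exp (ex n) := by
        rw [Real.exp_log (by linarith)]
        exact mul_le_mul_of_nonneg_left (two_pow_le_exp _) (by linarith)
      _ = Real.exp (Real.log ((n : ℝ) + 1) + ex n) := (Real.exp_add _ _).symm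
      _ ≤ _ := Real.exp_le_exp.mpr (by linarith)
  have := poly_exp Q 73 hz hs hb
  rwa [← mul_assoc] at this

theorem ten_pow_eq (n : ℕ) : Real.sqrt ((10 : ℝ) ^ n) = (10 : ℝ) ^ ((n : ℝ) / 2) := by
  rw [Real.sqrt_eq_rpow, ← Real.rpow_natCast, ← Real.rpow_mul (by norm_num)]
  congr 1
  ring

theorem n_three_half {n : ℕ} (hn : 1 ≤ n) :
    (n : ℝ) ^ ((3 : ℝ) / 2) = Real.sqrt n * n := by
  have hn1 : (0 : ℝ) < n := by exact_mod_cast hn
  rw [Real.sqrt_eq_rpow, show ((3 : ℝ) / 2) = 1 / 2 + 1 by norm_num, Real.rpow_add hn1,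
    Real.rpow_one]

theorem ex_m_le {M1 : ℕ} (hM1 : 1 ≤ M1) {n : ℕ} (hn : 1 ≤ n) :
    (ex (M1 * (n + 1) * 10 ^ (n + 2)) : ℝ) ≤
      72 * Real.sqrt (200 * M1) * (Real.log (2 * M1) + 10) *
        ((n : ℝ) ^ ((3 : ℝ) / 2) * (10 : ℝ) ^ ((n : ℝ) / 2)) := by
  have hn1 : (1 : ℝ) ≤ n := by exact_mod_cast hn
  have hM : (1 : ℝ) ≤ M1 := by exact_mod_cast hM1
  have hm1 : 1 ≤ M1 * (n + 1) * 10 ^ (n + 2) :=
    Nat.one_le_iff_ne_zero.mpr (by positivity)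
  set m : ℕ := M1 * (n + 1) * 10 ^ (n + 2) with hm
  have hmr : (m : ℝ) = M1 * ((n : ℝ) + 1) * 10 ^ (n + 2) := by rw [hm]; push_cast; ring
  have hmr1 : (1 : ℝ) ≤ m := by exact_mod_cast hm1
  have h10 : (0 : ℝ) < (10 : ℝ) ^ n := by positivity
  have hsq : Real.sqrt m ≤ Real.sqrt (200 * M1) * Real.sqrt n * (10 : ℝ) ^ ((n : ℝ) / 2) := by
    rw [← ten_pow_eq, ← Real.sqrt_mul (by positivity), ← Real.sqrt_mul (by positivity)]
    refine Real.sqrt_le_sqrt ?_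
    rw [hmr, pow_add]
    have : (M1 : ℝ) * ((n : ℝ) + 1) * (10 ^ n * 10 ^ 2) =
      100 * M1 * ((n : ℝ) + 1) * 10 ^ n := by ring
    rw [this]
    refine mul_le_mul_of_nonneg_right ?_ h10.le
    nlinarith
  have hlog : Real.log ((m : ℝ) + 1) ≤ (Real.log (2 * M1) + 10) * n := by
    have e1 : Real.log ((m : ℝ) + 1) ≤ Real.log (2 * M1 * (((n : ℝ) + 1) * 10 ^ (n + 2))) := by
      refine Real.log_le_log (by linarith) ?_
      have : 2 * (M1 : ℝ) * (((n : ℝ) + 1) * 10 ^ (n + 2)) = 2 * m := by rw [hmr]; ring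
      rw [this]; linarith
    have e2 : Real.log (2 * M1 * (((n : ℝ) + 1) * 10 ^ (n + 2))) =
        Real.log (2 * M1) + (Real.log ((n : ℝ) + 1) + (n + 2) * Real.log 10) := by
      have a1 : (2 * (M1 : ℝ)) ≠ 0 := by positivity
      have a2 : ((n : ℝ) + 1) ≠ 0 := by positivity
      have a3 : ((10 : ℝ) ^ (n + 2)) ≠ 0 := by positivity
      rw [Real.log_mul a1 (mul_ne_zero a2 a3), Real.log_mul a2 a3, Real.log_pow]
      push_cast
      ring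
    have e3 : Real.log ((n : ℝ) + 1) ≤ n := by
      have := Real.log_le_sub_one_of_pos (show (0 : ℝ) < (n : ℝ) + 1 by linarith)
      linarith
    have e4 := log_ten_le
    have e5 : 0 ≤ Real.log (2 * M1) := Real.log_nonneg (by linarith)
    have e6 : ((n : ℝ) + 2) * Real.log 10 ≤ 9 * n := by nlinarith
    have e7 : Real.log (2 * M1) ≤ Real.log (2 * M1) * n := by nlinarith
    rw [e2] at e1
    linarith
  have hl0 : 0 ≤ Real.log ((m : ℝ) + 1) := Real.log_nonneg (by linarith)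
  calc (ex m : ℝ) ≤ 72 * Real.sqrt m * Real.log ((m : ℝ) + 1) := ex_le hm1
    _ ≤ 72 * (Real.sqrt (200 * M1) * Real.sqrt n * (10 : ℝ) ^ ((n : ℝ) / 2)) *
        ((Real.log (2 * M1) + 10) * n) :=
      mul_le_mul (mul_le_mul_of_nonneg_left hsq (by norm_num)) hlog hl0 (by positivity)
    _ = _ := by
      rw [n_three_half hn]
      ring

theorem time2 (Q : Polynomial ℕ) {M1 : ℕ} (hM1 : 1 ≤ M1) : ∃ C : ℝ, ∀ n : ℕ, 1 ≤ n →
    ((Q.eval (n + 2 ^ (4 * (n + 2)) + 2 ^ ex (M1 * (n + 1) * 10 ^ (n + 2))) : ℕ) : ℝ) ≤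
      Real.exp (C * (n : ℝ) ^ ((3 : ℝ) / 2) * (10 : ℝ) ^ ((n : ℝ) / 2)) := by
  set K : ℝ := 72 * Real.sqrt (200 * M1) * (Real.log (2 * M1) + 10) with hK
  have hM : (1 : ℝ) ≤ M1 := by exact_mod_cast hM1
  have hK0 : 0 ≤ K := by
    have : 0 ≤ Real.log (2 * M1) := Real.log_nonneg (by linarith)
    positivity
  refine ⟨2 * Real.log ((Q.eval 1 : ℕ) + 1) + (14 + K) * Q.natDegree, fun n hn => ?_⟩
  have hn1 : (1 : ℝ) ≤ n := by exact_mod_cast hn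
  set w : ℝ := (n : ℝ) ^ ((3 : ℝ) / 2) * (10 : ℝ) ^ ((n : ℝ) / 2) with hw
  have h10 : (1 : ℝ) ≤ (10 : ℝ) ^ ((n : ℝ) / 2) :=
    Real.one_le_rpow (by norm_num) (by positivity)
  have hn32 : (n : ℝ) ≤ (n : ℝ) ^ ((3 : ℝ) / 2) := by
    rw [n_three_half hn]
    have hsq : 1 ≤ Real.sqrt n := Real.one_le_sqrt.mpr hn1
    nlinarith
  have hwn : (n : ℝ) ≤ w := by
    calc (n : ℝ) = n * 1 := (mul_one _).symm
      _ ≤ w := mul_le_mul hn32 h10 (by norm_num) (by positivity)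
  have hz : 1 ≤ n + 2 ^ (4 * (n + 2)) + 2 ^ ex (M1 * (n + 1) * 10 ^ (n + 2)) :=
    le_trans hn (le_trans (Nat.le_add_right _ _) (Nat.le_add_right _ _))
  have hex := ex_m_le hM1 hn
  rw [← hK, ← hw] at hex
  have t1 : (n : ℝ) ≤ Real.exp ((12 + K) * w) := by
    have := Real.add_one_le_exp ((12 + K) * w)
    nlinarith
  have t2 : (2 : ℝ) ^ (4 * (n + 2)) ≤ Real.exp ((12 + K) * w) := by
    refine (two_pow_le_exp _).trans (Real.exp_le_exp.mpr ?_)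
    push_cast
    nlinarith
  have t3 : (2 : ℝ) ^ ex (M1 * (n + 1) * 10 ^ (n + 2)) ≤ Real.exp ((12 + K) * w) := by
    refine (two_pow_le_exp _).trans (Real.exp_le_exp.mpr ?_)
    nlinarith
  have hb : ((n + 2 ^ (4 * (n + 2)) + 2 ^ ex (M1 * (n + 1) * 10 ^ (n + 2)) : ℕ) : ℝ) ≤
      Real.exp ((14 + K) * w) := by
    have e : Real.exp ((14 + K) * w) = Real.exp (2 * w) * Real.exp ((12 + K) * w) := by
      rw [← Real.exp_add]; congr 1; ring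
    have e3 : (3 : ℝ) ≤ Real.exp (2 * w) := by
      have := Real.add_one_le_exp (2 * w)
      linarith
    rw [e]
    push_cast
    have e0 := Real.exp_pos ((12 + K) * w)
    nlinarith
  have := poly_exp Q (14 + K) hz (show (1 : ℝ) / 2 ≤ w by linarith) hb
  rwa [hw, ← mul_assoc] at this

end Pool.Agent.Lib.MP_104326_lc
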