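import Pool.Agent.Lib.MP_104326_lc.KC.A3
import Pool.Agent.Lib.MP_104326_lc.KC.A6
import Pool.Agent.Lib.MP_104326_lc.KC.A7
import Pool.Agent.Lib.MP_104326_lc.KC.E1
import Pool.Agent.Lib.MP_104326_lc.KC.E3
import Pool.Agent.Lib.MP_104326_lc.KC.E4
import Pool.Agent.Lib.MP_104326_lc.KC.E5

/-! KC, module F1: the theorem.

PROOF. `growth` with `f := t` (`t_pos`, `t_mul_le`, `t_split`) gives `lam`. First machine: `machine1` and
`time1`: a run within `T` steps is a run within `T' ≥ T` steps (`Outputs` is monotone in the time: the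
structure `TM2OutputsInTime` has the field `steps_le_m`; see the end of the proof in
`MP_33f9c4_lc/Pad.lean`), and `T ≤ exp (…)` gives `T ≤ ⌊exp (…)⌋₊` (`Nat.le_floor`). Second machine:
`approx` gives `L`, `M1`; `machine2 L M1` and `time2`, `a := Y + 500`. -/

namespace Pool.Agent.Lib.MP_104326_lc

open MP_33f9c4_lc Filter Topology

theorem outputs_mono {U : Machine} {d x : List Bool} {T T' : ℕ} (h : Outputs U d x T)
    (hT : T ≤ T') : Outputs U d x T' := by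
  obtain ⟨h2⟩ := h
  exact ⟨{ steps := h2.steps, evals_in_steps := h2.evals_in_steps,
           steps_le_m := h2.steps_le_m.trans hT }⟩

theorem main : ∃ lam : ℝ, Tendsto (fun n : ℕ => (t n : ℝ) ^ ((1 : ℝ) / n)) atTop (𝓝 lam) ∧
    (∃ (U : Machine) (C : ℝ), ∀ n : ℕ, 1 ≤ n →
      Outputs U (List.replicate n true) (Nat.bits (t n))
        ⌊Real.exp (C * Real.sqrt n * Real.log (n + 1))⌋₊) ∧
    ∃ (U : Machine) (C : ℝ), ∀ n : ℕ, 1 ≤ n → ∃ a : ℕ,
      (10 : ℝ) ^ (-(n : ℤ)) < |(a : ℝ) / 10 ^ (n + 2) - lam| ∧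
      |(a : ℝ) / 10 ^ (n + 2) - lam| < (10 : ℝ) ^ (-(n : ℤ) + 1) ∧
      Outputs U (List.replicate n true) (Nat.bits a)
        ⌊Real.exp (C * (n : ℝ) ^ ((3 : ℝ) / 2) * (10 : ℝ) ^ ((n : ℝ) / 2))⌋₊ := by
  obtain ⟨lam, h1, hlim, h2, h3⟩ := growth (f := t) t_pos
    (fun _ _ ha hb => t_mul_le ha hb) (fun _ hn => t_split hn)
  refine ⟨lam, hlim, ?_, ?_⟩
  · obtain ⟨U, Q, hU⟩ := machine1
    obtain ⟨C, hC⟩ := time1 Q
    exact ⟨U, C, fun n hn => outputs_mono (hU n hn) (Nat.le_floor (hC n hn))⟩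
  · obtain ⟨L, M1, hM1, hap⟩ := approx (f := t) h1 h2 h3 t_pos
    obtain ⟨U, Q, hU⟩ := machine2 L M1
    obtain ⟨C, hC⟩ := time2 Q hM1
    refine ⟨U, C, fun n hn => ?_⟩
    obtain ⟨h4, h5⟩ := hap n hn _ rfl
    exact ⟨_, h4, h5, outputs_mono (hU n) (Nat.le_floor (hC n hn))⟩

end Pool.Agent.Lib.MP_104326_lc
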