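import Pool.Agent.Lib.MP_104326_lc.Base

/-! KC, module A1: a rooted polyomino of size `n` lies in the box of radius `n - 1`.

PROOF. Let `x ∈ P`. `Conn P` gives a chain from `(0,0)` to `x` (the origin is in `P`). By induction
on the chain (`Relation.ReflTransGen.head_induction_on` or the usual induction on the last step),
for every cell `b` which is reached and every integer `k` between `0` and `b.1`
(`k ∈ Finset.uIcc 0 b.1`) there is a cell of `P` with first coordinate `k`: in a step `b → b'` with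
`Adj b b'` one has `|b.1 - b'.1| ≤ 1`, thus an integer between `0` and `b'.1` is between `0` and
`b.1` or equals `b'.1`. So `Finset.uIcc 0 x.1 ⊆ P.image Prod.fst`, and by `Int.card_uIcc`
`(x.1 - 0).natAbs + 1 ≤ P.card = n`. The second coordinate: the same (or apply the first part to the
image of `P` under `Prod.swap`). -/

namespace Pool.Agent.Lib.MP_104326_lc

private theorem A1_aux {P : Finset (ℤ × ℤ)} (f : ℤ × ℤ → ℤ)
    (hf : ∀ x y, Adj x y → |f x - f y| ≤ 1) (hf0 : f (0, 0) = 0) (h0 : (0, 0) ∈ P) {x : ℤ × ℤ}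
    (h : Relation.ReflTransGen (fun x y => y ∈ P ∧ Adj x y) (0, 0) x) :
    Finset.uIcc 0 (f x) ⊆ P.image f := by
  induction h with
  | refl =>
    rw [hf0, Finset.uIcc_self]
    intro k hk
    rw [Finset.mem_singleton] at hk
    subst hk
    exact Finset.mem_image.2 ⟨(0, 0), h0, hf0⟩
  | tail hab hbc ih =>
    rename_i b c
    intro k hk
    obtain ⟨hc, hadj⟩ := hbc
    have h1 := hf _ _ hadj
    by_cases hkc : k = f c
    · exact Finset.mem_image.2 ⟨c, hc, hkc.symm⟩
    · apply ih
      rw [Finset.mem_uIcc'] at hk ⊢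
      rw [abs_le] at h1
      omega

private theorem A1_lt {n : ℕ} {P : Finset (ℤ × ℤ)} (h : Rooted n P) (f : ℤ × ℤ → ℤ)
    (hf : ∀ x y, Adj x y → |f x - f y| ≤ 1) (hf0 : f (0, 0) = 0) {x : ℤ × ℤ} (hx : x ∈ P) :
    |f x| < n := by
  have h1 := A1_aux f hf hf0 h.2.2 (h.2.1 _ h.2.2 x hx)
  have h2 := (Finset.card_le_card h1).trans Finset.card_image_le
  rw [Int.card_uIcc, h.1, sub_zero] at h2
  have h3 : |f x| = ((f x).natAbs : ℤ) := Int.abs_eq_natAbs _
  rw [h3]
  exact_mod_cast h2

theorem rooted_box {n : ℕ} {P : Finset (ℤ × ℤ)} (h : Rooted n P) :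
    ∀ x ∈ P, |x.1| < n ∧ |x.2| < n := by
  intro x hx
  constructor
  · refine A1_lt h Prod.fst ?_ rfl hx
    intro a b hab
    have := abs_nonneg (a.2 - b.2)
    unfold Adj at hab
    linarith
  · refine A1_lt h Prod.snd ?_ rfl hx
    intro a b hab
    have := abs_nonneg (a.1 - b.1)
    unfold Adj at hab
    linarith

/-- From `rooted_box`: `P` is a subset of the finite box. -/
theorem finite_rooted (n : ℕ) : {P : Finset (ℤ × ℤ) | Rooted n P}.Finite := by
  refine Set.Finite.subset (Finset.finite_toSet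
    (Finset.Icc (-(n : ℤ)) n ×ˢ Finset.Icc (-(n : ℤ)) n).powerset) ?_
  intro P hP
  rw [Finset.mem_coe, Finset.mem_powerset]
  intro x hx
  obtain ⟨h1, h2⟩ := rooted_box hP x hx
  rw [abs_lt] at h1 h2
  rw [Finset.mem_product, Finset.mem_Icc, Finset.mem_Icc]
  exact ⟨⟨h1.1.le, h1.2.le⟩, ⟨h2.1.le, h2.2.le⟩⟩

instance (n : ℕ) : Finite {P : Finset (ℤ × ℤ) // Rooted n P} := finite_rooted n

end Pool.Agent.Lib.MP_104326_lc
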