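import Pool.Agent.Lib.MP_104326_lc.Base

/-! KC, module A4: a large branch of a connected set at a cell.

PROOF. Let `B' := B.erase v` (nonempty as `2 ≤ B.card`). For `w ∈ B'` let `K w` be its component: the
set of the `x ∈ B'` with `Relation.ReflTransGen (fun x y => y ∈ B' ∧ Adj x y) w x` (`Finset.filter`,
classical). Facts: (1) `w ∈ K w`; `x ∈ K w → K x = K w` (the relation is symmetric on `B'` because
`Adj` is symmetric); each `K w` is connected (`Conn`): the chain from `w` stays in `K w`. (2) Every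
`w ∈ B'` lies in the component of a neighbour `u ∈ B'` of `v`: take the chain from `v` to `w` in `B`
(`Conn B`); by induction on the chain (last step), every cell reached from `v` is `v` or lies in `K u`
for some `u ∈ B'` with `Adj v u`: a step from `v` to `y ≠ v` gives `u = y`; a step from `x ∈ K u` to
`y ≠ v` gives `y ∈ K u`; a step to `v` gives `v`. (3) So `B' ⊆ ⋃ over u ∈ N of K u` with
`N := B.filter (fun u => Adj v u)`, `N.card ≤ k`; therefore there is `u ∈ N` with
`B'.card ≤ k * (K u).card` (`Finset.card_biUnion_le`, `Finset.sum_le_card_nsmul`: else all are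
smaller and the sum is smaller; `N` is nonempty as `B'` is). Let `C := K u`. Then `C ⊆ B`, `v ∉ C`,
`C` nonempty, `Conn C`, `B.card = B'.card + 1 ≤ k * C.card + 1` and `u ∈ C` is a neighbour of `v`.
(4) `Conn (B \ C)`: it suffices that every `w ∈ B \ C` can be joined to `v` inside of `B \ C` (both
directions, by symmetry). For `w ≠ v` take `u' ∈ N` with `w ∈ K u'`. `K u'` is disjoint from `C`
(components are equal or disjoint, and `w ∉ C`). The chain from `u'` to `w` in `K u'` together with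
the step `v → u'` stays in `B \ C`. -/

namespace Pool.Agent.Lib.MP_104326_lc

theorem rt_symm_aux {P : Finset (ℤ × ℤ)} {a b : ℤ × ℤ} (ha : a ∈ P)
    (h : Relation.ReflTransGen (fun x y => y ∈ P ∧ Adj x y) a b) :
    b ∈ P ∧ Relation.ReflTransGen (fun x y => y ∈ P ∧ Adj x y) b a := by
  induction h with
  | refl => exact ⟨ha, Relation.ReflTransGen.refl⟩
  | tail h1 h2 ih =>
    exact ⟨h2.1, Relation.ReflTransGen.head ⟨ih.1, adj_comm.1 h2.2⟩ ih.2⟩

theorem rt_mono_aux {P Q : Finset (ℤ × ℤ)} (hPQ : P ⊆ Q) {a b : ℤ × ℤ}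
    (h : Relation.ReflTransGen (fun x y => y ∈ P ∧ Adj x y) a b) :
    Relation.ReflTransGen (fun x y => y ∈ Q ∧ Adj x y) a b := by
  induction h with
  | refl => exact Relation.ReflTransGen.refl
  | tail h1 h2 ih => exact ih.tail ⟨hPQ h2.1, h2.2⟩

theorem conn_of_root_aux {P : Finset (ℤ × ℤ)} {v : ℤ × ℤ} (hv : v ∈ P)
    (h : ∀ w ∈ P, Relation.ReflTransGen (fun x y => y ∈ P ∧ Adj x y) v w) : Conn P := by
  intro a ha b hb
  exact (rt_symm_aux hv (h a ha)).2.trans (h b hb)

theorem exists_branch {B : Finset (ℤ × ℤ)} {v : ℤ × ℤ} {k : ℕ} (hB : Conn B) (hv : v ∈ B)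
    (h2 : 2 ≤ B.card) (hk : (B.filter fun u => Adj v u).card ≤ k) :
    ∃ C ⊆ B, v ∉ C ∧ C.Nonempty ∧ Conn C ∧ Conn (B \ C) ∧ B.card ≤ k * C.card + 1 ∧
      ∃ u ∈ C, Adj v u := by
  classical
  obtain ⟨B', hB'⟩ : ∃ B', B' = B.erase v := ⟨_, rfl⟩
  have hvB' : v ∉ B' := by rw [hB']; exact Finset.notMem_erase v B
  have hsub : B' ⊆ B := by rw [hB']; exact Finset.erase_subset v B
  have hcard : B'.card + 1 = B.card := by rw [hB']; exact Finset.card_erase_add_one hv
  have hmem : ∀ x, x ∈ B' ↔ x ≠ v ∧ x ∈ B := by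
    intro x; rw [hB']; exact Finset.mem_erase
  obtain ⟨K, hK⟩ : ∃ K : ℤ × ℤ → Finset (ℤ × ℤ), ∀ w x, x ∈ K w ↔
      x ∈ B' ∧ Relation.ReflTransGen (fun x y => y ∈ B' ∧ Adj x y) w x :=
    ⟨fun w => B'.filter (fun x => Relation.ReflTransGen (fun x y => y ∈ B' ∧ Adj x y) w x),
      fun w x => Finset.mem_filter⟩
  have hself : ∀ w ∈ B', w ∈ K w := fun w hw => (hK w w).2 ⟨hw, Relation.ReflTransGen.refl⟩
  have hstay : ∀ w ∈ B', ∀ x, Relation.ReflTransGen (fun x y => y ∈ B' ∧ Adj x y) w x →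
      Relation.ReflTransGen (fun x y => y ∈ K w ∧ Adj x y) w x := by
    intro w hw x hx
    induction hx with
    | refl => exact Relation.ReflTransGen.refl
    | tail h1 h2 ih =>
      exact ih.tail ⟨(hK _ _).2 ⟨h2.1, h1.tail h2⟩, h2.2⟩
  have hconn : ∀ w ∈ B', Conn (K w) := by
    intro w hw
    exact conn_of_root_aux (hself w hw) (fun x hx => hstay w hw x ((hK w x).1 hx).2)
  have hreach : ∀ x, Relation.ReflTransGen (fun x y => y ∈ B ∧ Adj x y) v x →
      x = v ∨ ∃ u ∈ B', Adj v u ∧ Relation.ReflTransGen (fun x y => y ∈ B' ∧ Adj x y) u x := by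
    intro x hx
    induction hx with
    | refl => exact Or.inl rfl
    | tail h1 h2 ih =>
      rename_i y z
      by_cases hz : z = v
      · exact Or.inl hz
      · right
        have hzB : z ∈ B' := (hmem z).2 ⟨hz, h2.1⟩
        rcases ih with hy | ⟨u, hu, huv, huy⟩
        · subst hy
          exact ⟨z, hzB, h2.2, Relation.ReflTransGen.refl⟩
        · exact ⟨u, hu, huv, huy.tail ⟨hzB, h2.2⟩⟩
  have hcov : ∀ w ∈ B', ∃ u ∈ B', Adj v u ∧
      Relation.ReflTransGen (fun x y => y ∈ B' ∧ Adj x y) u w := by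
    intro w hw
    rcases hreach w (hB v hv w (hsub hw)) with h | h
    · exact absurd hw (h ▸ hvB')
    · exact h
  have hNmem : ∀ u, u ∈ B.filter (fun u => Adj v u) → u ∈ B' := by
    intro u hu
    rw [Finset.mem_filter] at hu
    refine (hmem u).2 ⟨?_, hu.1⟩
    rintro rfl
    have := hu.2
    unfold Adj at this
    simp at this
  have hbU : B' ⊆ (B.filter (fun u => Adj v u)).biUnion K := by
    intro w hw
    obtain ⟨u, hu, huv, huw⟩ := hcov w hw
    exact Finset.mem_biUnion.2 ⟨u, Finset.mem_filter.2 ⟨hsub hu, huv⟩, (hK u w).2 ⟨hw, huw⟩⟩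
  obtain ⟨u, huN, hubig⟩ : ∃ u ∈ B.filter (fun u => Adj v u), B'.card ≤ k * (K u).card := by
    by_contra hcon
    push Not at hcon
    have hne : (B.filter (fun u => Adj v u)).Nonempty := by
      have : B'.Nonempty := by
        rw [← Finset.card_pos]; omega
      obtain ⟨w, hw⟩ := this
      obtain ⟨u, hu, huv, -⟩ := hcov w hw
      exact ⟨u, Finset.mem_filter.2 ⟨hsub hu, huv⟩⟩
    have h1 : B'.card ≤ ∑ u ∈ B.filter (fun u => Adj v u), (K u).card :=
      (Finset.card_le_card hbU).trans Finset.card_biUnion_le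
    have h3 : ∑ u ∈ B.filter (fun u => Adj v u), k * (K u).card <
        ∑ u ∈ B.filter (fun u => Adj v u), B'.card :=
      Finset.sum_lt_sum_of_nonempty hne (fun u hu => hcon u hu)
    rw [← Finset.mul_sum, Finset.sum_const, smul_eq_mul] at h3
    have h4 : k * B'.card ≤ k * ∑ u ∈ B.filter (fun u => Adj v u), (K u).card :=
      Nat.mul_le_mul_left k h1
    have h5 : (B.filter (fun u => Adj v u)).card * B'.card ≤ k * B'.card :=
      Nat.mul_le_mul_right _ hk
    omega
  have huB' : u ∈ B' := hNmem u huN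
  have hvC : v ∉ K u := fun h => hvB' ((hK u v).1 h).1
  have hCB : K u ⊆ B := fun x hx => hsub ((hK u x).1 hx).1
  refine ⟨K u, hCB, hvC, ⟨u, hself u huB'⟩, hconn u huB', ?_, by omega,
    u, hself u huB', (Finset.mem_filter.1 huN).2⟩
  have hvBC : v ∈ B \ K u := Finset.mem_sdiff.2 ⟨hv, hvC⟩
  refine conn_of_root_aux hvBC ?_
  intro w hw
  rw [Finset.mem_sdiff] at hw
  by_cases hwv : w = v
  · rw [hwv]
  · have hwB' : w ∈ B' := (hmem w).2 ⟨hwv, hw.1⟩
    obtain ⟨u', hu', hvu', hu'w⟩ := hcov w hwB'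
    have hsub' : K u' ⊆ B \ K u := by
      intro x hx
      have hx' := (hK u' x).1 hx
      refine Finset.mem_sdiff.2 ⟨hsub hx'.1, fun hxu => hw.2 ?_⟩
      have hxu' := (hK u x).1 hxu
      exact (hK u w).2 ⟨hwB', hxu'.2.trans ((rt_symm_aux hu' hx'.2).2.trans hu'w)⟩
    exact Relation.ReflTransGen.head ⟨hsub' (hself u' hu'), hvu'⟩
      (rt_mono_aux hsub' (hstay u' hu' w hu'w))

end Pool.Agent.Lib.MP_104326_lc
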