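import Mathlib

/-! KC, module B1: the alternating sum that extracts the constant term.

PROOF. `∑ j ∈ range (N + 1), (-1)^j * C(N, j) * j^d = 0` for `d < N` (Mathlib: see
`fwdDiff_iter_pow_eq_zero_of_lt`, `fwdDiff_iter_eq_sum_shift`, `Finset.sum_range_choose`,
`Int.alternating_sum_range_choose`, or prove it by induction on `N`: for
`S N f := ∑ j ∈ range (N + 1), (-1)^j * C(N, j) * f j` one has
`S (N + 1) f = S N (fun j => f j - f (j + 1))`, and `j ^ d - (j + 1) ^ d` is an integer combination of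
the `j ^ i`, `i < d`; so the claim follows by induction). Here `d = e` with `e + 1 ≤ N`, and the term
`j = 0` is `0 ^ e`, which is `1` for `e = 0` and `0` otherwise. Shift the index: the terms
`j = 1, …, N` are `- ∑ j ∈ range N, (-1)^j * C(N, j+1) * (j+1)^e`. -/

namespace Pool.Agent.Lib.MP_104326_lc

theorem alt_sum {N e : ℕ} (he : e < N) :
    ∑ j ∈ Finset.range N, (-1 : ℤ) ^ j * (N.choose (j + 1) : ℤ) * ((j : ℤ) + 1) ^ e =
      if e = 0 then 1 else 0 := by
  have h1 : ((fwdDiff (1 : ℤ))^[N] (fun x : ℤ => x ^ e)) 0 = 0 := by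
    rw [fwdDiff_iter_pow_eq_zero_of_lt he]; rfl
  rw [fwdDiff_iter_eq_sum_shift] at h1
  have h2 : ∑ k ∈ Finset.range (N + 1), (-1 : ℤ) ^ k * (N.choose k : ℤ) * (k : ℤ) ^ e = 0 := by
    have h3 : (-1 : ℤ) ^ N * ∑ k ∈ Finset.range (N + 1),
        (-1 : ℤ) ^ k * (N.choose k : ℤ) * (k : ℤ) ^ e = 0 := by
      rw [Finset.mul_sum, ← h1]
      refine Finset.sum_congr rfl (fun k hk => ?_)
      have hkN : k ≤ N := by
        have := Finset.mem_range.1 hk; omega
      have h4 : (-1 : ℤ) ^ N = (-1) ^ (N - k) * (-1) ^ k := by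
        rw [← pow_add, Nat.sub_add_cancel hkN]
      have h5 : (-1 : ℤ) ^ k * (-1) ^ k = 1 := by
        rw [← mul_pow]; norm_num
      rw [h4]
      simp only [smul_eq_mul, nsmul_eq_mul, mul_one, zero_add]
      calc (-1 : ℤ) ^ (N - k) * (-1) ^ k * ((-1) ^ k * (N.choose k : ℤ) * (k : ℤ) ^ e)
          = ((-1 : ℤ) ^ k * (-1) ^ k) * ((-1) ^ (N - k) * (N.choose k : ℤ) * (k : ℤ) ^ e) := by
            ring
        _ = _ := by rw [h5, one_mul]
    have h6 : (-1 : ℤ) ^ N ≠ 0 := pow_ne_zero _ (by norm_num)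
    exact (mul_eq_zero.1 h3).resolve_left h6
  rw [Finset.sum_range_succ'] at h2
  have h7 : ∑ k ∈ Finset.range N, (-1 : ℤ) ^ (k + 1) * (N.choose (k + 1) : ℤ) *
      ((k + 1 : ℕ) : ℤ) ^ e = -∑ j ∈ Finset.range N,
      (-1 : ℤ) ^ j * (N.choose (j + 1) : ℤ) * ((j : ℤ) + 1) ^ e := by
    rw [← Finset.sum_neg_distrib]
    refine Finset.sum_congr rfl (fun k _ => ?_)
    push_cast
    ring
  rw [h7] at h2
  have h8 : ((-1 : ℤ) ^ 0 * (N.choose 0 : ℤ) * ((0 : ℕ) : ℤ) ^ e) = if e = 0 then 1 else 0 := by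
    rcases Nat.eq_zero_or_pos e with h | h
    · subst h; simp
    · have : e ≠ 0 := by omega
      simp [this]
  rw [h8] at h2
  linarith

end Pool.Agent.Lib.MP_104326_lc
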