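import Pool.Agent.Lib.MP_104326_lc.Base

/-! KC, module B2: the number of the labellings of a set with `c` components is `j ^ (c - 1)`.

PROOF. On the (finite, nonempty) type `{x // x ∈ S}` let `x ~ y` iff
`Relation.ReflTransGen (fun x y => y ∈ S ∧ Adj x y) x y` (symmetric, because `Adj` is symmetric and all
cells of the chain are in `S`), let `Q` be the quotient type (finite, classical), `q0` the class of the
origin, and `e := Nat.card Q - 1`. Then `Nat.card Q ≤ S.card` (the quotient map is surjective) and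
`Nat.card Q ≥ 1`. `e = 0` iff `Q` has one element iff all cells of `S` are connected with each other iff
`Conn S`. For a labelling `F` with `IsLab S j F` the values of `F` on `S` are in `1, …, j` and constant
on the classes (chains), `F` is `0` outside of `S`, and the class `q0` has the value `1`. So `F`
corresponds to a function `G : Q → Fin j` with `G q0 = 0` (here `j ≥ 1`), by
`F x = if x ∈ S then G [x] + 1 else 0`. This is a bijection: for a `G` the function `F` satisfies
`IsLab`. The number of the `G : Q → Fin j` with `G q0 = 0` is `j ^ (Nat.card Q - 1)`: they correspond to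
the functions `{q // q ≠ q0} → Fin j`. -/

namespace Pool.Agent.Lib.MP_104326_lc

theorem chain_mem {S : Finset (ℤ × ℤ)} {a b : ℤ × ℤ} (ha : a ∈ S)
    (h : Relation.ReflTransGen (fun x y => y ∈ S ∧ Adj x y) a b) : b ∈ S := by
  induction h with
  | refl => exact ha
  | tail _ hcd _ => exact hcd.1

theorem chain_symm {S : Finset (ℤ × ℤ)} {a b : ℤ × ℤ} (ha : a ∈ S)
    (h : Relation.ReflTransGen (fun x y => y ∈ S ∧ Adj x y) a b) :
    Relation.ReflTransGen (fun x y => y ∈ S ∧ Adj x y) b a := by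
  induction h with
  | refl => exact Relation.ReflTransGen.refl
  | tail hab hcd ih =>
    exact Relation.ReflTransGen.head ⟨chain_mem ha hab, adj_comm.1 hcd.2⟩ ih

theorem chain_lab {S : Finset (ℤ × ℤ)} {j : ℕ} {F : ℤ × ℤ → ℕ} (hF : IsLab S j F) {a b : ℤ × ℤ}
    (ha : a ∈ S) (h : Relation.ReflTransGen (fun x y => y ∈ S ∧ Adj x y) a b) : F a = F b := by
  induction h with
  | refl => rfl
  | tail hab hcd ih => exact ih.trans (hF.2.2.1 _ (chain_mem ha hab) _ hcd.1 hcd.2)

/-- Two cells of `S` are equivalent if they are in the same component. -/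
def compSetoid (S : Finset (ℤ × ℤ)) : Setoid {x : ℤ × ℤ // x ∈ S} where
  r a b := Relation.ReflTransGen (fun x y => y ∈ S ∧ Adj x y) a.1 b.1
  iseqv :=
    { refl := fun _ => Relation.ReflTransGen.refl
      symm := fun {a _} h => chain_symm a.2 h
      trans := fun h1 h2 => Relation.ReflTransGen.trans h1 h2 }

/-- The components of `S`. -/
abbrev Comp (S : Finset (ℤ × ℤ)) : Type := Quotient (compSetoid S)

theorem conn_iff_sub (S : Finset (ℤ × ℤ)) : Conn S ↔ Subsingleton (Comp S) := by
  constructor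
  · intro h
    refine ⟨fun p q => ?_⟩
    induction p using Quotient.inductionOn with
    | _ a =>
      induction q using Quotient.inductionOn with
      | _ b => exact Quotient.sound (h a.1 a.2 b.1 b.2)
  · intro h a ha b hb
    have h1 : (Quotient.mk (compSetoid S) ⟨a, ha⟩) = Quotient.mk (compSetoid S) ⟨b, hb⟩ :=
      Subsingleton.elim _ _
    exact Quotient.exact h1

open Classical in
/-- The labelling given by the labels of the components. -/
noncomputable def labOf (S : Finset (ℤ × ℤ)) (q0 : Comp S) (j : ℕ)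
    (G : {q : Comp S // q ≠ q0} → Fin j) (x : ℤ × ℤ) : ℕ :=
  if h : x ∈ S then
    (if hq : Quotient.mk (compSetoid S) ⟨x, h⟩ = q0 then 1
      else (G ⟨Quotient.mk (compSetoid S) ⟨x, h⟩, hq⟩ : ℕ) + 1)
  else 0

theorem labOf_isLab {S : Finset (ℤ × ℤ)} (hS : (0, 0) ∈ S) {j : ℕ} (hj : 1 ≤ j)
    (G : {q : Comp S // q ≠ Quotient.mk (compSetoid S) ⟨(0, 0), hS⟩} → Fin j) :
    IsLab S j (labOf S (Quotient.mk (compSetoid S) ⟨(0, 0), hS⟩) j G) := by
  refine ⟨?_, ?_, ?_, ?_⟩
  · intro x
    unfold labOf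
    by_cases h : x ∈ S
    · simp only [h, dif_pos, iff_true]
      split_ifs <;> omega
    · simp [h]
  · intro x
    unfold labOf
    split_ifs with h hq
    · exact hj
    · exact (G _).2
    · omega
  · intro x hx y hy hxy
    have hmk : Quotient.mk (compSetoid S) ⟨x, hx⟩ = Quotient.mk (compSetoid S) ⟨y, hy⟩ :=
      Quotient.sound (Relation.ReflTransGen.single ⟨hy, hxy⟩)
    unfold labOf
    simp only [hx, hy, dif_pos]
    by_cases hq : Quotient.mk (compSetoid S) ⟨x, hx⟩ = Quotient.mk (compSetoid S) ⟨(0, 0), hS⟩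
    · have hq' : Quotient.mk (compSetoid S) ⟨y, hy⟩ = Quotient.mk (compSetoid S) ⟨(0, 0), hS⟩ := by
        rw [← hmk]; exact hq
      rw [dif_pos hq, dif_pos hq']
    · have hq' : ¬ Quotient.mk (compSetoid S) ⟨y, hy⟩
          = Quotient.mk (compSetoid S) ⟨(0, 0), hS⟩ := by
        rw [← hmk]; exact hq
      rw [dif_neg hq, dif_neg hq']
      have h3 : (⟨Quotient.mk (compSetoid S) ⟨x, hx⟩, hq⟩ :
          {q : Comp S // q ≠ Quotient.mk (compSetoid S) ⟨(0, 0), hS⟩})
          = ⟨Quotient.mk (compSetoid S) ⟨y, hy⟩, hq'⟩ := Subtype.ext hmk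
      rw [h3]
  · unfold labOf
    simp [hS]

theorem lab_card_eq {S : Finset (ℤ × ℤ)} (hS : (0, 0) ∈ S) {j : ℕ} (hj : 1 ≤ j) :
    Nat.card {F : ℤ × ℤ → ℕ // IsLab S j F}
      = Nat.card ({q : Comp S // q ≠ Quotient.mk (compSetoid S) ⟨(0, 0), hS⟩} → Fin j) := by
  symm
  refine Nat.card_congr (Equiv.ofBijective
    (fun G => ⟨labOf S (Quotient.mk (compSetoid S) ⟨(0, 0), hS⟩) j G, labOf_isLab hS hj G⟩) ⟨?_, ?_⟩)
  · intro G G' h
    have h1 : labOf S (Quotient.mk (compSetoid S) ⟨(0, 0), hS⟩) j G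
        = labOf S (Quotient.mk (compSetoid S) ⟨(0, 0), hS⟩) j G' := congrArg Subtype.val h
    funext q
    obtain ⟨q, hq⟩ := q
    induction q using Quotient.inductionOn with
    | _ a =>
      have h2 := congrFun h1 a.1
      unfold labOf at h2
      have hq2 : ¬ Quotient.mk (compSetoid S) ⟨a.1, a.2⟩
          = Quotient.mk (compSetoid S) ⟨(0, 0), hS⟩ := hq
      rw [dif_pos a.2, dif_pos a.2, dif_neg hq2, dif_neg hq2] at h2
      exact Fin.ext (Nat.succ_injective h2)
  · rintro ⟨F, hF⟩
    have hval : ∀ x ∈ S, 1 ≤ F x := fun x hx => Nat.one_le_iff_ne_zero.2 ((hF.1 x).2 hx)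
    have hlt : ∀ x ∈ S, F x - 1 < j := by
      intro x hx
      have h1 := hval x hx
      have h2 := hF.2.1 x
      omega
    refine ⟨fun q => ⟨F (Quotient.out q.1).1 - 1, hlt _ (Quotient.out q.1).2⟩, ?_⟩
    apply Subtype.ext
    funext x
    dsimp only
    unfold labOf
    by_cases hx : x ∈ S
    · rw [dif_pos hx]
      by_cases hq : Quotient.mk (compSetoid S) ⟨x, hx⟩ = Quotient.mk (compSetoid S) ⟨(0, 0), hS⟩
      · rw [dif_pos hq]
        have h1 : F x = F (0, 0) := chain_lab hF hx (Quotient.exact hq)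
        rw [h1, hF.2.2.2]
      · rw [dif_neg hq]
        have h2 : Quotient.mk (compSetoid S) (Quotient.out (Quotient.mk (compSetoid S) ⟨x, hx⟩))
            = Quotient.mk (compSetoid S) ⟨x, hx⟩ := Quotient.out_eq _
        have h3 : F (Quotient.out (Quotient.mk (compSetoid S) ⟨x, hx⟩)).1 = F x :=
          chain_lab hF (Quotient.out (Quotient.mk (compSetoid S) ⟨x, hx⟩)).2 (Quotient.exact h2)
        change F (Quotient.out (Quotient.mk (compSetoid S) ⟨x, hx⟩)).1 - 1 + 1 = F x
        rw [h3]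
        have h4 := hval x hx
        omega
    · rw [dif_neg hx]
      by_contra hne
      exact hx ((hF.1 x).1 (Ne.symm hne))

theorem card_lab {S : Finset (ℤ × ℤ)} (hS : (0, 0) ∈ S) :
    ∃ e : ℕ, e + 1 ≤ S.card ∧ (e = 0 ↔ Conn S) ∧
      ∀ j, 1 ≤ j → Nat.card {F : ℤ × ℤ → ℕ // IsLab S j F} = j ^ e := by
  classical
  have : Fintype (Comp S) := Fintype.ofFinite _
  have hpos : 0 < Nat.card (Comp S) := by
    have : Nonempty (Comp S) := ⟨Quotient.mk (compSetoid S) ⟨(0, 0), hS⟩⟩
    exact Nat.card_pos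
  have hle : Nat.card (Comp S) ≤ S.card := by
    have h1 : Nat.card (Comp S) ≤ Nat.card {x : ℤ × ℤ // x ∈ S} :=
      Nat.card_le_card_of_surjective (Quotient.mk (compSetoid S)) Quotient.mk_surjective
    simpa using h1
  refine ⟨Nat.card (Comp S) - 1, by omega, ?_, ?_⟩
  · rw [conn_iff_sub, ← Finite.card_le_one_iff_subsingleton]
    omega
  · intro j hj
    rw [lab_card_eq hS hj, Nat.card_fun]
    congr 1
    · simp
    · rw [Nat.card_eq_fintype_card, Nat.card_eq_fintype_card]
      exact Set.card_ne_eq _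

theorem finite_lab (S : Finset (ℤ × ℤ)) (j : ℕ) : Finite {F : ℤ × ℤ → ℕ // IsLab S j F} := by
  refine Finite.of_injective (β := {x : ℤ × ℤ // x ∈ S} → Fin (j + 1))
    (fun F x => ⟨F.1 x.1, Nat.lt_succ_of_le (F.2.2.1 x.1)⟩) ?_
  rintro ⟨F, hF⟩ ⟨F', hF'⟩ h
  apply Subtype.ext
  funext x
  by_cases hx : x ∈ S
  · have h1 := congrFun h ⟨x, hx⟩
    exact congrArg Fin.val h1
  · have h1 : F x = 0 := by
      by_contra hne
      exact hx ((hF.1 x).1 hne)
    have h2 : F' x = 0 := by
      by_contra hne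
      exact hx ((hF'.1 x).1 hne)
    change F x = F' x
    rw [h1, h2]

end Pool.Agent.Lib.MP_104326_lc
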