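import Pool.Agent.Lib.MP_104326_lc.KC.B1
import Pool.Agent.Lib.MP_104326_lc.KC.B2

/-! KC, module B3: connected sets as a signed count of labellings.

PROOF. For `j ≥ 1` the type `{F // ∃ S ∈ 𝒮, IsLab S j F}` is in bijection with the sigma type
`Σ S : 𝒮, {F // IsLab S j F}`, since `F` determines `S` (`S` is its support, by the first clause of
`IsLab`). So its card is `∑ S ∈ 𝒮, Nat.card {F // IsLab S j F} = ∑ S ∈ 𝒮, j ^ e S` with the exponent
`e S` of `card_lab` (choose it; `e S < N` as `e S + 1 ≤ S.card = N`). Exchange the sums and apply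
`alt_sum` (with `e := e S`): `∑ S ∈ 𝒮, (if e S = 0 then 1 else 0) = #(𝒮.filter Conn)`. -/

namespace Pool.Agent.Lib.MP_104326_lc

theorem card_lab_fam (𝒮 : Finset (Finset (ℤ × ℤ))) (j : ℕ) :
    Nat.card {F : ℤ × ℤ → ℕ // ∃ S ∈ 𝒮, IsLab S j F} =
      ∑ S ∈ 𝒮, Nat.card {F : ℤ × ℤ → ℕ // IsLab S j F} := by
  classical
  let f : (Σ S : {S // S ∈ 𝒮}, {F : ℤ × ℤ → ℕ // IsLab S.1 j F}) →
      {F : ℤ × ℤ → ℕ // ∃ S ∈ 𝒮, IsLab S j F} := fun p => ⟨p.2.1, p.1.1, p.1.2, p.2.2⟩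
  have hf : Function.Bijective f := by
    constructor
    · rintro ⟨⟨S, hS⟩, ⟨F, hF⟩⟩ ⟨⟨S', hS'⟩, ⟨F', hF'⟩⟩ h
      have h1 : F = F' := congrArg (fun x => x.1) h
      subst h1
      have h2 : S = S' := by
        ext x
        rw [← hF.1 x, ← hF'.1 x]
      subst h2
      rfl
    · rintro ⟨F, S, hS, hF⟩
      exact ⟨⟨⟨S, hS⟩, ⟨F, hF⟩⟩, rfl⟩
  haveI : ∀ S : {S // S ∈ 𝒮}, Finite {F : ℤ × ℤ → ℕ // IsLab S.1 j F} := fun S => finite_lab S.1 j
  rw [← Nat.card_congr (Equiv.ofBijective f hf), Nat.card_sigma]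
  exact Finset.sum_coe_sort 𝒮 (fun S => Nat.card {F : ℤ × ℤ → ℕ // IsLab S j F})

open Classical in
theorem signed_count {𝒮 : Finset (Finset (ℤ × ℤ))} {N : ℕ}
    (h : ∀ S ∈ 𝒮, (0, 0) ∈ S ∧ S.card = N) :
    ((𝒮.filter fun S => Conn S).card : ℤ) = ∑ j ∈ Finset.range N, (-1 : ℤ) ^ j *
      (N.choose (j + 1) : ℤ) * (Nat.card {F : ℤ × ℤ → ℕ // ∃ S ∈ 𝒮, IsLab S (j + 1) F} : ℤ) := by
  have key : ∀ S ∈ 𝒮, ∃ e : ℕ, e < N ∧ (e = 0 ↔ Conn S) ∧
      ∀ j, 1 ≤ j → Nat.card {F : ℤ × ℤ → ℕ // IsLab S j F} = j ^ e := by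
    intro S hS
    obtain ⟨e, h1, h2, h3⟩ := card_lab (h S hS).1
    exact ⟨e, by rw [(h S hS).2] at h1; omega, h2, h3⟩
  choose! e he using key
  calc ((𝒮.filter fun S => Conn S).card : ℤ) = ∑ S ∈ 𝒮, (if e S = 0 then (1 : ℤ) else 0) := by
        rw [Finset.card_filter]
        push_cast
        apply Finset.sum_congr rfl
        intro S hS
        by_cases hc : Conn S
        · rw [if_pos hc, if_pos ((he S hS).2.1.2 hc)]
        · rw [if_neg hc, if_neg fun h0 => hc ((he S hS).2.1.1 h0)]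
    _ = ∑ S ∈ 𝒮, ∑ j ∈ Finset.range N, (-1 : ℤ) ^ j * (N.choose (j + 1) : ℤ) *
          ((j : ℤ) + 1) ^ (e S) := by
        apply Finset.sum_congr rfl
        intro S hS
        rw [alt_sum (he S hS).1]
    _ = _ := by
        rw [Finset.sum_comm]
        apply Finset.sum_congr rfl
        intro j _
        rw [card_lab_fam, Nat.cast_sum, Finset.mul_sum]
        apply Finset.sum_congr rfl
        intro S hS
        rw [(he S hS).2.2 (j + 1) (by omega)]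
        push_cast
        ring

end Pool.Agent.Lib.MP_104326_lc
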