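import Pool.Agent.Lib.MP_104326_lc.Auto

/-! KC, module C1: the recursion `cnt` counts the accepted words.

PROOF. `mem_words`, `nodup_words`: induction on `m` (for the second: `List.nodup_flatMap`, `List.Nodup.map`;
words with different first letters are different). `cnt_eq`: induction on `m`. `m = 0`: both sides are
`if acc N h r st then 1 else 0`. Step: `words (j + 1) (m + 1)` is the flatMap over `a ∈ List.range (j + 1)`
of `(words (j + 1) m).map (a :: ·)`; so the number of the accepted words is the sum over `a` of the
number of the `w ∈ words (j + 1) m` with `run N h r p st (a :: w)`, where `p = len N h - (m + 1)`, and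
`run N h r p st (a :: w) = (ok N h r p st a && run N h r (p + 1) (nxt N h p st a) w)`, with
`p + 1 = len N h - m` as `m + 1 ≤ len N h`. If `ok` is false the number is `0`, otherwise it is
`cnt N h r j m (nxt N h p st a)` by induction. -/

namespace Pool.Agent.Lib.MP_104326_lc

theorem mem_words {B m : ℕ} {w : List ℕ} : w ∈ words B m ↔ w.length = m ∧ ∀ a ∈ w, a < B := by
  induction m generalizing w with
  | zero =>
    simp only [words, List.mem_singleton, List.length_eq_zero_iff]
    constructor
    · rintro rfl
      simp
    · exact fun h => h.1
  | succ m ih =>
    simp only [words, List.mem_flatMap, List.mem_range, List.mem_map]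
    constructor
    · rintro ⟨a, ha, v, hv, rfl⟩
      obtain ⟨h1, h2⟩ := ih.1 hv
      refine ⟨by rw [List.length_cons, h1], ?_⟩
      intro b hb
      rcases List.mem_cons.1 hb with rfl | hb
      · exact ha
      · exact h2 b hb
    · rintro ⟨h1, h2⟩
      rcases w with _ | ⟨a, v⟩
      · simp at h1
      · refine ⟨a, h2 a (List.mem_cons_self), v, ih.2 ⟨?_, ?_⟩, rfl⟩
        · simpa using h1
        · exact fun b hb => h2 b (List.mem_cons_of_mem _ hb)

theorem nodup_words (B m : ℕ) : (words B m).Nodup := by
  induction m with
  | zero => simp [words]
  | succ m ih =>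
    rw [words, List.nodup_flatMap]
    refine ⟨fun a _ => ih.map (fun u v h => (List.cons.inj h).2), ?_⟩
    refine (List.nodup_range (n := B)).imp ?_
    intro a b hab u hu hv
    obtain ⟨x, -, rfl⟩ := List.mem_map.1 hu
    obtain ⟨y, -, hy⟩ := List.mem_map.1 hv
    exact hab (List.cons.inj hy).1.symm

theorem cnt_eq {N h r j : ℕ} : ∀ (m : ℕ) (st : St), m ≤ len N h →
    cnt N h r j m st = ((words (j + 1) m).filter fun w => run N h r (len N h - m) st w).length := by
  intro m
  induction m with
  | zero =>
    intro st _
    by_cases hacc : acc N h r st = true
    · simp [cnt, words, run, hacc]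
    · simp [cnt, words, run, hacc]
  | succ m ih =>
    intro st hm
    have hp : len N h - (m + 1) + 1 = len N h - m := by omega
    rw [cnt, words, List.filter_flatMap, List.length_flatMap]
    congr 1
    refine List.map_congr_left fun a _ => ?_
    rw [List.filter_map, List.length_map]
    by_cases hok : ok N h r (len N h - (m + 1)) st a = true
    · rw [if_pos hok, ih _ (by omega)]
      congr 1
      refine List.filter_congr fun w _ => ?_
      rw [Function.comp_apply, run, hok, Bool.true_and, hp]
    · rw [if_neg hok]
      symm
      rw [List.length_eq_zero_iff, List.filter_eq_nil_iff]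
      intro w _
      rw [Function.comp_apply, run, Bool.eq_false_iff.2 hok, Bool.false_and]
      exact Bool.false_ne_true

end Pool.Agent.Lib.MP_104326_lc
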