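import Pool.Agent.Lib.MP_104326_lc.Auto

/-! KC, module C2a: the state of the automaton after `p` letters.

PROOF. `stAt_zero`: `cutN N + k + 1 ≤ 0` is false, ranges are empty (`List.map_const'`,
`List.eq_replicate_iff`).
`nxt_stAt`, case `p < cutN N`: `min (p + 1) (cutN N) = p + 1`, `min p (cutN N) = p`,
`p - cutN N = 0 = p + 1 - cutN N`, and for all `k` both `cutN N + k + 1 ≤ p` and
`cutN N + k + 1 ≤ p + 1` are false; `Finset.range_add_one`, `Finset.filter_insert`, and `codes N x (p + 1)`
is `(p * (N + 1) + x p) :: codes N x p` if `x p ≠ 0`, else `codes N x p` (`List.range_succ`,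
`List.filter_append`, `List.reverse_append`).
Case `cutN N ≤ p`: `min (p + 1) (cutN N) = min p (cutN N) = cutN N`; with `m = p - cutN N`,
`p + 1 - cutN N = m + 1` and `cutN N + m = p`. The list of the last letters: entry `0` is `x p` on both
sides; entry `k ≥ 1` (`k < h`): `(stAt N h x p).1.2.getD (k - 1) 0` is
`if cutN N + (k - 1) + 1 ≤ p then x (p - 1 - (k - 1)) else 0`, the right side is
`if cutN N + k + 1 ≤ p + 1 then x (p + 1 - 1 - k) else 0`: equal. The counters: entry `k` increases by one
iff `m % h = k` and `x p ≠ 0`. -/

namespace Pool.Agent.Lib.MP_104326_lc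

/-- The codes of the nonzero cut cells below `p`. -/
def codes (N : ℕ) (x : ℕ → ℕ) (p : ℕ) : List ℕ :=
  (((List.range p).filter fun q => decide (x q ≠ 0)).map fun q => q * (N + 1) + x q).reverse

/-- The state after `p` letters of the word `x`. -/
def stAt (N h : ℕ) (x : ℕ → ℕ) (p : ℕ) : St :=
  ((((Finset.range p).filter fun q => x q ≠ 0).card,
    (List.range h).map fun k => if cutN N + k + 1 ≤ p then x (p - 1 - k) else 0),
   ((List.range h).map fun k =>
      ((Finset.range (p - cutN N)).filter fun m => m % h = k ∧ x (cutN N + m) ≠ 0).card,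
    codes N x (min p (cutN N))))

theorem codes_succ (N : ℕ) (x : ℕ → ℕ) (p : ℕ) :
    codes N x (p + 1) = if x p = 0 then codes N x p else (p * (N + 1) + x p) :: codes N x p := by
  unfold codes
  rw [List.range_succ, List.filter_append, List.map_append, List.reverse_append]
  by_cases h : x p = 0
  · simp [h]
  · simp [h]

theorem length_codes (N : ℕ) (x : ℕ → ℕ) (p : ℕ) :
    (codes N x p).length = ((Finset.range p).filter fun q => x q ≠ 0).card := by
  induction p with
  | zero => simp [codes]
  | succ p ih =>
    rw [codes_succ, Finset.range_add_one, Finset.filter_insert]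
    by_cases h : x p = 0
    · simp only [h, ↓reduceIte, ne_eq, not_true_eq_false]
      exact ih
    · rw [if_neg h, if_pos h, Finset.card_insert_of_notMem (by simp), List.length_cons, ih]

theorem stAt_zero (N h : ℕ) (x : ℕ → ℕ) : stAt N h x 0 = start h := by
  unfold stAt start
  refine Prod.ext (Prod.ext ?_ ?_) (Prod.ext ?_ ?_)
  · simp
  · simp
  · simp
  · simp [codes]

private theorem C2a_card_succ (x : ℕ → ℕ) (p : ℕ) :
    (if x p = 0 then ((Finset.range p).filter fun q => x q ≠ 0).card
      else ((Finset.range p).filter fun q => x q ≠ 0).card + 1) =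
      ((Finset.range (p + 1)).filter fun q => x q ≠ 0).card := by
  rw [Finset.range_add_one, Finset.filter_insert]
  by_cases h : x p = 0
  · simp only [h, ↓reduceIte, ne_eq, not_true_eq_false]
  · rw [if_neg h, if_pos h, Finset.card_insert_of_notMem (by simp)]

private theorem C2a_getD {h k : ℕ} (f : ℕ → ℕ) (hk : k < h) :
    ((List.range h).map f).getD k 0 = f k := by
  simp [List.getD_eq_getElem?_getD, hk]

theorem nxt_stAt (N h : ℕ) (x : ℕ → ℕ) (p : ℕ) :
    nxt N h p (stAt N h x p) (x p) = stAt N h x (p + 1) := by
  unfold nxt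
  by_cases hp : p < cutN N
  · rw [if_pos hp]
    have h1 : min p (cutN N) = p := min_eq_left hp.le
    have h2 : min (p + 1) (cutN N) = p + 1 := min_eq_left hp
    have h3 : p - cutN N = 0 := by omega
    have h4 : p + 1 - cutN N = 0 := by omega
    have hl : ((List.range h).map fun k => if cutN N + k + 1 ≤ p then x (p - 1 - k) else 0) =
        (List.range h).map fun k => if cutN N + k + 1 ≤ p + 1 then x (p + 1 - 1 - k) else 0 := by
      apply List.map_congr_left
      intro k _
      rw [if_neg (by omega), if_neg (by omega)]
    have hc := C2a_card_succ x p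
    have hd := codes_succ N x p
    by_cases h0 : x p = 0
    · rw [if_pos h0] at hc hd ⊢
      unfold stAt
      rw [h1, h2, h3, h4, hd, ← hc, hl]
    · rw [if_neg h0] at hc hd ⊢
      unfold stAt
      rw [h1, h2, h3, h4, hd, ← hc, hl]
  · rw [if_neg hp]
    push Not at hp
    have h1 : min p (cutN N) = cutN N := min_eq_right hp
    have h2 : min (p + 1) (cutN N) = cutN N := min_eq_right (by omega)
    have h3 : p + 1 - cutN N = (p - cutN N) + 1 := by omega
    have h4 : cutN N + (p - cutN N) = p := by omega
    unfold stAt
    refine Prod.ext (Prod.ext ?_ ?_) (Prod.ext ?_ ?_)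
    · exact C2a_card_succ x p
    · apply List.map_congr_left
      intro k hk
      rw [List.mem_range] at hk
      rcases Nat.eq_zero_or_pos k with rfl | hk0
      · rw [if_pos rfl, if_pos (by omega)]
        rfl
      · rw [if_neg (by omega)]
        simp only
        rw [C2a_getD _ (by omega : k - 1 < h)]
        by_cases hb : cutN N + k ≤ p
        · rw [if_pos (by omega), if_pos (by omega)]
          congr 1
          omega
        · rw [if_neg (by omega), if_neg (by omega)]
    · apply List.map_congr_left
      intro k hk
      rw [List.mem_range] at hk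
      simp only
      rw [C2a_getD _ hk, h3, Finset.range_add_one, Finset.filter_insert, h4]
      by_cases hb : k = (p - cutN N) % h ∧ x p ≠ 0
      · rw [if_pos hb, if_pos ⟨hb.1.symm, hb.2⟩, Finset.card_insert_of_notMem (by simp)]
      · rw [if_neg hb, if_neg (fun h => hb ⟨h.1.symm, h.2⟩)]
    · simp only
      rw [h1, h2]

end Pool.Agent.Lib.MP_104326_lc
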