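import Pool.Agent.Lib.MP_104326_lc.KC.C2a

/-! KC, module C2b: reading labels from the codes.

PROOF. Membership: `b ∈ codes N x p ↔ ∃ q < p, x q ≠ 0 ∧ b = q * (N + 1) + x q`. As all `x q ≤ N`, from
`q * (N + 1) + a = q' * (N + 1) + x q'` with `a ≤ N` one gets `q = q'` and `a = x q'` (division by
`N + 1`). So for `a ≤ N`: `q * (N + 1) + a ∈ codes N x p ↔ q < p ∧ x q ≠ 0 ∧ a = x q`. The sum in `gl` over
`a ∈ List.range (N + 1)` has at most one nonzero term: if `q < p` it is `x q` (also for `x q = 0`: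
then there is no member and the sum is `0`), if `p ≤ q` it is `0`. (Convert the list sum to a Finset
sum: `Finset.sum_ite_eq`, or `List.sum_eq_...`.) -/

namespace Pool.Agent.Lib.MP_104326_lc

private theorem C2b_mem {N : ℕ} {x : ℕ → ℕ} (hx : ∀ q, x q ≤ N) {p q a : ℕ} (ha : a ≤ N) :
    q * (N + 1) + a ∈ codes N x p ↔ q < p ∧ x q ≠ 0 ∧ a = x q := by
  have hdiv : ∀ q a : ℕ, a ≤ N → (q * (N + 1) + a) / (N + 1) = q := by
    intro q a ha
    rw [Nat.add_comm, Nat.add_mul_div_right _ _ (Nat.succ_pos N), Nat.div_eq_of_lt (by omega),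
      Nat.zero_add]
  rw [codes, List.mem_reverse, List.mem_map]
  constructor
  · rintro ⟨q', h1, h2⟩
    rw [List.mem_filter, List.mem_range, decide_eq_true_iff] at h1
    have h3 : q' = q := by
      rw [← hdiv q' (x q') (hx q'), h2, hdiv q a ha]
    subst h3
    exact ⟨h1.1, h1.2, by omega⟩
  · rintro ⟨h1, h2, h3⟩
    refine ⟨q, ?_, by rw [h3]⟩
    rw [List.mem_filter, List.mem_range, decide_eq_true_iff]
    exact ⟨h1, h2⟩

private theorem C2b_sum (f : ℕ → ℕ) (n : ℕ) :
    ((List.range n).map f).sum = ∑ i ∈ Finset.range n, f i := by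
  induction n with
  | zero => rfl
  | succ n ih => rw [List.range_succ, List.map_append, List.sum_append, ih,
      Finset.sum_range_succ, List.map_singleton, List.sum_singleton]

theorem gl_of_lt {N : ℕ} {x : ℕ → ℕ} (hx : ∀ q, x q ≤ N) {p q : ℕ} (h : q < p) :
    gl N (codes N x p) q = x q := by
  rw [gl, C2b_sum]
  rw [Finset.sum_eq_single (x q)]
  · by_cases h0 : x q = 0
    · rw [h0]
      exact ite_self _
    · rw [if_pos ((C2b_mem hx (hx q)).2 ⟨h, h0, rfl⟩)]
  · intro a ha hne
    rw [Finset.mem_range] at ha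
    rw [if_neg]
    intro hm
    exact hne ((C2b_mem hx (by omega)).1 hm).2.2
  · intro hn
    exfalso
    apply hn
    rw [Finset.mem_range]
    have := hx q
    omega

theorem gl_of_le {N : ℕ} {x : ℕ → ℕ} (hx : ∀ q, x q ≤ N) {p q : ℕ} (h : p ≤ q) :
    gl N (codes N x p) q = 0 := by
  rw [gl, C2b_sum]
  apply Finset.sum_eq_zero
  intro a ha
  rw [Finset.mem_range] at ha
  rw [if_neg]
  intro hm
  have := ((C2b_mem hx (by omega)).1 hm).1
  omega

theorem compat_zero (a : ℕ) : compat a 0 = true := by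
  rw [compat, decide_eq_true (rfl : (0 : ℕ) = 0), Bool.true_or, Bool.or_true]

end Pool.Agent.Lib.MP_104326_lc
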