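import Pool.Agent.Lib.MP_104326_lc.KC.C2a

/-! KC, module C2c: acceptance in terms of the states `stAt`.

PROOF. Induction on `n` (with `p + n = L`): `List.range' p (n + 1) = p :: List.range' (p + 1) n`, the
definition of `run` on a cons, `nxt_stAt`, and the induction hypothesis for `p + 1`. `n = 0`: both sides
are `acc N h r (stAt N h x L)`. `run_iff'`: `p = 0`, `stAt_zero`; a list `w` of length `L` is
`(List.range' 0 L).map (fun p => w.getD p 0)` (`List.ext_getElem`). -/

namespace Pool.Agent.Lib.MP_104326_lc

theorem run_iff {N h r : ℕ} {x : ℕ → ℕ} {L : ℕ} : ∀ (n p : ℕ), p + n = L →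
    (run N h r p (stAt N h x p) ((List.range' p n).map x) = true ↔
      (∀ q, p ≤ q → q < L → ok N h r q (stAt N h x q) (x q) = true) ∧
        acc N h r (stAt N h x L) = true) := by
  intro n
  induction n with
  | zero =>
    intro p hp
    have hp' : p = L := by omega
    subst hp'
    rw [List.range'_zero, List.map_nil]
    constructor
    · intro h1
      exact ⟨fun q h2 h3 => absurd h3 (by omega), h1⟩
    · intro h1
      exact h1.2
  | succ n ih =>
    intro p hp
    rw [List.range'_succ, List.map_cons]
    have h0 : run N h r p (stAt N h x p) (x p :: (List.range' (p + 1) n).map x) =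
        (ok N h r p (stAt N h x p) (x p) &&
          run N h r (p + 1) (nxt N h p (stAt N h x p) (x p)) ((List.range' (p + 1) n).map x)) := rfl
    rw [h0, nxt_stAt, Bool.and_eq_true, ih (p + 1) (by omega)]
    constructor
    · rintro ⟨h1, h2, h3⟩
      refine ⟨fun q hq hL => ?_, h3⟩
      rcases Nat.eq_or_lt_of_le hq with h4 | h4
      · rw [← h4]
        exact h1
      · exact h2 q h4 hL
    · rintro ⟨h1, h2⟩
      exact ⟨h1 p le_rfl (by omega), fun q hq hL => h1 q (by omega) hL, h2⟩

theorem run_iff' {N h r : ℕ} (w : List ℕ) :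
    run N h r 0 (start h) w = true ↔
      (∀ q < w.length, ok N h r q (stAt N h (fun p => w.getD p 0) q) (w.getD q 0) = true) ∧
        acc N h r (stAt N h (fun p => w.getD p 0) w.length) = true := by
  have hw : (List.range' 0 w.length).map (fun p => w.getD p 0) = w := by
    apply List.ext_getElem
    · simp
    · intro i h1 h2
      simp [List.getD_eq_getElem?_getD, h2]
  have h1 := run_iff (N := N) (h := h) (r := r) (x := fun p => w.getD p 0) (L := w.length)
    w.length 0 (by omega)
  rw [hw, stAt_zero] at h1
  rw [h1]
  constructor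
  · rintro ⟨h2, h3⟩
    exact ⟨fun q hq => h2 q (Nat.zero_le q) hq, h3⟩
  · rintro ⟨h2, h3⟩
    exact ⟨fun q _ hq => h2 q hq, h3⟩

end Pool.Agent.Lib.MP_104326_lc
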