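import Pool.Agent.Lib.MP_104326_lc.KC.C2b
import Pool.Agent.Lib.MP_104326_lc.KC.C2c

/-! KC, module C2d: the accepted words are the good functions. -/

namespace Pool.Agent.Lib.MP_104326_lc

theorem orgPos_lt {N h r : ℕ} (hh : 1 ≤ h) (hr : r ≤ h) : orgPos N h r < len N h := by
  unfold orgPos len
  have hK : N + wd N * N + 1 ≤ cutN N := by
    unfold wd cutN; nlinarith
  have hK0 : N + wd N * (N + 1) < cutN N := by
    unfold wd cutN; nlinarith
  split
  · omega
  · rename_i h0
    have h1 : (N + wd N * N + 1) * h ≤ cutN N * h := Nat.mul_le_mul_right h hK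
    have h2 : (N + wd N * N + 1) * h = (N + wd N * N) * h + h := by ring
    omega

theorem getD_map_range' {h i : ℕ} (f : ℕ → ℕ) (hi : i < h) :
    ((List.range h).map f).getD i 0 = f i := by
  simp [List.getD, hi]

theorem card_succ' (x : ℕ → ℕ) (p : ℕ) :
    ((Finset.range (p + 1)).filter fun q => x q ≠ 0).card =
      ((Finset.range p).filter fun q => x q ≠ 0).card + if x p = 0 then 0 else 1 := by
  rw [Finset.range_add_one, Finset.filter_insert]
  split <;> simp_all

theorem card_mono' (x : ℕ → ℕ) {p q : ℕ} (h : p ≤ q) :
    ((Finset.range p).filter fun q => x q ≠ 0).card ≤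
      ((Finset.range q).filter fun q => x q ≠ 0).card :=
  Finset.card_le_card (Finset.filter_subset_filter _ (Finset.range_subset_range.2 h))

/-- The count in a class. -/
def clc (N h : ℕ) (x : ℕ → ℕ) (k M : ℕ) : ℕ :=
  ((Finset.range M).filter fun m => m % h = k ∧ x (cutN N + m) ≠ 0).card

theorem clc_succ {N h : ℕ} {x : ℕ → ℕ} {m : ℕ} (hx : x (cutN N + m) ≠ 0) :
    clc N h x (m % h) (m + 1) = clc N h x (m % h) m + 1 := by
  unfold clc
  rw [Finset.range_add_one, Finset.filter_insert]
  simp [hx]

theorem clc_le {N h : ℕ} {x : ℕ → ℕ} {k M : ℕ} (hM : M ≤ cutN N * h) :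
    clc N h x k M ≤ ((Finset.range (len N h)).filter fun p => x p ≠ 0).card := by
  unfold clc
  refine Finset.card_le_card_of_injOn (fun m => cutN N + m) ?_ ?_
  · intro m hm
    simp only [Finset.coe_filter, Finset.mem_range, Set.mem_setOf_eq] at hm ⊢
    unfold len
    exact ⟨by omega, hm.2.2⟩
  · intro a _ b _ hab
    simpa using hab

theorem okCut_iff {N h : ℕ} {x : ℕ → ℕ} (hx : ∀ q, x q ≤ N) {p : ℕ} (hp : p < cutN N) :
    okCut N h p (stAt N h x p) (x p) = true ↔
      ((p % wd N = 0 ∨ compat (x p) (x (p - 1)) = true) ∧
        (x p = 0 ∨ (((Finset.range p).filter fun q => x q ≠ 0).card + 1 ≤ N ∧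
          ((Finset.range p).filter fun q => x q ≠ 0).card + 1 ≤ h))) := by
  have h22 : (stAt N h x p).2.2 = codes N x p := by
    simp only [stAt]; rw [min_eq_left hp.le]
  have h11 : (stAt N h x p).1.1 = ((Finset.range p).filter fun q => x q ≠ 0).card := rfl
  unfold okCut
  rw [h22, h11, length_codes]
  simp only [Bool.and_eq_true, Bool.or_eq_true, decide_eq_true_eq]
  refine and_congr_left fun _ => ?_
  rcases Nat.eq_zero_or_pos p with rfl | hp0
  · simp
  · rw [gl_of_lt hx (by omega : p - 1 < p)]

theorem okIn_iff {N h : ℕ} (hh : 1 ≤ h) {x : ℕ → ℕ} (hx : ∀ q, x q ≤ N) {m : ℕ}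
    (hm : m < cutN N * h) :
    okIn N h m (stAt N h x (cutN N + m)) (x (cutN N + m)) = true ↔
      ((m % h = 0 ∨ compat (x (cutN N + m)) (x (cutN N + m - 1)) = true) ∧
      (((m / h) % wd N = 0 ∨ compat (x (cutN N + m)) (x (cutN N + m - h)) = true) ∧
      ((m % h ≠ 0 ∨ compat (x (cutN N + m)) (x (m / h)) = true) ∧
      ((m % h + 1 ≠ h ∨ (m / h + wd N < cutN N →
          compat (x (cutN N + m)) (x (m / h + wd N)) = true)) ∧
        (x (cutN N + m) = 0 ∨
          (((Finset.range (cutN N + m)).filter fun q => x q ≠ 0).card + 1 ≤ N ∧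
            clc N h x (m % h) m + 1 ≤ N)))))) := by
  have hmh : m % h < h := Nat.mod_lt _ hh
  have h22 : (stAt N h x (cutN N + m)).2.2 = codes N x (cutN N) := by
    simp only [stAt]; rw [min_eq_right (Nat.le_add_right _ _)]
  have h11 : (stAt N h x (cutN N + m)).1.1 =
      ((Finset.range (cutN N + m)).filter fun q => x q ≠ 0).card := rfl
  have h21 : (stAt N h x (cutN N + m)).2.1.getD (m % h) 0 = clc N h x (m % h) m := by
    have : (stAt N h x (cutN N + m)).2.1 = (List.range h).map fun k => clc N h x k m := by
      simp only [stAt, clc, Nat.add_sub_cancel_left]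
    rw [this, getD_map_range' _ hmh]
  have h120 : (stAt N h x (cutN N + m)).1.2.getD 0 0 =
      if cutN N + 0 + 1 ≤ cutN N + m then x (cutN N + m - 1 - 0) else 0 := by
    simp only [stAt]
    rw [getD_map_range' _ (by omega : 0 < h)]
  have h121 : (stAt N h x (cutN N + m)).1.2.getD (h - 1) 0 =
      if cutN N + (h - 1) + 1 ≤ cutN N + m then x (cutN N + m - 1 - (h - 1)) else 0 := by
    simp only [stAt]
    rw [getD_map_range' _ (by omega : h - 1 < h)]
  have hdiv : m / h < cutN N := (Nat.div_lt_iff_lt_mul (by omega)).2 hm
  unfold okIn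
  rw [h22, h11, h21, h120, h121, gl_of_lt hx hdiv]
  simp only [Bool.and_eq_true, Bool.or_eq_true, decide_eq_true_eq]
  refine and_congr ?_ (and_congr ?_ (and_congr Iff.rfl (and_congr ?_ Iff.rfl)))
  · rcases Nat.eq_zero_or_pos m with rfl | hm0
    · simp
    · rw [if_pos (by omega)]; simp
  · by_cases h0 : (m / h) % wd N = 0
    · simp [h0]
    · have h1 : m / h ≠ 0 := fun h => h0 (by rw [h]; simp)
      have h2 : h ≤ m := by
        by_contra hc
        exact h1 (Nat.div_eq_of_lt (by omega))
      rw [if_pos (by omega), show cutN N + m - 1 - (h - 1) = cutN N + m - h by omega]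
  · refine or_congr Iff.rfl ?_
    by_cases h0 : m / h + wd N < cutN N
    · rw [gl_of_lt hx h0]; simp [h0]
    · rw [gl_of_le hx (by omega), compat_zero]; simp [h0]

theorem good_iff {N h r : ℕ} (hh : 1 ≤ h) (hr : r ≤ h) {x : ℕ → ℕ} (hx : ∀ q, x q ≤ N) :
    ((∀ q < len N h, ok N h r q (stAt N h x q) (x q) = true) ∧
      acc N h r (stAt N h x (len N h)) = true) ↔ Good N h r x := by
  have hlen : len N h = cutN N + cutN N * h := rfl
  have hacc : acc N h r (stAt N h x (len N h)) = true ↔
      (((Finset.range (len N h)).filter fun p => x p ≠ 0).card = N ∧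
        ∀ i < h, (i + 1 + r ≤ h ∨ h + 1 ≤ clc N h x i (cutN N * h))) := by
    have h21 : ∀ i < h, (stAt N h x (len N h)).2.1.getD i 0 = clc N h x i (cutN N * h) := by
      intro i hi
      have : (stAt N h x (len N h)).2.1 = (List.range h).map fun k => clc N h x k (cutN N * h) := by
        simp only [stAt, clc, hlen, Nat.add_sub_cancel_left]
      rw [this, getD_map_range' _ hi]
    have h11 : (stAt N h x (len N h)).1.1 =
        ((Finset.range (len N h)).filter fun q => x q ≠ 0).card := rfl
    unfold acc
    rw [h11]
    simp only [Bool.and_eq_true, decide_eq_true_eq, List.all_eq_true, List.mem_range,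
      Bool.or_eq_true]
    refine and_congr Iff.rfl ⟨fun H i hi => ?_, fun H i hi => ?_⟩
    · have := H i hi
      rw [h21 i hi] at this; exact this
    · rw [h21 i hi]; exact H i hi
  have hok : ∀ q, ok N h r q (stAt N h x q) (x q) = true ↔
      ((q ≠ orgPos N h r ∨ x q = 1) ∧
        (if q < cutN N then okCut N h q (stAt N h x q) (x q)
          else okIn N h (q - cutN N) (stAt N h x q) (x q)) = true) := by
    intro q
    unfold ok
    simp only [Bool.and_eq_true, Bool.or_eq_true, decide_eq_true_eq]
  rw [hacc]
  constructor
  · rintro ⟨H, htot, hcls⟩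
    have Hc : ∀ p < cutN N, okCut N h p (stAt N h x p) (x p) = true := by
      intro p hp
      have := ((hok p).1 (H p (by omega))).2
      rwa [if_pos hp] at this
    have Hi : ∀ m < cutN N * h,
        okIn N h m (stAt N h x (cutN N + m)) (x (cutN N + m)) = true := by
      intro m hm
      have := ((hok (cutN N + m)).1 (H (cutN N + m) (by omega))).2
      rw [if_neg (by omega), Nat.add_sub_cancel_left] at this
      exact this
    refine ⟨?_, ?_, ?_, ?_, ?_, ?_, ?_, htot, ?_⟩
    · have h1 := orgPos_lt (N := N) hh hr
      have := ((hok _).1 (H _ h1)).1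
      simpa using this
    · intro q hq hq0
      have := ((okCut_iff hx hq).1 (Hc q hq)).1
      tauto
    · intro m hm hm0
      have := ((okIn_iff hh hx hm).1 (Hi m hm)).1
      tauto
    · intro m hm hm0
      have := ((okIn_iff hh hx hm).1 (Hi m hm)).2.1
      tauto
    · intro m hm hm0
      have := ((okIn_iff hh hx hm).1 (Hi m hm)).2.2.1
      tauto
    · intro m hm hm0 hm1
      have := ((okIn_iff hh hx hm).1 (Hi m hm)).2.2.2.1
      tauto
    · have key : ∀ p ≤ cutN N, ((Finset.range p).filter fun q => x q ≠ 0).card ≤ h := by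
        intro p
        induction p with
        | zero => simp
        | succ p ih =>
          intro hp
          rw [card_succ']
          have h1 := ih (by omega)
          have h2 := ((okCut_iff hx (by omega : p < cutN N)).1 (Hc p (by omega))).2
          split
          · omega
          · rename_i h3
            rcases h2 with h2 | h2
            · exact absurd h2 h3
            · exact h2.2
      exact key _ le_rfl
    · intro i hi hi2
      rcases hcls i hi with h1 | h1
      · omega
      · exact h1
  · intro G
    have htot := G.tot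
    refine ⟨fun q hq => (hok q).2 ⟨?_, ?_⟩, htot, ?_⟩
    · by_cases h0 : q = orgPos N h r
      · right; rw [h0]; exact G.org
      · left; exact h0
    · have hcount : x q ≠ 0 → ((Finset.range q).filter fun q => x q ≠ 0).card + 1 ≤ N := by
        intro h0
        have h1 := card_succ' x q
        rw [if_neg h0] at h1
        have h2 := card_mono' x (show q + 1 ≤ len N h by omega)
        omega
      by_cases hqc : q < cutN N
      · rw [if_pos hqc, okCut_iff hx hqc]
        refine ⟨?_, ?_⟩
        · by_cases h0 : q % wd N = 0
          · left; exact h0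
          · right; exact G.hor0 q hqc h0
        · by_cases h0 : x q = 0
          · left; exact h0
          · right
            refine ⟨hcount h0, ?_⟩
            have h1 := card_succ' x q
            rw [if_neg h0] at h1
            have h2 := card_mono' x (show q + 1 ≤ cutN N by omega)
            have h3 := G.few
            omega
      · rw [if_neg hqc]
        obtain ⟨m, rfl⟩ : ∃ m, q = cutN N + m := ⟨q - cutN N, by omega⟩
        rw [Nat.add_sub_cancel_left]
        have hm : m < cutN N * h := by omega
        rw [okIn_iff hh hx hm]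
        refine ⟨?_, ?_, ?_, ?_, ?_⟩
        · by_cases h0 : m % h = 0
          · left; exact h0
          · right; exact G.ver m hm h0
        · by_cases h0 : (m / h) % wd N = 0
          · left; exact h0
          · right; exact G.hor m hm h0
        · by_cases h0 : m % h = 0
          · right; exact G.low m hm h0
          · left; exact h0
        · by_cases h0 : m % h + 1 = h
          · right; exact G.upp m hm h0
          · left; exact h0
        · by_cases h0 : x (cutN N + m) = 0
          · left; exact h0
          · right
            refine ⟨hcount h0, ?_⟩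
            have h1 := clc_succ (h := h) h0
            have h2 := clc_le (N := N) (h := h) (x := x) (k := m % h) (show m + 1 ≤ cutN N * h by omega)
            omega
    · intro i hi
      by_cases h0 : i + 1 + r ≤ h
      · left; exact h0
      · right; exact G.cls i hi (by omega)

end Pool.Agent.Lib.MP_104326_lc
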