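import Pool.Agent.Lib.MP_104326_lc.Base
import Pool.Agent.Lib.MP_104326_lc.Auto

/-! KC, module C3a: positions and cells.

Position `p < cutN N` is a cell of a cut row (`p % wd N` column, `p / wd N` number of the cut row);
position `cutN N + m` is a cell of a strip (column `m / h % wd N`, strip `m / h / wd N`, height `m % h`).
`xc`, `yc` are the coordinates in `[0, 2 N + 1) × [0, (h + 1) * (2 N + 2))`, `pc` is the inverse.

PROOF. All in `ℕ`. Write `W = wd N`, `H = 2 N + 2`, `K = cutN N = W * H`.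
`p < K`: `p / W < H`, `yc = (h + 1) * (p / W)` is `0` mod `h + 1` with quotient `p / W`,
and `p % W + W * (p / W) = p`. `p = K + m`, `m < K * h`: `i = m % h < h`, `u = m / h / W < H`
(`m / h < K`), `yc = (h + 1) * u + (i + 1)`, `yc % (h + 1) = i + 1 ≠ 0`, `yc / (h + 1) = u`
(`Nat.mul_add_mod`, `Nat.mul_add_div`), and `K + ((m / h) % W + W * (m / h / W)) * h + i = K + m`.
Conversely for `X < W`, `Y < (h + 1) * H`: `u = Y / (h + 1) < H`. If `Y % (h + 1) = 0`:
`pc = X + W * u < K`, and `(X + W * u) % W = X`, `(X + W * u) / W = u`, `(h + 1) * u = Y`. Else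
`i = Y % (h + 1) - 1 < h`, `pc = K + (X + W * u) * h + i`, `pc - K = (X + W * u) * h + i`,
`/ h = X + W * u`, `% h = i`, and `(h + 1) * u + i + 1 = Y`. The last four statements: the shift by
`(N, (h + 1) * (N + 1) - r)` maps `reg N h r` onto `[0, W) × [0, (h + 1) * H)`;
`(x.1 + N).toNat`, `(x.2 - r + (h + 1) * (N + 1)).toNat` for `x ∈ reg N h r`. -/

namespace Pool.Agent.Lib.MP_104326_lc

/-- The column of the position `p`. -/
def xc (N h p : ℕ) : ℕ := if p < cutN N then p % wd N else (p - cutN N) / h % wd N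

/-- The row of the position `p`. -/
def yc (N h p : ℕ) : ℕ :=
  if p < cutN N then (h + 1) * (p / wd N)
  else (h + 1) * ((p - cutN N) / h / wd N) + (p - cutN N) % h + 1

/-- The position of column `X` and row `Y`. -/
def pc (N h X Y : ℕ) : ℕ :=
  if Y % (h + 1) = 0 then X + wd N * (Y / (h + 1))
  else cutN N + (X + wd N * (Y / (h + 1))) * h + (Y % (h + 1) - 1)

/-- The cell of the position `p`. -/
def cellOf (N h r p : ℕ) : ℤ × ℤ :=
  ((xc N h p : ℤ) - N, (yc N h p : ℤ) - ((h : ℤ) + 1) * (N + 1) + r)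

/-- The position of the cell `x`. -/
def posOf (N h r : ℕ) (x : ℤ × ℤ) : ℕ :=
  pc N h (x.1 + N).toNat (x.2 - r + ((h : ℤ) + 1) * (N + 1)).toNat

private theorem wd_pos' (N : ℕ) : 0 < wd N := by unfold wd; omega

private theorem cutN_eq' (N : ℕ) : cutN N = wd N * (2 * N + 2) := rfl

private theorem mod_aux' {h u i : ℕ} (hi : i < h) : ((h + 1) * u + i + 1) % (h + 1) = i + 1 := by
  rw [add_assoc, Nat.mul_add_mod, Nat.mod_eq_of_lt (by omega)]

private theorem div_aux' {h u i : ℕ} (hi : i < h) : ((h + 1) * u + i + 1) / (h + 1) = u := by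
  rw [add_assoc, Nat.mul_add_div (by omega), Nat.div_eq_of_lt (by omega), add_zero]

private theorem lt_aux' {N u : ℕ} {W : ℕ} (hW : W = wd N) {X : ℕ} (hX : X < W)
    (hu : u < 2 * N + 2) : X + W * u < cutN N := by
  rw [cutN_eq', ← hW]
  calc X + W * u < W + W * u := by omega
    _ = W * (u + 1) := by ring
    _ ≤ W * (2 * N + 2) := Nat.mul_le_mul_left _ (by omega)

theorem coord_lt {N h p : ℕ} (hh : 1 ≤ h) (hp : p < len N h) :
    xc N h p < wd N ∧ yc N h p < (h + 1) * (2 * N + 2) ∧ pc N h (xc N h p) (yc N h p) = p := by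
  have hW := wd_pos' N
  unfold xc yc
  by_cases hc : p < cutN N
  · rw [if_pos hc, if_pos hc]
    have h1 : p / wd N < 2 * N + 2 := Nat.div_lt_of_lt_mul (by rw [← cutN_eq']; exact hc)
    refine ⟨Nat.mod_lt _ hW, Nat.mul_lt_mul_of_pos_left h1 (by omega), ?_⟩
    unfold pc
    rw [if_pos (Nat.mul_mod_right _ _), Nat.mul_div_cancel_left _ (by omega), Nat.mod_add_div]
  · rw [if_neg hc, if_neg hc]
    obtain ⟨m, rfl⟩ : ∃ m, p = cutN N + m := ⟨p - cutN N, by omega⟩
    rw [Nat.add_sub_cancel_left]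
    have hm : m < cutN N * h := by unfold len at hp; omega
    have h0 : m / h < cutN N := Nat.div_lt_of_lt_mul (by rw [mul_comm]; exact hm)
    have h1 : m / h / wd N < 2 * N + 2 := Nat.div_lt_of_lt_mul (by rw [← cutN_eq']; exact h0)
    have h2 : m % h < h := Nat.mod_lt _ (by omega)
    refine ⟨Nat.mod_lt _ hW, ?_, ?_⟩
    · calc (h + 1) * (m / h / wd N) + m % h + 1 < (h + 1) * (m / h / wd N) + (h + 1) := by omega
        _ = (h + 1) * (m / h / wd N + 1) := by ring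
        _ ≤ (h + 1) * (2 * N + 2) := Nat.mul_le_mul_left _ (by omega)
    · unfold pc
      rw [mod_aux' h2, div_aux' h2, if_neg (by omega), Nat.mod_add_div, Nat.add_sub_cancel,
        add_assoc]
      congr 1
      rw [mul_comm]
      exact Nat.div_add_mod m h

theorem pc_lt {N h X Y : ℕ} (hh : 1 ≤ h) (hX : X < wd N) (hY : Y < (h + 1) * (2 * N + 2)) :
    pc N h X Y < len N h ∧ xc N h (pc N h X Y) = X ∧ yc N h (pc N h X Y) = Y := by
  have hW := wd_pos' N
  have hu : Y / (h + 1) < 2 * N + 2 := Nat.div_lt_of_lt_mul hY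
  have hK := lt_aux' rfl hX hu
  have hdm := Nat.div_add_mod Y (h + 1)
  have hml : Y % (h + 1) < h + 1 := Nat.mod_lt _ (by omega)
  have e1 : (X + wd N * (Y / (h + 1))) % wd N = X := by
    rw [Nat.add_mul_mod_self_left, Nat.mod_eq_of_lt hX]
  have e2 : (X + wd N * (Y / (h + 1))) / wd N = Y / (h + 1) := by
    rw [Nat.add_mul_div_left _ _ hW, Nat.div_eq_of_lt hX, zero_add]
  by_cases hc : Y % (h + 1) = 0
  · have hp : pc N h X Y = X + wd N * (Y / (h + 1)) := by unfold pc; rw [if_pos hc]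
    rw [hp]
    refine ⟨by unfold len; omega, ?_, ?_⟩
    · unfold xc; rw [if_pos hK, e1]
    · unfold yc; rw [if_pos hK, e2]; omega
  · obtain ⟨i, hi⟩ : ∃ i, Y % (h + 1) = i + 1 := ⟨Y % (h + 1) - 1, by omega⟩
    have hih : i < h := by omega
    have hp : pc N h X Y = cutN N + ((X + wd N * (Y / (h + 1))) * h + i) := by
      unfold pc; rw [if_neg hc, hi, Nat.add_sub_cancel, add_assoc]
    have hlt : (X + wd N * (Y / (h + 1))) * h + i < cutN N * h := by
      calc (X + wd N * (Y / (h + 1))) * h + i < (X + wd N * (Y / (h + 1))) * h + h := by omega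
        _ = (X + wd N * (Y / (h + 1)) + 1) * h := by ring
        _ ≤ cutN N * h := Nat.mul_le_mul_right _ (by omega)
    have d1 : ((X + wd N * (Y / (h + 1))) * h + i) / h = X + wd N * (Y / (h + 1)) := by
      rw [mul_comm, Nat.mul_add_div (by omega), Nat.div_eq_of_lt hih, add_zero]
    have d2 : ((X + wd N * (Y / (h + 1))) * h + i) % h = i := by
      rw [mul_comm, Nat.mul_add_mod, Nat.mod_eq_of_lt hih]
    have hn : ¬ cutN N + ((X + wd N * (Y / (h + 1))) * h + i) < cutN N := by omega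
    rw [hp]
    refine ⟨by unfold len; omega, ?_, ?_⟩
    · unfold xc; rw [if_neg hn, Nat.add_sub_cancel_left, d1, e1]
    · unfold yc; rw [if_neg hn, Nat.add_sub_cancel_left, d1, e2, d2]; omega

private theorem mem_reg' {N h r : ℕ} {x : ℤ × ℤ} : x ∈ reg N h r ↔
    (-(N : ℤ) ≤ x.1 ∧ x.1 ≤ N) ∧
      (r : ℤ) - ((h : ℤ) + 1) * (N + 1) ≤ x.2 ∧ x.2 < (r : ℤ) + ((h : ℤ) + 1) * (N + 1) := by
  unfold reg
  rw [Finset.mem_product, Finset.mem_Icc, Finset.mem_Ico]

theorem cell_mem {N h r p : ℕ} (hh : 1 ≤ h) (hp : p < len N h) : cellOf N h r p ∈ reg N h r := by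
  obtain ⟨h1, h2, -⟩ := coord_lt hh hp
  have h3 : (xc N h p : ℤ) < 2 * N + 1 := by
    unfold wd at h1; exact_mod_cast h1
  have h4 : (yc N h p : ℤ) < ((h : ℤ) + 1) * (2 * N + 2) := by exact_mod_cast h2
  have h5 : ((h : ℤ) + 1) * (2 * N + 2) = ((h : ℤ) + 1) * (N + 1) + ((h : ℤ) + 1) * (N + 1) := by
    ring
  rw [mem_reg']
  unfold cellOf
  refine ⟨⟨?_, ?_⟩, ?_, ?_⟩ <;> simp only <;> omega

private theorem toNat_aux' {N h r : ℕ} {x : ℤ × ℤ} (hx : x ∈ reg N h r) :
    (x.1 + N).toNat < wd N ∧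
      (x.2 - r + ((h : ℤ) + 1) * (N + 1)).toNat < (h + 1) * (2 * N + 2) ∧
      0 ≤ x.1 + N ∧ 0 ≤ x.2 - r + ((h : ℤ) + 1) * (N + 1) := by
  rw [mem_reg'] at hx
  obtain ⟨⟨a1, a2⟩, b1, b2⟩ := hx
  have h5 : ((h : ℤ) + 1) * (2 * N + 2) = ((h : ℤ) + 1) * (N + 1) + ((h : ℤ) + 1) * (N + 1) := by
    ring
  refine ⟨?_, ?_, by omega, by omega⟩
  · unfold wd; omega
  · have h6 : (((h + 1) * (2 * N + 2) : ℕ) : ℤ) = ((h : ℤ) + 1) * (2 * N + 2) := by push_cast; ring
    omega

theorem pos_lt {N h r : ℕ} {x : ℤ × ℤ} (hh : 1 ≤ h) (hx : x ∈ reg N h r) :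
    posOf N h r x < len N h := by
  obtain ⟨h1, h2, -, -⟩ := toNat_aux' hx
  exact (pc_lt hh h1 h2).1

theorem pos_cell {N h r p : ℕ} (hh : 1 ≤ h) (hp : p < len N h) :
    posOf N h r (cellOf N h r p) = p := by
  obtain ⟨-, -, h3⟩ := coord_lt hh hp
  have e1 : ((xc N h p : ℤ) - N + N).toNat = xc N h p := by omega
  have e2 : ((yc N h p : ℤ) - ((h : ℤ) + 1) * (N + 1) + r - r + ((h : ℤ) + 1) * (N + 1)).toNat
      = yc N h p := by omega
  unfold posOf cellOf
  simp only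
  rw [e1, e2, h3]

theorem cell_pos {N h r : ℕ} {x : ℤ × ℤ} (hh : 1 ≤ h) (hx : x ∈ reg N h r) :
    cellOf N h r (posOf N h r x) = x := by
  obtain ⟨h1, h2, h3, h4⟩ := toNat_aux' hx
  obtain ⟨-, e1, e2⟩ := pc_lt hh h1 h2
  unfold cellOf posOf
  rw [e1, e2]
  apply Prod.ext
  · simp only; omega
  · simp only; omega

end Pool.Agent.Lib.MP_104326_lc
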