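import Pool.Agent.Lib.MP_104326_lc.Auto
import Pool.Agent.Lib.MP_104326_lc.KC.D0a

/-! KC, module D1a: the parameters of the automaton are polynomial time.

PROOFS. Unfold and combine `PT.add`, `PT.mul`, `PT.mulConst`, `PT.sub`, `PT.ite`, `PT.eq`, `PT.cond`,
`PT.or`, `PT.const`, `PT_sum`, `PT.map`, `PT.range`, `PT_mem` (use `PT.fst`, `PT.snd`, `comp` for the
variables under `map`). -/

namespace Pool.Agent.Lib.MP_104326_lc

open Pool.Agent.Lib.PolyTime

variable {α : Type} [Enc α]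

theorem PT_wd {N : α → ℕ} (hN : PT N) : PT (fun x => wd (N x)) :=
  (PT.mulConst hN 2).succ

theorem PT_cutN {N : α → ℕ} (hN : PT N) : PT (fun x => cutN (N x)) :=
  PT.mul (PT.mulConst hN 2).succ ((PT.mulConst hN 2).addConst 2)

theorem PT_len {N h : α → ℕ} (hN : PT N) (hh : PT h) : PT (fun x => len (N x) (h x)) :=
  PT.add (PT_cutN hN) (PT.mul (PT_cutN hN) hh)

theorem PT_orgPos {N h r : α → ℕ} (hN : PT N) (hh : PT h) (hr : PT r) :
    PT (fun x => orgPos (N x) (h x) (r x)) :=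
  PT.ite (c := fun x => r x = 0) (PT.eq hr (PT.const 0))
    (PT.add hN (PT.mul (PT_wd hN) hN.succ))
    (PT.add (PT.add (PT_cutN hN) (PT.mul (PT.add hN (PT.mul (PT_wd hN) hN)) hh)) (PT.sub hh hr))

theorem PT_compat {a b : α → ℕ} (ha : PT a) (hb : PT b) : PT (fun x => compat (a x) (b x)) :=
  PT.or (PT.eq ha (PT.const 0)) (PT.or (PT.eq hb (PT.const 0)) (PT.eq ha hb))

theorem PT_gl {N q : α → ℕ} {G : α → List ℕ} (hN : PT N) (hG : PT G) (hq : PT q) :
    PT (fun x => gl (N x) (G x) (q x)) := by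
  have h1 : PT (fun y : α × ℕ => if q y.1 * (N y.1 + 1) + y.2 ∈ G y.1 then y.2 else 0) :=
    PT.ite (c := fun y : α × ℕ => q y.1 * (N y.1 + 1) + y.2 ∈ G y.1)
      (PT_mem (PT.add (PT.mul (hq.comp PT.fst) (hN.comp PT.fst).succ) PT.snd) (hG.comp PT.fst))
      PT.snd (PT.const 0)
  exact PT_sum (PT.map (f := fun x => List.range (N x + 1))
    (g := fun x a => if q x * (N x + 1) + a ∈ G x then a else 0) hN.succ.range h1)

end Pool.Agent.Lib.MP_104326_lc
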