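import Pool.Agent.Lib.MP_104326_lc.KC.D1a

/-! KC, module D1b: the transition rule of the automaton is polynomial time.

PROOFS. Unfold and combine the closure lemmas (as in D1a); `decide (a ≠ b) = !decide (a = b)`. -/

namespace Pool.Agent.Lib.MP_104326_lc

open Pool.Agent.Lib.PolyTime

variable {α : Type} [Enc α]

private theorem PT_ne {f g : α → ℕ} (hf : PT f) (hg : PT g) : PT (fun x => decide (f x ≠ g x)) :=
  (PT.not (PT.eq hf hg)).congr (fun x => by
    by_cases h : f x = g x
    · rw [decide_eq_true h, decide_eq_false (not_not.2 h)]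
      rfl
    · rw [decide_eq_false h, decide_eq_true h]
      rfl)

theorem PT_okCut {N h p a : α → ℕ} {st : α → St} (hN : PT N) (hh : PT h) (hp : PT p) (hst : PT st)
    (ha : PT a) : PT (fun x => okCut (N x) (h x) (p x) (st x) (a x)) := by
  have h1 : PT (fun x => decide (p x % wd (N x) = 0)) :=
    PT.eq (PT_mod hp (PT_wd hN)) (PT.const 0)
  have h2 : PT (fun x => gl (N x) (st x).2.2 (p x - 1)) :=
    PT_gl hN hst.snd'.snd' hp.pred
  have h3 : PT (fun x => compat (a x) (gl (N x) (st x).2.2 (p x - 1))) := PT_compat ha h2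
  have h4 : PT (fun x => decide (a x = 0)) := PT.eq ha (PT.const 0)
  have h5 : PT (fun x => decide ((st x).1.1 + 1 ≤ N x)) := PT.le hst.fst'.fst'.succ hN
  have h6 : PT (fun x => decide ((st x).2.2.length + 1 ≤ h x)) :=
    PT.le (PT.length hst.snd'.snd').succ hh
  exact PT.and (PT.or h1 h3) (PT.or h4 (PT.and h5 h6))

theorem PT_okIn {N h m a : α → ℕ} {st : α → St} (hN : PT N) (hh : PT h) (hm : PT m) (hst : PT st)
    (ha : PT a) : PT (fun x => okIn (N x) (h x) (m x) (st x) (a x)) := by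
  have hmod : PT (fun x => m x % h x) := PT_mod hm hh
  have hdiv : PT (fun x => m x / h x) := PT_div hm hh
  have h1 : PT (fun x => decide (m x % h x = 0)) := PT.eq hmod (PT.const 0)
  have h2 : PT (fun x => compat (a x) ((st x).1.2.getD 0 0)) :=
    PT_compat ha (PT_getD' hst.fst'.snd' (PT.const 0) 0)
  have h3 : PT (fun x => decide ((m x / h x) % wd (N x) = 0)) :=
    PT.eq (PT_mod hdiv (PT_wd hN)) (PT.const 0)
  have h4 : PT (fun x => compat (a x) ((st x).1.2.getD (h x - 1) 0)) :=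
    PT_compat ha (PT_getD' hst.fst'.snd' hh.pred 0)
  have h5 : PT (fun x => decide (m x % h x ≠ 0)) := PT_ne hmod (PT.const 0)
  have h6 : PT (fun x => compat (a x) (gl (N x) (st x).2.2 (m x / h x))) :=
    PT_compat ha (PT_gl hN hst.snd'.snd' hdiv)
  have h7 : PT (fun x => decide (m x % h x + 1 ≠ h x)) := PT_ne hmod.succ hh
  have h8 : PT (fun x => compat (a x) (gl (N x) (st x).2.2 (m x / h x + wd (N x)))) :=
    PT_compat ha (PT_gl hN hst.snd'.snd' (PT.add hdiv (PT_wd hN)))
  have h9 : PT (fun x => decide (a x = 0)) := PT.eq ha (PT.const 0)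
  have h10 : PT (fun x => decide ((st x).1.1 + 1 ≤ N x)) := PT.le hst.fst'.fst'.succ hN
  have h11 : PT (fun x => decide ((st x).2.1.getD (m x % h x) 0 + 1 ≤ N x)) :=
    PT.le (PT_getD' hst.snd'.fst' hmod 0).succ hN
  exact PT.and (PT.or h1 h2) (PT.and (PT.or h3 h4) (PT.and (PT.or h5 h6) (PT.and (PT.or h7 h8)
    (PT.or h9 (PT.and h10 h11)))))

theorem PT_ok {N h r p a : α → ℕ} {st : α → St} (hN : PT N) (hh : PT h) (hr : PT r) (hp : PT p)
    (hst : PT st) (ha : PT a) : PT (fun x => ok (N x) (h x) (r x) (p x) (st x) (a x)) := by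
  have h1 : PT (fun x => decide (p x ≠ orgPos (N x) (h x) (r x))) :=
    PT_ne hp (PT_orgPos hN hh hr)
  have h2 : PT (fun x => decide (a x = 1)) := PT.eq ha (PT.const 1)
  have h3 : PT (fun x => decide (p x < cutN (N x))) := PT.lt hp (PT_cutN hN)
  have h4 : PT (fun x => okCut (N x) (h x) (p x) (st x) (a x)) := PT_okCut hN hh hp hst ha
  have h5 : PT (fun x => okIn (N x) (h x) (p x - cutN (N x)) (st x) (a x)) :=
    PT_okIn hN hh (PT.sub hp (PT_cutN hN)) hst ha
  exact PT.and (PT.or h1 h2) (PT.ite (c := fun x => p x < cutN (N x)) h3 h4 h5)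

end Pool.Agent.Lib.MP_104326_lc
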