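import Pool.Agent.Lib.MP_104326_lc.KC.D1a

/-! KC, module D1c: next state, acceptance, initial state are polynomial time.

PROOFS. Unfold and combine the closure lemmas (as in D1a). -/

namespace Pool.Agent.Lib.MP_104326_lc

open Pool.Agent.Lib.PolyTime

variable {α : Type} [Enc α]

theorem PT_nxt {N h p a : α → ℕ} {st : α → St} (hN : PT N) (hh : PT h) (hp : PT p) (hst : PT st)
    (ha : PT a) : PT (fun x => nxt (N x) (h x) (p x) (st x) (a x)) := by
  have h1 : PT (fun x => if a x = 0 then st x else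
      (((st x).1.1 + 1, (st x).1.2), ((st x).2.1, (p x * (N x + 1) + a x) :: (st x).2.2))) :=
    PT.ite (c := fun x => a x = 0) (PT.eq ha (PT.const 0)) hst
      ((hst.fst'.fst'.succ.pair hst.fst'.snd').pair
        (hst.snd'.fst'.pair (PT.cons ((hp.mul hN.succ).add ha) hst.snd'.snd')))
  have h2 : PT (fun x => (List.range (h x)).map fun k =>
      if k = 0 then a x else (st x).1.2.getD (k - 1) 0) :=
    PT.map (f := fun x => List.range (h x))
      (g := fun x k => if k = 0 then a x else (st x).1.2.getD (k - 1) 0) hh.range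
      (PT.ite (c := fun y : α × ℕ => y.2 = 0) (PT.eq PT.snd (PT.const 0)) (ha.comp PT.fst)
        (PT_getD' (hst.comp PT.fst).fst'.snd' PT.snd.pred 0))
  have hg : PT (fun y : α × ℕ => (st y.1).2.1.getD y.2 0) :=
    PT_getD' (hst.comp PT.fst).snd'.fst' PT.snd 0
  have h3 : PT (fun x => (List.range (h x)).map fun k =>
      if k = (p x - cutN (N x)) % h x ∧ a x ≠ 0 then (st x).2.1.getD k 0 + 1
        else (st x).2.1.getD k 0) := by
    refine PT.map (f := fun x => List.range (h x))
      (g := fun x k => if k = (p x - cutN (N x)) % h x ∧ a x ≠ 0 then (st x).2.1.getD k 0 + 1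
        else (st x).2.1.getD k 0) hh.range
      (PT.ite (c := fun y : α × ℕ => y.2 = (p y.1 - cutN (N y.1)) % h y.1 ∧ a y.1 ≠ 0) ?_
        hg.succ hg)
    refine (PT.and (PT.eq PT.snd (PT_mod ((hp.comp PT.fst).sub (PT_cutN (hN.comp PT.fst)))
      (hh.comp PT.fst))) (PT.not (PT.eq (ha.comp PT.fst) (PT.const 0)))).congr (fun y => ?_)
    simp only [ne_eq, Bool.decide_and, decide_not]
  have h4 : PT (fun x => if a x = 0 then (st x).1.1 else (st x).1.1 + 1) :=
    PT.ite (c := fun x => a x = 0) (PT.eq ha (PT.const 0)) hst.fst'.fst' hst.fst'.fst'.succ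
  exact PT.ite (c := fun x => p x < cutN (N x)) (PT.lt hp (PT_cutN hN)) h1
    ((h4.pair h2).pair (h3.pair hst.snd'.snd'))

theorem PT_acc {N h r : α → ℕ} {st : α → St} (hN : PT N) (hh : PT h) (hr : PT r) (hst : PT st) :
    PT (fun x => acc (N x) (h x) (r x) (st x)) := by
  have h1 : PT (fun x => (List.range (h x)).all fun i =>
      decide (i + 1 + r x ≤ h x) || decide (h x + 1 ≤ (st x).2.1.getD i 0)) :=
    PT.all (f := fun x => List.range (h x))
      (p := fun x i => decide (i + 1 + r x ≤ h x) || decide (h x + 1 ≤ (st x).2.1.getD i 0))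
      hh.range (PT.or (PT.le (PT.snd.succ.add (hr.comp PT.fst)) (hh.comp PT.fst))
        (PT.le (hh.comp PT.fst).succ (PT_getD' (hst.comp PT.fst).snd'.fst' PT.snd 0)))
  exact PT.and (PT.eq hst.fst'.fst' hN) h1

theorem PT_start {h : α → ℕ} (hh : PT h) : PT (fun x => start (h x)) :=
  ((PT.const 0).pair (PT_replicate hh (PT.const 0))).pair
    ((PT_replicate hh (PT.const 0)).pair (PT.const []))

end Pool.Agent.Lib.MP_104326_lc
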