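import Pool.Agent.Lib.MP_104326_lc.KC.D1b
import Pool.Agent.Lib.MP_104326_lc.KC.D1c
import Pool.Agent.Lib.MP_104326_lc.KC.D2a

/-! KC, module D3a: one step of the forward computation is polynomial time.

PROOFS. `PT_succs`: `PT.map`, `PT.filter`, `PT.range`, `PT_ok`, `PT_nxt`. `PT_dd`: `PT.foldl_add` with the
step as in `dd` (`size (step) ≤ size u + size s + 1`-like bound by `size_cons`, `size_mem_lt`, see
the proof of `PT.reverse` in `Pool/Agent/Lib/PolyTime/Derived.lean`). `PT_wt`: `PT.bnSum` over `L` with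
`PT.bnMul (e.2) (PT.toBN (length of the filtered list))`. `PT_stp`: `PT.map`, `PT.flatMap`, `PT.pair`.
If instances time out: `set_option synthInstance.maxSize`/`maxHeartbeats`, or prove the statements first
for the variables in a fixed product type and then use `comp`. -/

namespace Pool.Agent.Lib.MP_104326_lc

open Pool.Agent.Lib.PolyTime

variable {α : Type} [Enc α]

theorem PT_succs {N h r j p : α → ℕ} {st : α → St} (hN : PT N) (hh : PT h) (hr : PT r) (hj : PT j)
    (hp : PT p) (hst : PT st) :
    PT (fun x => succs (N x) (h x) (r x) (j x) (p x) (st x)) :=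
  PT.map (f := fun x => (List.range (j x + 1)).filter
      fun a => ok (N x) (h x) (r x) (p x) (st x) a)
    (g := fun x a => nxt (N x) (h x) (p x) (st x) a)
    (PT.filter (f := fun x => List.range (j x + 1))
      (p := fun x a => ok (N x) (h x) (r x) (p x) (st x) a) (PT.range hj.succ)
      (PT_ok (hN.comp PT.fst) (hh.comp PT.fst) (hr.comp PT.fst) (hp.comp PT.fst)
        (hst.comp PT.fst) PT.snd))
    (PT_nxt (hN.comp PT.fst) (hh.comp PT.fst) (hp.comp PT.fst) (hst.comp PT.fst) PT.snd)

theorem PT_dd {M : α → ℕ} {l : α → List St} (hM : PT M) (hl : PT l) :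
    PT (fun x => dd (M x) (l x)) := by
  obtain ⟨p, hp⟩ := hl.size_le
  refine PT.foldl_add (f := l) (init := fun _ => ([] : List St))
    (step := fun x u s => if decide (u.length < M x) && !(u.any fun s' => decide (s' = s)) then
      s :: u else u) hl (PT.const _) ?_ (C := fun n => p.eval n + 1)
      ((PB.poly p).add (PB.const 1)) ?_
  · refine PT.cond (c := fun y : α × (List St × St) =>
      decide (y.2.1.length < M y.1) && !(y.2.1.any fun s' => decide (s' = y.2.2))) ?_
      (PT.cons PT.snd.snd' PT.snd.fst') PT.snd.fst'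
    refine PT.and (PT.lt (PT.length PT.snd.fst') (hM.comp PT.fst)) (PT.not ?_)
    exact PT.any (f := fun y : α × (List St × St) => y.2.1) (p := fun y s' => decide (s' = y.2.2))
      PT.snd.fst' (PT.eq PT.snd PT.fst.snd'.snd')
  · intro a s b hb
    have h1 := size_mem_lt hb
    have h2 := hp a
    split_ifs
    · rw [size_cons]; omega
    · omega

theorem PT_wt {N h r j p : α → ℕ} {L : α → List (St × BN)} {s : α → St} (hN : PT N) (hh : PT h)
    (hr : PT r) (hj : PT j) (hp : PT p) (hL : PT L) (hs : PT s) :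
    PT (fun x => (⟨wt (N x) (h x) (r x) (j x) (p x) (L x) (s x)⟩ : BN)) := by
  refine PT.bnSum (f := L) (g := fun x e => (⟨e.2.val *
    ((succs (N x) (h x) (r x) (j x) (p x) e.1).filter fun s' => decide (s' = s x)).length⟩ : BN))
    hL ?_
  refine PT.bnMul (f := fun y : α × (St × BN) => y.2.2)
    (g := fun y : α × (St × BN) => (⟨((succs (N y.1) (h y.1) (r y.1) (j y.1) (p y.1) y.2.1).filter
      fun s' => decide (s' = s y.1)).length⟩ : BN)) PT.snd.snd' ?_
  refine PT.toBN (PT.length (PT.filter
    (f := fun y : α × (St × BN) => succs (N y.1) (h y.1) (r y.1) (j y.1) (p y.1) y.2.1)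
    (p := fun y s' => decide (s' = s y.1)) ?_ ?_))
  · exact PT_succs (hN.comp PT.fst) (hh.comp PT.fst) (hr.comp PT.fst) (hj.comp PT.fst)
      (hp.comp PT.fst) PT.snd.fst'
  · exact PT.eq PT.snd (hs.comp PT.fst.fst')

theorem PT_stp {N h r j M p : α → ℕ} {L : α → List (St × BN)} (hN : PT N) (hh : PT h)
    (hr : PT r) (hj : PT j) (hM : PT M) (hp : PT p) (hL : PT L) :
    PT (fun x => stp (N x) (h x) (r x) (j x) (M x) (p x) (L x)) := by
  refine PT.map (f := fun x => dd (M x) ((L x).flatMap
      fun e => succs (N x) (h x) (r x) (j x) (p x) e.1))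
    (g := fun x s => (s, (⟨wt (N x) (h x) (r x) (j x) (p x) (L x) s⟩ : BN))) ?_ ?_
  · refine PT_dd hM ?_
    refine PT.flatMap (f := L) (g := fun x e => succs (N x) (h x) (r x) (j x) (p x) e.1) hL ?_
    exact PT_succs (hN.comp PT.fst) (hh.comp PT.fst) (hr.comp PT.fst) (hj.comp PT.fst)
      (hp.comp PT.fst) PT.snd.fst'
  · exact PT.pair PT.snd (PT_wt (hN.comp PT.fst) (hh.comp PT.fst) (hr.comp PT.fst)
      (hj.comp PT.fst) (hp.comp PT.fst) (hL.comp PT.fst) PT.snd)

end Pool.Agent.Lib.MP_104326_lc
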