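import Pool.Agent.Lib.MP_33f9c4_lc.Pad

/-! KC, module E2: polynomial time in two exponentially long unary counters.

PROOF. As in `Pool/Agent/Lib/MP_33f9c4_lc/Pad.lean` (`exists_pad_machine`), with the states
`(x, ((j, A), (k, B))) : List Bool × ((ℕ × ℕ) × (ℕ × ℕ))` and `exists_loop`: the step `g` is
 - if `2 ≤ j`: `(x, ((j - 1, A + A), (k, B)))`;
 - if `j = 1`: `(x, ((0, A), (e' (x, A) + 1, 1)))`;
 - if `j = 0`: `(x, ((0, A), (k - 1, B + B)))`.
Start: `(x, ((e x + 1, 1), (2, 1)))`. `fin s` iff `j = 0` and `k = 1`, that is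
`decide (s.2.1.1 = 0) && decide (s.2.2.1 = 1)`. Iterates: for `i ≤ e x`:
`(x, ((e x + 1 - i, 2 ^ i), (2, 1)))`; for `i = e x + 1`: `(x, ((0, 2 ^ e x), (E + 1, 1)))` with
`E = e' (x, 2 ^ e x)`; for `i = e x + 1 + l`, `l ≤ E`: `(x, ((0, 2 ^ e x), (E + 1 - l, 2 ^ l)))`. So `fin`
is reached first at `i = e x + 1 + E` with the output `F (x, (2 ^ e x, 2 ^ E))`. All sizes are at most
linear in `z = |x| + 2 ^ e x + 2 ^ E` (`size_prod`, `size_nat`, `size_bools_le`, `E < 2 ^ E`,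
`e x < 2 ^ e x`), and the number of steps is `≤ 2 * z + 2`; so the time is
`≤ T0.eval z + (2 * z + 2) * T.eval (c * z + c)`, a polynomial in `z` (`PB`). -/

namespace Pool.Agent.Lib.MP_104326_lc

open Pool.Agent.Lib.PolyTime MP_33f9c4_lc

set_option synthInstance.maxSize 2000

/-- one step of the two-stage padding -/
private def pad2Step (e' : List Bool × ℕ → ℕ) (s : List Bool × ((ℕ × ℕ) × (ℕ × ℕ))) :
    List Bool × ((ℕ × ℕ) × (ℕ × ℕ)) :=
  if 2 ≤ s.2.1.1 then (s.1, ((s.2.1.1 - 1, s.2.1.2 + s.2.1.2), s.2.2))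
  else if s.2.1.1 = 1 then (s.1, ((0, s.2.1.2), (e' (s.1, s.2.1.2) + 1, 1)))
  else (s.1, ((0, s.2.1.2), (s.2.2.1 - 1, s.2.2.2 + s.2.2.2)))

private theorem pt_pad2Step {e' : List Bool × ℕ → ℕ} (he' : PT e') : PT (pad2Step e') := by
  have hid : PT (fun s : List Bool × ((ℕ × ℕ) × (ℕ × ℕ)) => s) := PT.id
  have hj := hid.snd'.fst'.fst'
  have hA := hid.snd'.fst'.snd'
  have hk := hid.snd'.snd'.fst'
  have hB := hid.snd'.snd'.snd'
  have h1 : PT (fun s : List Bool × ((ℕ × ℕ) × (ℕ × ℕ)) =>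
      (s.1, ((s.2.1.1 - 1, s.2.1.2 + s.2.1.2), s.2.2))) :=
    hid.fst'.pair (((PT.pred hj).pair (PT.add hA hA)).pair hid.snd'.snd')
  have h2 : PT (fun s : List Bool × ((ℕ × ℕ) × (ℕ × ℕ)) =>
      (s.1, (((0 : ℕ), s.2.1.2), (e' (s.1, s.2.1.2) + 1, (1 : ℕ))))) :=
    hid.fst'.pair (((PT.const 0).pair hA).pair
      ((PT.addConst (he'.comp (hid.fst'.pair hA)) 1).pair (PT.const 1)))
  have h3 : PT (fun s : List Bool × ((ℕ × ℕ) × (ℕ × ℕ)) =>
      (s.1, (((0 : ℕ), s.2.1.2), (s.2.2.1 - 1, s.2.2.2 + s.2.2.2)))) :=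
    hid.fst'.pair (((PT.const 0).pair hA).pair ((PT.pred hk).pair (PT.add hB hB)))
  exact PT.ite (c := fun s : List Bool × ((ℕ × ℕ) × (ℕ × ℕ)) => 2 ≤ s.2.1.1)
    (PT.le (PT.const 2) hj) h1
    (PT.ite (c := fun s : List Bool × ((ℕ × ℕ) × (ℕ × ℕ)) => s.2.1.1 = 1)
      ((PT.eqConst 1).comp hj) h2 h3)

private theorem pad2Step_iter1 (e' : List Bool × ℕ → ℕ) (x : List Bool) (n i : ℕ) (hi : i ≤ n) :
    (pad2Step e')^[i] (x, ((n + 1, 1), (2, 1))) = (x, ((n + 1 - i, 2 ^ i), (2, 1))) := by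
  induction i with
  | zero => rfl
  | succ i ih =>
    rw [Function.iterate_succ_apply', ih (by omega)]
    unfold pad2Step
    rw [if_pos (show 2 ≤ n + 1 - i by omega), pow_succ]
    simp only [Prod.mk.injEq, true_and, and_true]
    omega

private theorem pad2Step_iter2 (e' : List Bool × ℕ → ℕ) (x : List Bool) (n : ℕ) :
    (pad2Step e')^[n + 1] (x, ((n + 1, 1), (2, 1))) =
      (x, ((0, 2 ^ n), (e' (x, 2 ^ n) + 1, 1))) := by
  rw [Function.iterate_succ_apply', pad2Step_iter1 e' x n n le_rfl]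
  unfold pad2Step
  rw [if_neg (show ¬ 2 ≤ n + 1 - n by omega), if_pos (show n + 1 - n = 1 by omega)]

private theorem pad2Step_iter3 (e' : List Bool × ℕ → ℕ) (x : List Bool) (n l : ℕ) :
    (pad2Step e')^[n + 1 + l] (x, ((n + 1, 1), (2, 1))) =
      (x, ((0, 2 ^ n), (e' (x, 2 ^ n) + 1 - l, 2 ^ l))) := by
  induction l with
  | zero => exact pad2Step_iter2 e' x n
  | succ l ih =>
    rw [← Nat.add_assoc, Function.iterate_succ_apply', ih]
    unfold pad2Step
    rw [if_neg (show ¬ 2 ≤ 0 by omega), if_neg (show ¬ (0 : ℕ) = 1 by omega), pow_succ]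
    simp only [Prod.mk.injEq, true_and]
    omega

theorem exists_pad2_machine {e : List Bool → ℕ} {e' : List Bool × ℕ → ℕ}
    {F : List Bool × (ℕ × ℕ) → List Bool} (he : PT e) (he' : PT e') (hF : PT F) :
    ∃ (U : Machine) (Q : Polynomial ℕ), ∀ x : List Bool,
      Outputs U x (F (x, (2 ^ e x, 2 ^ e' (x, 2 ^ e x))))
        (Q.eval (x.length + 2 ^ e x + 2 ^ e' (x, 2 ^ e x))) := by
  have hid : PT (fun s : List Bool × ((ℕ × ℕ) × (ℕ × ℕ)) => s) := PT.id
  obtain ⟨T, hT⟩ := exists_loop (g := pad2Step e')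
    (fin := fun s => decide (s.2.1.1 = 0) && decide (s.2.2.1 = 1))
    (out := fun s => F (s.1, (s.2.1.2, s.2.2.2))) (pt_pad2Step he')
    (PT.and ((PT.eqConst 0).comp hid.snd'.fst'.fst') ((PT.eqConst 1).comp hid.snd'.snd'.fst'))
    (hF.comp (hid.fst'.pair (hid.snd'.fst'.snd'.pair hid.snd'.snd'.snd')))
  obtain ⟨U, T0, hU, -⟩ := hT (fun x => (x, ((e x + 1, 1), (2, 1))))
    (PT.id.pair (((PT.addConst he 1).pair (PT.const 1)).pair ((PT.const 2).pair (PT.const 1))))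
  have hPB : PB (fun z => T0.eval z + (z + 1) * T.eval (16 * z + 16)) :=
    (PB.poly T0).add ((PB.id.add (PB.const 1)).mul (PB.comp T
      (((PB.const 16).mul PB.id).add (PB.const 16))))
  obtain ⟨Q, hQ⟩ := hPB
  refine ⟨U, Q, fun x => ?_⟩
  set n := e x with hn
  set E := e' (x, 2 ^ n) with hE
  have h1 := hU x (n + 1 + E) (by
    rw [← hn, pad2Step_iter3 e' x n E, ← hE]
    simp) (fun i hi => by
    rw [← hn]
    rcases Nat.lt_or_ge n i with h | h
    · obtain ⟨l, rfl⟩ : ∃ l, i = n + 1 + l := ⟨i - (n + 1), by omega⟩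
      rw [pad2Step_iter3 e' x n l, ← hE]
      have h2 : ¬ E + 1 - l = 1 := by omega
      simp [h2]
    · rw [pad2Step_iter1 e' x n i h]
      have h2 : ¬ n + 1 - i = 0 := by omega
      simp [h2])
  rw [← hn, pad2Step_iter3 e' x n E, ← hE] at h1
  obtain ⟨h2⟩ := h1
  refine ⟨{ steps := h2.steps, evals_in_steps := h2.evals_in_steps,
            steps_le_m := h2.steps_le_m.trans (le_trans ?_ (hQ _)) }⟩
  set z := x.length + 2 ^ n + 2 ^ E with hz
  have hee : n < 2 ^ n := Nat.lt_two_pow_self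
  have hEE : E < 2 ^ E := Nat.lt_two_pow_self
  refine Nat.add_le_add (eval_mono T0 (by omega)) ?_
  have h3 := size_bools_le x
  have h4 : ∀ a b c d : ℕ, size ((x, ((a, b), (c, d))) : List Bool × ((ℕ × ℕ) × (ℕ × ℕ))) =
      size x + ((2 * a + 1 + (2 * b + 1) + 1) + (2 * c + 1 + (2 * d + 1) + 1) + 1) + 1 := by
    intro a b c d
    rw [size_prod, size_prod, size_prod, size_prod]
    simp only [size_nat]
  calc ∑ i ∈ Finset.range (n + 1 + E + 1),
        T.eval (size ((pad2Step e')^[i] (x, ((n + 1, 1), (2, 1)))))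
      ≤ ∑ i ∈ Finset.range (n + 1 + E + 1), T.eval (16 * z + 16) := by
        refine Finset.sum_le_sum fun i hi => eval_mono T ?_
        have hi' : i < n + 1 + E + 1 := Finset.mem_range.1 hi
        rcases Nat.lt_or_ge n i with h | h
        · obtain ⟨l, rfl⟩ : ∃ l, i = n + 1 + l := ⟨i - (n + 1), by omega⟩
          have hp : 2 ^ l ≤ 2 ^ E := Nat.pow_le_pow_right (by norm_num) (by omega)
          rw [pad2Step_iter3 e' x n l, ← hE, h4]
          omega
        · have hp : 2 ^ i ≤ 2 ^ n := Nat.pow_le_pow_right (by norm_num) h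
          rw [pad2Step_iter1 e' x n i h, h4]
          omega
    _ = (n + 1 + E + 1) * T.eval (16 * z + 16) := by
        rw [Finset.sum_const, Finset.card_range, smul_eq_mul]
    _ ≤ (z + 1) * T.eval (16 * z + 16) := Nat.mul_le_mul_right _ (by omega)

end Pool.Agent.Lib.MP_104326_lc
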